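import Pool.Agent.MSV.Kap
import Pool.Agent.MSA.Rfn
import Pool.Agent.MSA.Main
import Pool.Agent.MSX.CoreA
import Pool.Agent.MSX.Cnv
import Pool.Agent.MSX.Wang
import Pool.Agent.MSX.PsI
import Pool.Agent.MSX.TGood

/-!
# CORE I*: assembly
-/

set_option autoImplicit false
set_option linter.unusedSectionVars false
set_option maxHeartbeats 400000

noncomputable section

namespace MSV

open MvPolynomial Pool.Agent Matrix MSA

universe u

section msa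

variable (D : MSA.Dat.{u}) [PerfectField D.L]

theorem trip_rp (T : D.X.Trip) : IsRelPrime T.y T.g ∧ IsRelPrime T.y T.h :=
  ⟨D.rp_of_pt T.hy.1 T.y0 T.cg, D.rp_of_pt T.hy.1 T.y0 T.ch⟩

/-- the relation between the classes of Koszul complexes -/
theorem key_rel (hp : 2 < D.p) (hF : MSX.PS D.p D.F) :
    ∃ N0 : ℕ, ¬ D.p ∣ N0 ∧ ∀ (l : List D.X.Trip) (w : MK.K2 D.X.K) (n : ℕ), 0 < n →
      n • (l.map MSX.Dat.Trip.fam).sum = D.X.tmK w → (N0 : ℤ) • (l.map kvT).sum = 0 := by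
  obtain ⟨q, hq, hq0, hq1, hqj⟩ := MSX.exists_k (K := D.F) D.X.hp hp
  obtain ⟨z, hz⟩ := hF.prim D.X.hp q hq hq0 hq1
  have : Fact q.Prime := ⟨hq⟩
  let A : Adm D := ⟨q, hq0, z, hz⟩
  obtain ⟨E, hE⟩ := D.exists_adf (conv D)
  obtain ⟨N, hN⟩ : ∃ N : ℤ, N = ∏ j ∈ Finset.Ico 3 D.p, ((q : ℤ) ^ 2 - (q : ℤ) ^ j) := ⟨_, rfl⟩
  have hNp : ¬ (D.p : ℤ) ∣ N := by
    rw [hN, Prime.dvd_finsetProd_iff (Nat.prime_iff_prime_int.1 D.X.hp)]
    rintro ⟨j, hj, h⟩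
    rw [Finset.mem_Ico] at hj
    exact hqj j hj.1 hj.2 h
  refine ⟨N.natAbs, ?_, fun l w n hn hw => ?_⟩
  · intro h
    exact hNp (Int.natCast_dvd.2 h)
  · have h1 := MSA.Dat.main (D := D) A hp l n hn w hw E
    have h2 : l.map (fun T => E.e (D.CI T.y T.g) - E.e (D.CI T.y T.h)) = l.map kvT := by
      refine List.map_congr_left fun T _ => ?_
      obtain ⟨r1, r2⟩ := trip_rp D T
      rw [hE T.m T.n T.y T.g T.hy T.hg T.y0 T.g0 r1, hE T.m T.n T.y T.h T.hy T.hh T.y0 T.h0 r2]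
      rfl
    rw [h2] at h1
    have h3 : N • (l.map kvT).sum = 0 := by
      rw [hN]
      exact h1
    rcases Int.natAbs_eq N with h4 | h4
    · rw [← h4]
      exact h3
    · have h5 : (N.natAbs : ℤ) = -N := by omega
      rw [h5, neg_smul, h3, neg_zero]

variable {D}

/-- families are determined by their images -/
theorem tmK_of_tame {w : MK.K2 D.X.K} {z : MSX.Fam D.p D.L}
    (h : ∀ P, (MSX.lv (MSX.kP P)).tame (MK.K2.map (D.X.em P) w) =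
      Additive.ofMul (incF (D := D) z P)) : D.X.tmK w = z := by
  funext P
  have h1 := MSX.phi_tame P (MK.K2.map D.X.K.subtype w)
  have h2 : MK.K2.map (MSX.phi P) (MK.K2.map D.X.K.subtype w) = MK.K2.map (D.X.em P) w := by
    rw [MK.K2.map_map]
    rfl
  rw [h2, h P] at h1
  have h3 : Function.Injective (Units.map (MSX.inc P : MSX.kap P →* MSX.kP P)) :=
    Units.map_injective (MSX.inc P).injective
  exact (Additive.toMul.injective (h3 h1)).symm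

theorem incF_neg (z : MSX.Fam D.p D.L) : incF (D := D) (-z) = (incF z)⁻¹ := by
  funext P
  exact map_inv (Units.map (MSX.inc P : MSX.kap P →* MSX.kP P)) (z P).toMul

theorem sgT_fam {z : MSX.Fam D.p D.L} (h : incF (D := D) z ∈ MSK.SgT D.X.em) :
    ∃ w : MK.K2 D.X.K, D.X.tmK w = 2 • z := by
  obtain ⟨w, hw⟩ := D.X.sgT_tame _ h
  refine ⟨w, tmK_of_tame fun P => ?_⟩
  rw [← hw P, two_nsmul, incF_add]
  rfl

end msa

section thet

variable (D : MSA.Dat.{u}) [PerfectField D.L]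

/-- the relation between automorphisms and families -/
def RR (γ : Matrix (Fin (MSX.dm D.p 1)) (Fin (MSX.dm D.p 1)) D.L) (f : MSX.Fam D.p D.L) : Prop :=
  ∃ T : MSX.TD D.p D.L (Fin D.p), D.X.Split 1 (MSX.rx D.X.not_dvd_one γ) T ∧
    f = T.fam D.X.hp.one_lt

variable {D}

theorem RR.isTh {γ : Matrix (Fin (MSX.dm D.p 1)) (Fin (MSX.dm D.p 1)) D.L} {f : MSX.Fam D.p D.L}
    (h : RR D γ f) (hγ : γ ∈ D.X.An 1) :
    MSK.IsTh D.X.em (D.X.Os 1) (D.X.km 1 γ) (incF (-f)) := by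
  obtain ⟨T, hT, rfl⟩ := h
  have h1 := MSX.Dat.th_split D.X.not_dvd_one hγ hT
  have h2 : incF (D := D) (-(T.fam D.X.hp.one_lt)) = fun P => Units.map (MSX.inc P :
      MSX.kap P →* MSX.kP P) (T.fam D.X.hp.one_lt P).toMul ^ (-1 : ℤ) := by
    rw [incF_neg]
    funext P
    rw [_root_.zpow_neg_one]
    rfl
  rw [h2]
  exact h1

theorem RR.val {γ : Matrix (Fin (MSX.dm D.p 1)) (Fin (MSX.dm D.p 1)) D.L} {f : MSX.Fam D.p D.L}
    (h : RR D γ f) : (((MSX.cc f).toMul : (MSX.Mb D.p D.L)ˣ) : MSX.Mb D.p D.L) =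
      MSX.cMb D.p D.L γ.det := by
  obtain ⟨T, ⟨s⟩, rfl⟩ := h
  let _ : Algebra D.L (MSX.Mb D.p D.L) := (MSX.cMb D.p D.L).toAlgebra
  have a : AlgebraicClosure D.L →ₐ[D.L] MSX.Mb D.p D.L := IsAlgClosed.lift
  have ha : ∀ c : D.L, (a : AlgebraicClosure D.L →+* MSX.Mb D.p D.L)
      (algebraMap D.L (AlgebraicClosure D.L) c) = MSX.cMb D.p D.L c := fun c => a.commutes c
  rw [T.cc_fam D.X.hp.one_lt (a : AlgebraicClosure D.L →+* MSX.Mb D.p D.L) ha, ← map_prod,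
    ← s.det, ha, MSX.rx_det]

theorem RR.wang (hF : MSX.PS D.p D.F) (hpF : (D.p : D.F) ≠ 0)
    {γ : Matrix (Fin (MSX.dm D.p 1)) (Fin (MSX.dm D.p 1)) D.L} {f : MSX.Fam D.p D.L}
    (hγ : γ ∈ D.X.An 1) (h : RR D γ f) (h1 : γ.det ^ 2 = 1) :
    ∃ v : MK.K2 D.X.K, D.X.tmK v = 4 • f := by
  have hγ2 : γ * γ ∈ D.X.An 1 := Subring.mul_mem _ hγ hγ
  have hd : (γ * γ).det = 1 := by rw [Matrix.det_mul, ← sq, h1]
  obtain ⟨g, w, hg, hw, hg0, hw0, e⟩ := D.X.wang_an D.hd hF hpF hγ2 hd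
  have h2 := MSK.IsTh_mul (h.isTh hγ) (h.isTh hγ)
  have h2' : MSK.IsTh D.X.em (D.X.Os 1) (D.X.km 1 (γ * γ)) (incF (-f + -f)) := by
    rw [MSX.Dat.km_mul hγ hγ, incF_add]
    exact h2
  obtain ⟨v, hv⟩ := sgT_fam (MSX.Dat.th_comm hg hw hg0 hw0 e h2')
  refine ⟨-v, ?_⟩
  rw [map_neg, hv]
  abel

theorem key_thet (hF : MSX.PS D.p D.F) (hL : MSX.PS D.p D.L) (hpF : (D.p : D.F) ≠ 0)
    {N0 : ℕ} (hrel : ∀ (l : List D.X.Trip) (w : MK.K2 D.X.K) (n : ℕ), 0 < n →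
      n • (l.map MSX.Dat.Trip.fam).sum = D.X.tmK w → (N0 : ℤ) • (l.map kvT).sum = 0)
    (w : MK.K2 D.X.K) (n : ℕ) (z : MSX.Fam D.p D.L) (hn : 0 < n) (hz : D.X.Good z)
    (h : n • z = D.X.tmK w) :
    ∃ γ f, γ ∈ D.X.An 1 ∧ γ.det ≠ 0 ∧ RR D γ f ∧ ∃ v : MK.K2 D.X.K,
      D.X.tmK v = 2 • (N0 • z + f) := by
  obtain ⟨l, rfl⟩ := D.X.exists_trips D.hd hpF hz
  have h1 := trips_mem_sup D.hd hF hL l N0 (hrel l w n hn h)
  obtain ⟨s, hs, a, ⟨γ, g1, g2, g3⟩, h4⟩ := Subgroup.mem_sup.1 h1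
  have hγ0 : γ ≠ 0 := by
    rintro rfl
    apply g2
    have : Nonempty (Fin (MSX.dm D.p 1)) := by
      rw [MSX.dm_of D.X.not_dvd_one]
      exact ⟨⟨0, D.X.hp.pos⟩⟩
    exact Matrix.det_zero
  obtain ⟨T, -, hS, -⟩ := D.X.exists_split_an D.hd hF hL D.X.not_dvd_one g1 hγ0
  have hR : RR D γ (T.fam D.X.hp.one_lt) := ⟨T, hS, rfl⟩
  refine ⟨γ, _, g1, g2, hR, ?_⟩
  have h5 := MSK.IsTh_unique g3 (hR.isTh g1)
  apply sgT_fam
  have h6 : incF (D := D) (N0 • (l.map MSX.Dat.Trip.fam).sum + T.fam D.X.hp.one_lt) =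
      s * (a * (incF (-(T.fam D.X.hp.one_lt)))⁻¹) := by
    rw [incF_add, incF_neg, inv_inv, ← natCast_zsmul, incF_zsmul, ← h4, mul_assoc]
  rw [h6]
  exact Subgroup.mul_mem _ hs h5

/-- the formal input of `core_of` -/
theorem exists_thet (hp : 2 < D.p) (hF : MSX.PS D.p D.F) (hL : MSX.PS D.p D.L)
    (hpF : (D.p : D.F) ≠ 0) : Nonempty D.X.Thet := by
  obtain ⟨N0, h1, h2⟩ := key_rel D hp hF
  exact ⟨{
    N0 := N0
    hN0 := h1
    R := RR D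
    fin := by
      rintro γ f ⟨T, -, rfl⟩
      exact T.fam_fin D.X.hp.one_lt
    val := fun γ f h => h.val
    wang := fun γ f hγ h hd => RR.wang hF hpF hγ h hd
    key := fun w n z hn hz h => key_thet hF hL hpF h2 w n z hn hz h }⟩

end thet

section fin

variable {p : ℕ} {F L : Type u} [Field F] [Field L] [Algebra F L] (D : MSX.Dat p F L)

/-- CORE I* -/
theorem core_final [PerfectField L] (hp2 : p ≠ 2) (hD : D.Div) (hF : MSX.PS p F) (hL : MSX.PS p L)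
    (hpF : (p : F) ≠ 0) : ∃ N : ℕ, N.Coprime p ∧ ∀ (w : MK.K2 D.K) (n : ℕ) (z : MSX.Fam p L),
      1 ≤ n → D.Good z → n • z = D.tmK w →
      (MSX.cc z = 0 → ∃ v : MK.K2 D.K, D.tmK v = N • z) ∧
        ∃ g ∈ D.An 1, ((N • MSX.cc z).toMul : MSX.Mb p L) = MSX.cMb p L g.det := by
  have hp : 2 < p := lt_of_le_of_ne D.hp.two_le (Ne.symm hp2)
  have hinf : Infinite F := hF.infinite D.hp hp
  let D' : MSA.Dat.{u} := { F := F, L := L, p := p, X := D, hd := hD, hinf := hinf }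
  have : PerfectField D'.L := ‹PerfectField L›
  obtain ⟨T⟩ : Nonempty D.Thet := exists_thet (D := D') hp hF hL hpF
  refine ⟨4 * T.N0, ?_, fun w n z hn hz h => ?_⟩
  · refine Nat.Coprime.mul_left ?_ ?_
    · have h4 : Nat.Coprime 2 p := (Nat.coprime_primes Nat.prime_two D.hp).2 (Ne.symm hp2)
      have h5 : (4 : ℕ) = 2 * 2 := rfl
      rw [h5]
      exact Nat.Coprime.mul_left h4 h4
    · exact ((Nat.Prime.coprime_iff_not_dvd D.hp).2 T.hN0).symm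
  · obtain ⟨h1, g, hg, -, h3⟩ := MSX.Dat.core_of T (fun X hX hd => D.cn_inv hX hd) w n z hn hz h
    exact ⟨h1, g, hg, h3.symm⟩

end fin

end MSV
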