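import Mathlib
import Pool.Agent.MSA.Prd
import Pool.Agent.MSX.SgP
import Pool.Agent.MSX.Emb

/-!
# CONV: degrees (in `ℤ`) of polynomials and of rational functions

`Hs D d f`: all monomials of `f` have degree `d` (`d : ℤ`, so `f = 0` if `d < 0`).
`cmp D d f`: the component of degree `d`.
`Hd D d q`: the element `q` of the fraction field is homogeneous of degree `d`: `q * x_0^(-d)` lies in the
subfield `KL` of homogeneous elements of degree `0`.

PROOFS.
* `hs_zero`, `hs_add`, `hs_neg`, `hs_sum`, `hs_C`: coefficients. `hs_mul`: `MvPolynomial.coeff_mul`, a nonzero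
  coefficient of `f * g` has a nonzero term `coeff a f * coeff b g`, `a + b = e`, degrees add (`Finsupp.degree` is additive, `map_add`).
* `hs_nat`: `Hs D n f ↔ f.IsHomogeneous n` for `n : ℕ` (`IsHomogeneous` = `IsWeightedHomogeneous 1`:
  `coeff e f ≠ 0 → weight 1 e = n`, `Finsupp.degree_eq_weight_one` / `MvPolynomial.IsHomogeneous` unfold).
* `hs_neg_deg`: degrees of monomials are `≥ 0`.
* `hs_tau`: by `hs_nat` and `MSX.Dat.sig_hom` (`D.tauS = D.X.sig` by definition), the case `d < 0` by `hs_neg_deg`. `hs_gis` is the same with `gis_hom`.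
* `hs_tau_iter`: `MSX.Dat.sig_iter` for `d ≥ 0` (`tauS^[p] f = C (b^d) * f`).
* `thS_coeff`: `coeff e (thS a f) = (a : L)^e.degree * coeff e f` (induction on `f`: monomials, sums;
  `thS a (monomial e c) = C c * ∏ (C a * X i)^(e i)`).
* `hs_th`: `Hs D d f ↔ ∀ a, thS a f = C (a^d) * f`: coefficients: `(a^|e| - a^d) * coeff e f = 0` for all `a ∈ Fˣ`;
  if `coeff e f ≠ 0` then `a^|e| = a^d` for all `a ∈ Fˣ`, `F` infinite, so `|e| = d` (take `a` outside the finite set of roots
  of `X^N - 1`, `N = | |e| - d | > 0`; `D.hinf`).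
* `cmp_hs`, `cmp_self`: `homogeneousComponent_isHomogeneous`, `homogeneousComponent_of_mem`; `cmp_ne`: `homogeneousComponent_of_mem`.
* `cmp_mul`: `Hs d f → cmp (d + e) (f * g) = f * cmp e g`: if `f = 0` clear; else `0 ≤ d`; write `g = ∑ cmp_n g`
  (`sum_homogeneousComponent`), `f * cmp_n g` is homogeneous of degree `d + n`.
* `hd_*`: `KL` is a subfield; `x_0 ≠ 0`; `zpow_add₀`, `mul_zpow`, `zpow_neg`.
* `hd_of_hs`: `f / x_0^d` with `f`, `x_0^d` homogeneous of degree `d`.
* `hd_sig`: `sigQ (q * x_0^(-d)) = sigQ q * (sigQ x_0)^(-d)`, `MSX.Dat.sigQ_KL`, and `sigQ x_0 / x_0 ∈ KL` (both homogeneous of degree one).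
* `sigQ_iter_hd`: `q = r * x_0^d` with `r ∈ KL`; `MSX.Dat.sigQ_iter` (`sigQ^[p] r = r`) and `sigQ^[p] x_0 = b x_0` (`MSX.Dat.sig_X_p`, `sigQ_alg`); `iterate_map_mul`, `map_zpow₀`.
-/

set_option autoImplicit false
set_option linter.unusedSectionVars false

noncomputable section

namespace MSV

open MvPolynomial Pool.Agent

universe u

variable (D : MSA.Dat.{u})

/-- the fraction field of `S` -/
abbrev Qf : Type u := MSX.Q D.p D.L

/-- the inclusion of `S` in its fraction field -/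
def iQ : D.S →+* Qf D := algebraMap (MSX.S D.p D.L) (MSX.Q D.p D.L)

/-- the inclusion of `L` in the fraction field -/
def cL : D.L →+* Qf D := (iQ D).comp C

theorem iQ_inj : Function.Injective (iQ D) := MSX.Q_inj

/-- homogeneous of degree `d ∈ ℤ` -/
def Hs (d : ℤ) (f : D.S) : Prop := ∀ e : Fin D.p →₀ ℕ, f.coeff e ≠ 0 → (e.degree : ℤ) = d

/-- component of degree `d ∈ ℤ` -/
def cmp (d : ℤ) : D.S →ₗ[D.L] D.S :=
  if 0 ≤ d then (homogeneousComponent d.toNat : D.S →ₗ[D.L] D.S) else 0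

/-- the variable `x_0` in the fraction field -/
def xQ : Qf D := iQ D (X 0)

/-- homogeneous of degree `d` in the fraction field -/
def Hd (d : ℤ) (q : Qf D) : Prop := q * (xQ D) ^ (-d) ∈ MSX.KL D.p D.L

variable {D}

theorem hs_zero (d : ℤ) : Hs D d 0 := by
  intro e h
  simp at h

theorem hs_add {d : ℤ} {f g : D.S} (hf : Hs D d f) (hg : Hs D d g) : Hs D d (f + g) := by
  intro e h
  rw [coeff_add] at h
  by_cases h1 : f.coeff e = 0
  · rw [h1, zero_add] at h
    exact hg e h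
  · exact hf e h1

theorem hs_neg {d : ℤ} {f : D.S} (hf : Hs D d f) : Hs D d (-f) := by
  intro e h
  rw [coeff_neg, neg_ne_zero] at h
  exact hf e h

theorem hs_sum {α : Type*} {d : ℤ} (s : Finset α) (f : α → D.S) (hf : ∀ a ∈ s, Hs D d (f a)) :
    Hs D d (∑ a ∈ s, f a) := by
  classical
  induction s using Finset.induction_on with
  | empty =>
    rw [Finset.sum_empty]
    exact hs_zero d
  | insert a s ha ih =>
    rw [Finset.sum_insert ha]
    exact hs_add (hf a (Finset.mem_insert_self a s))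
      (ih fun b hb => hf b (Finset.mem_insert_of_mem hb))

theorem hs_C (c : D.L) : Hs D 0 (C c) := by
  intro e h
  rw [coeff_C] at h
  have h1 : (0 : Fin D.p →₀ ℕ) = e := by
    by_contra h2
    rw [if_neg h2] at h
    exact h rfl
  rw [← h1]
  simp

theorem hs_mul {d e : ℤ} {f g : D.S} (hf : Hs D d f) (hg : Hs D e g) : Hs D (d + e) (f * g) := by
  classical
  intro a h
  rw [coeff_mul] at h
  obtain ⟨x, hx, h1⟩ := Finset.exists_ne_zero_of_sum_ne_zero h
  rw [Finset.HasAntidiagonal.mem_antidiagonal] at hx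
  rw [← hx, map_add, Nat.cast_add, hf _ (left_ne_zero_of_mul h1), hg _ (right_ne_zero_of_mul h1)]

theorem hs_nat (n : ℕ) (f : D.S) : Hs D (n : ℤ) f ↔ f.IsHomogeneous n := by
  constructor
  · intro h e he
    have h1 := h e he
    have h2 : Finsupp.weight 1 e = e.degree :=
      (congrArg (fun t => t e) (Finsupp.degree_eq_weight_one (R := ℕ))).symm
    rw [h2]
    exact_mod_cast h1
  · intro h e he
    have h1 := h he
    have h2 : Finsupp.weight 1 e = e.degree :=
      (congrArg (fun t => t e) (Finsupp.degree_eq_weight_one (R := ℕ))).symm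
    rw [h2] at h1
    exact_mod_cast h1

theorem hs_neg_deg {d : ℤ} (hd : d < 0) {f : D.S} (hf : Hs D d f) : f = 0 := by
  ext e
  rw [coeff_zero]
  by_contra h
  have h1 := hf e h
  omega

/-- in degree `0`: constants -/
theorem hs_const {f : D.S} (hf : Hs D 0 f) : ∃ c : D.L, f = C c := by
  exact MSX.hom_zero ((hs_nat 0 f).1 hf)

theorem hs_tau {d : ℤ} {f : D.S} (hf : Hs D d f) : Hs D d (D.tauS f) := by
  rcases lt_or_ge d 0 with h | h
  · rw [hs_neg_deg h hf, map_zero]
    exact hs_zero d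
  · obtain ⟨n, rfl⟩ := Int.eq_ofNat_of_zero_le h
    exact (hs_nat n _).2 (D.X.sig_hom ((hs_nat n f).1 hf))

theorem hs_tau_iter {d : ℤ} {f : D.S} (hf : Hs D d f) :
    D.tauS^[D.p] f = C (D.X.bL ^ d) * f := by
  rcases lt_or_ge d 0 with h | h
  · rw [hs_neg_deg h hf, mul_zero]
    exact iterate_map_zero D.tauS D.p
  · obtain ⟨n, rfl⟩ := Int.eq_ofNat_of_zero_le h
    have h1 := D.X.sig_iter ((hs_nat n f).1 hf)
    refine h1.trans ?_
    rw [zpow_natCast]

theorem thS_mono (a : D.Fˣ) (e : Fin D.p →₀ ℕ) (c : D.L) :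
    D.thS a (monomial e c) = C ((algebraMap D.F D.L (a : D.F)) ^ e.degree) * monomial e c := by
  unfold MSA.Dat.thS
  rw [coe_eval₂Hom, eval₂_monomial, monomial_eq, Finsupp.prod, Finsupp.prod, map_pow,
    Finsupp.degree_apply, ← Finset.prod_pow_eq_pow_sum]
  simp only [mul_pow, Finset.prod_mul_distrib]
  ring

theorem thS_coeff (a : D.Fˣ) (f : D.S) (e : Fin D.p →₀ ℕ) :
    (D.thS a f).coeff e = (algebraMap D.F D.L (a : D.F)) ^ e.degree * f.coeff e := by
  induction f using MvPolynomial.induction_on' with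
  | monomial m c =>
    rw [thS_mono, coeff_C_mul, coeff_monomial]
    by_cases h : m = e
    · rw [if_pos h, h]
    · rw [if_neg h, mul_zero, mul_zero]
  | add p q hp hq =>
    rw [map_add, coeff_add, coeff_add, hp, hq, mul_add]

theorem hs_th (d : ℤ) (f : D.S) : Hs D d f ↔
    ∀ a : D.Fˣ, D.thS a f = C (algebraMap D.F D.L ((a ^ d : D.Fˣ) : D.F)) * f := by
  constructor
  · intro h a
    ext e
    rw [thS_coeff, coeff_C_mul]
    by_cases he : f.coeff e = 0
    · rw [he, mul_zero, mul_zero]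
    · rw [← h e he, zpow_natCast, Units.val_pow_eq_pow_val, map_pow]
  · intro h e he
    have h1 : ∀ a : D.Fˣ, a ^ (e.degree : ℤ) = a ^ d := by
      intro a
      have h2 := congrArg (coeff e) (h a)
      rw [thS_coeff, coeff_C_mul] at h2
      have h3 := mul_right_cancel₀ he h2
      rw [← map_pow] at h3
      have h4 := (algebraMap D.F D.L).injective h3
      rw [zpow_natCast]
      exact Units.ext (by rw [Units.val_pow_eq_pow_val, h4])
    by_contra hne
    obtain ⟨N, hN, hN1⟩ : ∃ N : ℕ, 0 < N ∧ ∀ a : D.Fˣ, a ^ N = 1 := by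
      rcases lt_or_gt_of_ne hne with h5 | h5
      · refine ⟨(d - e.degree).toNat, by omega, fun a => ?_⟩
        rw [← zpow_natCast, Int.toNat_of_nonneg (by omega), zpow_sub, h1 a, mul_inv_cancel]
      · refine ⟨((e.degree : ℤ) - d).toNat, by omega, fun a => ?_⟩
        rw [← zpow_natCast, Int.toNat_of_nonneg (by omega), zpow_sub, h1 a, mul_inv_cancel]
    have hp0 : (Polynomial.X ^ N - 1 : Polynomial D.F) ≠ 0 := by
      have := Polynomial.X_pow_sub_C_ne_zero hN (1 : D.F)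
      rwa [Polynomial.C_1] at this
    classical
    obtain ⟨c, hc⟩ := Infinite.exists_notMem_finset
      ((Polynomial.X ^ N - 1 : Polynomial D.F).roots.toFinset ∪ {0})
    rw [Finset.mem_union, not_or, Multiset.mem_toFinset, Polynomial.mem_roots hp0,
      Finset.mem_singleton] at hc
    apply hc.1
    have h6 := congrArg Units.val (hN1 (Units.mk0 c hc.2))
    rw [Units.val_pow_eq_pow_val, Units.val_mk0, Units.val_one] at h6
    rw [Polynomial.IsRoot, Polynomial.eval_sub, Polynomial.eval_pow, Polynomial.eval_X, h6,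
      Polynomial.eval_one, sub_self]

theorem cmp_hs (d : ℤ) (f : D.S) : Hs D d (cmp D d f) := by
  rcases lt_or_ge d 0 with h | h
  · rw [cmp, if_neg (by omega)]
    exact hs_zero d
  · obtain ⟨n, rfl⟩ := Int.eq_ofNat_of_zero_le h
    rw [cmp, if_pos h, Int.toNat_natCast]
    exact (hs_nat n _).2 (homogeneousComponent_isHomogeneous n f)

theorem cmp_self {d : ℤ} {f : D.S} (hf : Hs D d f) : cmp D d f = f := by
  rcases lt_or_ge d 0 with h | h
  · rw [hs_neg_deg h hf, map_zero]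
  · obtain ⟨n, rfl⟩ := Int.eq_ofNat_of_zero_le h
    rw [cmp, if_pos h, Int.toNat_natCast]
    have h1 := homogeneousComponent_of_mem (m := n) ((hs_nat n f).1 hf)
    rw [h1, if_pos rfl]

theorem cmp_ne {d e : ℤ} (h : d ≠ e) {f : D.S} (hf : Hs D d f) : cmp D e f = 0 := by
  rcases lt_or_ge e 0 with h1 | h1
  · rw [cmp, if_neg (by omega)]
    rfl
  · rcases lt_or_ge d 0 with h2 | h2
    · rw [hs_neg_deg h2 hf, map_zero]
    · obtain ⟨n, rfl⟩ := Int.eq_ofNat_of_zero_le h1
      obtain ⟨m, rfl⟩ := Int.eq_ofNat_of_zero_le h2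
      rw [cmp, if_pos h1, Int.toNat_natCast]
      have h3 := homogeneousComponent_of_mem (m := n) ((hs_nat m f).1 hf)
      rw [h3, if_neg]
      rintro rfl
      exact h rfl

theorem cmp_mul {d : ℤ} (e : ℤ) {f : D.S} (g : D.S) (hf : Hs D d f) :
    cmp D (d + e) (f * g) = f * cmp D e g := by
  by_cases hf0 : f = 0
  · rw [hf0, zero_mul, zero_mul, map_zero]
  have h0 : 0 ≤ d := by
    by_contra h
    exact hf0 (hs_neg_deg (by omega) hf)
  have hg : g = ∑ n ∈ Finset.range (g.totalDegree + 1), homogeneousComponent n g :=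
    (sum_homogeneousComponent g).symm
  have key : ∀ n : ℕ, cmp D (d + e) (f * homogeneousComponent n g) =
      f * cmp D e (homogeneousComponent n g) := by
    intro n
    have h1 : Hs D (n : ℤ) (homogeneousComponent n g) :=
      (hs_nat n _).2 (homogeneousComponent_isHomogeneous n g)
    have h2 := hs_mul hf h1
    by_cases hn : (n : ℤ) = e
    · subst hn
      rw [cmp_self h2, cmp_self h1]
    · rw [cmp_ne hn h1, mul_zero]
      exact cmp_ne (fun h => hn (by omega)) h2
  conv_lhs => rw [hg]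
  conv_rhs => rw [hg]
  rw [Finset.mul_sum, map_sum, map_sum, Finset.mul_sum]
  exact Finset.sum_congr rfl fun n _ => key n

/-- an element is the sum of its components -/
theorem sum_cmp (f : D.S) : ∃ N : ℕ, ∀ M ≥ N, ∑ d ∈ Finset.range M, cmp D (d : ℤ) f = f := by
  refine ⟨f.totalDegree + 1, fun M hM => ?_⟩
  have h1 : ∀ n : ℕ, cmp D (n : ℤ) f = homogeneousComponent n f := by
    intro n
    rw [cmp, if_pos (by omega), Int.toNat_natCast]
  rw [Finset.sum_congr rfl fun n _ => h1 n]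
  conv_rhs => rw [← sum_homogeneousComponent f]
  refine (Finset.sum_subset (Finset.range_mono hM) fun n _ hn => ?_).symm
  rw [Finset.mem_range, not_lt] at hn
  exact homogeneousComponent_eq_zero n f (by omega)

theorem xQ_ne : xQ D ≠ 0 := by
  unfold xQ
  rw [Ne, map_eq_zero_iff _ (iQ_inj D)]
  exact X_ne_zero _

theorem hd_KL (q : Qf D) : Hd D 0 q ↔ q ∈ MSX.KL D.p D.L := by
  unfold Hd
  rw [neg_zero, zpow_zero, mul_one]

theorem hd_zero (d : ℤ) : Hd D d 0 := by
  unfold Hd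
  rw [zero_mul]
  exact zero_mem _

theorem hd_add {d : ℤ} {q r : Qf D} (hq : Hd D d q) (hr : Hd D d r) : Hd D d (q + r) := by
  unfold Hd at *
  rw [add_mul]
  exact add_mem hq hr

theorem hd_neg {d : ℤ} {q : Qf D} (hq : Hd D d q) : Hd D d (-q) := by
  unfold Hd at *
  rw [neg_mul]
  exact neg_mem hq

theorem hd_sum {α : Type*} {d : ℤ} (s : Finset α) (f : α → Qf D) (hf : ∀ a ∈ s, Hd D d (f a)) :
    Hd D d (∑ a ∈ s, f a) := by
  unfold Hd at *
  rw [Finset.sum_mul]
  exact sum_mem hf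

theorem hd_mul {d e : ℤ} {q r : Qf D} (hq : Hd D d q) (hr : Hd D e r) : Hd D (d + e) (q * r) := by
  unfold Hd at *
  have h1 : q * r * xQ D ^ (-(d + e)) = (q * xQ D ^ (-d)) * (r * xQ D ^ (-e)) := by
    rw [neg_add, zpow_add₀ xQ_ne]
    ring
  rw [h1]
  exact mul_mem hq hr

theorem hd_xQ (d : ℤ) : Hd D d (xQ D ^ d) := by
  unfold Hd
  rw [← zpow_add₀ xQ_ne, add_neg_cancel, zpow_zero]
  exact one_mem _

theorem hd_cL (c : D.L) : Hd D 0 (cL D c) := by
  rw [hd_KL]
  refine ⟨0, C c, 1, isHomogeneous_C _ _, isHomogeneous_one _ _, one_ne_zero, ?_⟩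
  rw [map_one, div_one]
  rfl

theorem hd_of_hs {d : ℤ} {f : D.S} (hf : Hs D d f) : Hd D d (iQ D f) := by
  rcases lt_or_ge d 0 with h | h
  · rw [hs_neg_deg h hf, map_zero]
    exact hd_zero d
  · obtain ⟨n, rfl⟩ := Int.eq_ofNat_of_zero_le h
    refine ⟨n, f, X 0 ^ n, (hs_nat n f).1 hf, ?_, pow_ne_zero _ (X_ne_zero _), ?_⟩
    · have h1 := (isHomogeneous_X D.L (0 : Fin D.p)).pow n
      rwa [one_mul] at h1
    · rw [zpow_neg, zpow_natCast, map_pow]
      rfl

theorem sigQ_iQ (f : D.S) : D.X.sigQ (iQ D f) = iQ D (D.tauS f) := D.X.sigQ_alg f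

theorem sigQ_cL (c : D.L) : D.X.sigQ (cL D c) = cL D (D.s c) := by
  show D.X.sigQ (iQ D (C c)) = iQ D (C (D.s c))
  rw [sigQ_iQ, MSA.Dat.tauS_C]

theorem hd_x_ratio : D.X.sigQ (xQ D) * (xQ D)⁻¹ ∈ MSX.KL D.p D.L := by
  refine ⟨1, D.X.sig (X 0), X 0, D.X.sig_hom (isHomogeneous_X D.L _), isHomogeneous_X D.L _,
    X_ne_zero _, ?_⟩
  unfold xQ
  rw [sigQ_iQ]
  rfl

theorem sigQ_x_ne : D.X.sigQ (xQ D) ≠ 0 := (map_ne_zero D.X.sigQ).2 xQ_ne

theorem hd_sig {d : ℤ} {q : Qf D} (hq : Hd D d q) : Hd D d (D.X.sigQ q) := by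
  unfold Hd at *
  have h1 := D.X.sigQ_KL hq
  rw [map_mul, map_zpow₀] at h1
  have h2 := zpow_mem (hd_x_ratio (D := D)) d
  have h3 := mul_mem h1 h2
  have h4 : D.X.sigQ q * D.X.sigQ (xQ D) ^ (-d) * (D.X.sigQ (xQ D) * (xQ D)⁻¹) ^ d =
      D.X.sigQ q * xQ D ^ (-d) := by
    rw [mul_zpow, inv_zpow', mul_assoc, ← mul_assoc (D.X.sigQ (xQ D) ^ (-d)),
      ← zpow_add₀ sigQ_x_ne, neg_add_cancel, zpow_zero, one_mul]
  rw [h4] at h3
  exact h3

theorem sigQ_iter_iQ (k : ℕ) (f : D.S) : D.X.sigQ^[k] (iQ D f) = iQ D (D.tauS^[k] f) := by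
  induction k generalizing f with
  | zero => rfl
  | succ k ih => rw [Function.iterate_succ_apply, Function.iterate_succ_apply, sigQ_iQ, ih]

theorem sigQ_iter_hd {d : ℤ} {q : Qf D} (hq : Hd D d q) :
    D.X.sigQ^[D.p] q = cL D (D.X.bL ^ d) * q := by
  have h1 : q = (q * xQ D ^ (-d)) * xQ D ^ d := by
    rw [mul_assoc, ← zpow_add₀ xQ_ne, neg_add_cancel, zpow_zero, mul_one]
  have h2 : D.X.sigQ^[D.p] (xQ D) = cL D D.X.bL * xQ D := by
    unfold xQ
    rw [sigQ_iter_iQ]
    have h3 : D.tauS^[D.p] (X 0) = C D.X.bL * X 0 := D.X.sig_X_p (0 : Fin D.p)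
    rw [h3, map_mul]
    rfl
  have h4 : ∀ (k : ℕ) (x : Qf D) (n : ℤ), D.X.sigQ^[k] (x ^ n) = (D.X.sigQ^[k] x) ^ n := by
    intro k
    induction k with
    | zero => intro x n; rfl
    | succ k ih =>
      intro x n
      rw [Function.iterate_succ_apply, Function.iterate_succ_apply, map_zpow₀, ih]
  conv_lhs => rw [h1]
  rw [iterate_map_mul, D.X.sigQ_iter hq, h4, h2, mul_zpow, ← map_zpow₀]
  conv_rhs => rw [h1]
  ring

theorem cL_inj : Function.Injective (cL D) :=
  fun _ _ h => C_injective _ _ (iQ_inj D h)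

end MSV
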