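import Mathlib
import Pool.Agent.MSV.Hs
import Pool.Agent.MSX.Des
import Pool.Agent.MSX.Std

/-!
# CONV: standard graded modules with semilinear `τ`, in matrix form

`Fr D` (frame): finite index type, weights `n i`, matrix `B` over `L` of `τ` in coordinates:
`τ x = B * tauS(x)`, `B_ij = 0` for `n_i ≠ n_j`, `B * s(B) * .. * s^(p-1)(B) = diag (b^(n_i))`.
`Hm A A' T`: the matrix `T` over `S` is a homomorphism of degree `0` which commutes with `τ`:
`T j i` has degree `n_i - n'_j`, `B' * tauS(T) = T * B`.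

PROOFS.
* `hm_one`, `hm_zero`, `Hm.mul`, `Hm.add`, `Hm.neg`, `hm_blocks`, `hm_cols`: matrix computations with `hs_C`, `hs_mul`, `hs_sum`,
  `Matrix.map_mul`, `Matrix.fromBlocks_map`, `Matrix.fromBlocks_multiply`. (`Hm.mul`: `B'' τ(T' T) = B'' τ(T') τ(T) = T' B' τ(T) = T' T B`.)
* `det_B`: `itM s B (k+1) = B * (..)`, so `B * (something) = diag(b^n)`, invertible (`p = (p-1) + 1`).
* `Hm.inv`: `τ(T) τ(T') = 1`; from `B' τ(T) = T B`: `T' B' = T' B' τ(T) τ(T') = T' T B τ(T') = B τ(T')`. Degrees: put `T'' = (cmp (n'_j - n_i) (T' i j))_(i j)`;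
  by `cmp_mul` and `T * T' = 1` also `T * T'' = 1` (take the component of degree `n'_i - n'_k` of the entry `(k, i)`, for `k = i` of degree `0`; for `k ≠ i` the entry is `0`), so
  `T' = T' * T * T'' = T''`.
-/

set_option autoImplicit false
set_option linter.unusedSectionVars false

noncomputable section

namespace MSV

open MvPolynomial Pool.Agent Matrix

universe u

variable (D : MSA.Dat.{u})

/-- Frames: standard graded modules `⊕ S w_i` with semilinear `τ`. -/
structure Fr where
  ι : Type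
  [fi : Fintype ι]
  [di : DecidableEq ι]
  n : ι → ℤ
  B : Matrix ι ι D.L
  hn : ∀ i j, n i ≠ n j → B i j = 0
  hB : MSX.itM D.s.toRingEquiv B D.p = Matrix.diagonal (fun i => D.X.bL ^ n i)

attribute [instance] Fr.fi Fr.di

variable {D}

/-- `T` is the matrix of a homomorphism `A → A'`. -/
structure Hm (A A' : Fr D) (T : Matrix A'.ι A.ι D.S) : Prop where
  deg : ∀ j i, Hs D (A.n i - A'.n j) (T j i)
  tau : A'.B.map (C : D.L →+* D.S) * T.map D.tauS = T * A.B.map (C : D.L →+* D.S)

theorem itM_blocks {M : Type*} [Field M] {ι κ : Type*} [Fintype ι] [DecidableEq ι] [Fintype κ]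
    [DecidableEq κ] (s : M ≃+* M) (B : Matrix ι ι M) (B' : Matrix κ κ M) (k : ℕ) :
    MSX.itM s (Matrix.fromBlocks B 0 0 B') k =
      Matrix.fromBlocks (MSX.itM s B k) 0 0 (MSX.itM s B' k) := by
  induction k with
  | zero => exact Matrix.fromBlocks_one.symm
  | succ k ih =>
    show Matrix.fromBlocks B 0 0 B' * (MSX.itM s (Matrix.fromBlocks B 0 0 B') k).map s = _
    rw [ih, Matrix.fromBlocks_map, Matrix.fromBlocks_multiply]
    simp only [Matrix.map_zero _ (map_zero s), Matrix.mul_zero, Matrix.zero_mul, add_zero, zero_add]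
    rfl

/-- direct sum of frames -/
def Fr.sum (A A' : Fr D) : Fr D where
  ι := A.ι ⊕ A'.ι
  n := Sum.elim A.n A'.n
  B := Matrix.fromBlocks A.B 0 0 A'.B
  hn := by
    rintro (i | i) (j | j) h
    · exact A.hn i j h
    · rfl
    · rfl
    · exact A'.hn i j h
  hB := by
    have h := itM_blocks D.s.toRingEquiv A.B A'.B D.p
    rw [A.hB, A'.hB, Matrix.fromBlocks_diagonal] at h
    refine h.trans ?_
    congr 1
    funext i
    cases i <;> rfl

theorem hm_one (A : Fr D) : Hm A A 1 := by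
  constructor
  · intro j i
    by_cases h : j = i
    · subst h
      rw [Matrix.one_apply_eq, sub_self, ← map_one C]
      exact hs_C 1
    · rw [Matrix.one_apply_ne h]
      exact hs_zero _
  · rw [Matrix.map_one _ (map_zero _) (map_one _), Matrix.mul_one, Matrix.one_mul]

theorem hm_zero (A A' : Fr D) : Hm A A' 0 := by
  constructor
  · intro j i
    exact hs_zero _
  · rw [Matrix.map_zero _ (map_zero _), Matrix.mul_zero, Matrix.zero_mul]

theorem Hm.mul {A A' A'' : Fr D} {T : Matrix A'.ι A.ι D.S} {T' : Matrix A''.ι A'.ι D.S}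
    (h' : Hm A' A'' T') (h : Hm A A' T) : Hm A A'' (T' * T) := by
  constructor
  · intro k i
    rw [Matrix.mul_apply]
    refine hs_sum _ _ fun j _ => ?_
    have h1 := hs_mul (h'.deg k j) (h.deg j i)
    have h2 : A'.n j - A''.n k + (A.n i - A'.n j) = A.n i - A''.n k := by ring
    rwa [h2] at h1
  · rw [Matrix.map_mul, ← Matrix.mul_assoc, h'.tau, Matrix.mul_assoc, h.tau, Matrix.mul_assoc]

theorem Hm.add {A A' : Fr D} {T T' : Matrix A'.ι A.ι D.S} (h : Hm A A' T) (h' : Hm A A' T') :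
    Hm A A' (T + T') := by
  constructor
  · intro j i
    exact hs_add (h.deg j i) (h'.deg j i)
  · rw [Matrix.map_add _ (map_add D.tauS), Matrix.mul_add, Matrix.add_mul, h.tau, h'.tau]

theorem Hm.neg {A A' : Fr D} {T : Matrix A'.ι A.ι D.S} (h : Hm A A' T) : Hm A A' (-T) := by
  constructor
  · intro j i
    exact hs_neg (h.deg j i)
  · have h1 : (-T).map D.tauS = -(T.map D.tauS) := by
      ext1 j i
      exact map_neg D.tauS (T j i)
    rw [h1, Matrix.mul_neg, Matrix.neg_mul, h.tau]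

/-- the matrix of `τ` is invertible -/
theorem Fr.det_B (A : Fr D) : IsUnit A.B := by
  obtain ⟨k, hk⟩ : ∃ k, D.p = k + 1 := ⟨D.p - 1, by have := D.X.hp.pos; omega⟩
  have h1 : MSX.itM D.s.toRingEquiv A.B (k + 1) =
      Matrix.diagonal (fun i => D.X.bL ^ A.n i) := hk ▸ A.hB
  have h2 : A.B * (MSX.itM D.s.toRingEquiv A.B k).map D.s.toRingEquiv =
      Matrix.diagonal (fun i => D.X.bL ^ A.n i) := h1
  have h3 : IsUnit (Matrix.diagonal (fun i => D.X.bL ^ A.n i)) := by
    rw [Matrix.isUnit_diagonal, Pi.isUnit_iff]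
    intro i
    exact IsUnit.mk0 _ (zpow_ne_zero _ D.X.bL_ne)
  rw [← h2, Matrix.isUnit_iff_isUnit_det, Matrix.det_mul] at h3
  rw [Matrix.isUnit_iff_isUnit_det]
  exact isUnit_of_mul_isUnit_left h3

/-- the inverse of a homomorphism is a homomorphism -/
theorem Hm.inv {A A' : Fr D} {T : Matrix A'.ι A.ι D.S} {T' : Matrix A.ι A'.ι D.S} (h : Hm A A' T)
    (h1 : T * T' = 1) (h2 : T' * T = 1) : Hm A' A T' := by
  have e1 : T * Matrix.of (fun i j => cmp D (A'.n j - A.n i) (T' i j)) = 1 := by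
    ext1 j k
    rw [Matrix.mul_apply]
    have h3 : ∀ i, T j i * Matrix.of (fun i j => cmp D (A'.n j - A.n i) (T' i j)) i k =
        cmp D (A'.n k - A'.n j) (T j i * T' i k) := by
      intro i
      have h4 := cmp_mul (A'.n k - A.n i) (T' i k) (h.deg j i)
      have h5 : A.n i - A'.n j + (A'.n k - A.n i) = A'.n k - A'.n j := by ring
      rw [h5] at h4
      exact h4.symm
    rw [Finset.sum_congr rfl fun i _ => h3 i, ← map_sum, ← Matrix.mul_apply, h1]
    by_cases hjk : j = k
    · subst hjk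
      rw [Matrix.one_apply_eq, sub_self, ← map_one C]
      exact cmp_self (hs_C 1)
    · rw [Matrix.one_apply_ne hjk, map_zero]
  have e2 : T' = Matrix.of (fun i j => cmp D (A'.n j - A.n i) (T' i j)) := by
    conv_lhs => rw [← Matrix.mul_one T', ← e1, ← Matrix.mul_assoc, h2, Matrix.one_mul]
  constructor
  · intro i j
    rw [e2]
    exact cmp_hs _ _
  · have h3 : T.map D.tauS * T'.map D.tauS = 1 := by
      rw [← Matrix.map_mul, h1, Matrix.map_one _ (map_zero _) (map_one _)]
    calc A.B.map (C : D.L →+* D.S) * T'.map D.tauS =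
        T' * (T * A.B.map (C : D.L →+* D.S)) * T'.map D.tauS := by
          rw [← Matrix.mul_assoc T' T, h2, Matrix.one_mul]
      _ = T' * A'.B.map (C : D.L →+* D.S) := by
          rw [← h.tau, Matrix.mul_assoc, Matrix.mul_assoc, h3, Matrix.mul_one]

theorem hm_blocks {A1 A2 B1 B2 : Fr D} {T11 : Matrix B1.ι A1.ι D.S} {T12 : Matrix B1.ι A2.ι D.S}
    {T21 : Matrix B2.ι A1.ι D.S} {T22 : Matrix B2.ι A2.ι D.S} (h11 : Hm A1 B1 T11)
    (h12 : Hm A2 B1 T12) (h21 : Hm A1 B2 T21) (h22 : Hm A2 B2 T22) :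
    Hm (A1.sum A2) (B1.sum B2) (Matrix.fromBlocks T11 T12 T21 T22) := by
  constructor
  · rintro (j | j) (i | i)
    · exact h11.deg j i
    · exact h12.deg j i
    · exact h21.deg j i
    · exact h22.deg j i
  · show (Matrix.fromBlocks B1.B 0 0 B2.B).map (C : D.L →+* D.S) *
        (Matrix.fromBlocks T11 T12 T21 T22).map D.tauS =
      Matrix.fromBlocks T11 T12 T21 T22 * (Matrix.fromBlocks A1.B 0 0 A2.B).map (C : D.L →+* D.S)
    rw [Matrix.fromBlocks_map, Matrix.fromBlocks_map, Matrix.fromBlocks_map,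
      Matrix.fromBlocks_multiply, Matrix.fromBlocks_multiply]
    simp only [Matrix.map_zero _ (map_zero C), Matrix.mul_zero, Matrix.zero_mul, add_zero, zero_add]
    rw [h11.tau, h12.tau, h21.tau, h22.tau]

theorem hm_cols {A1 A2 B : Fr D} {T1 : Matrix B.ι A1.ι D.S} {T2 : Matrix B.ι A2.ι D.S}
    (h1 : Hm A1 B T1) (h2 : Hm A2 B T2) : Hm (A1.sum A2) B (Matrix.fromCols T1 T2) := by
  constructor
  · rintro j (i | i)
    · exact h1.deg j i
    · exact h2.deg j i
  · show B.B.map (C : D.L →+* D.S) * (Matrix.fromCols T1 T2).map D.tauS =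
      Matrix.fromCols T1 T2 * (Matrix.fromBlocks A1.B 0 0 A2.B).map (C : D.L →+* D.S)
    rw [Matrix.fromCols_map, Matrix.mul_fromCols, Matrix.fromBlocks_map,
      Matrix.fromCols_mul_fromBlocks]
    simp only [Matrix.map_zero _ (map_zero C), Matrix.mul_zero, add_zero, zero_add]
    rw [h1.tau, h2.tau]

end MSV
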