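import Mathlib
import Pool.Agent.MSV.Fr
import Pool.Agent.MSX.Hil
import Pool.Agent.MSK.Ctr

/-!
# CONV: components of degree `0` and averages over `τ` of matrices; splitting; one-weight contractions

`deg0 A A' T`: the part of degree `0` of the matrix `T : A → A'` (entry `(j, i)`: the component of degree `n_i - n'_j`).
`tH A A' T = B' * τ(T) * B⁻¹` (the action of `τ` on homomorphisms), `avg A A' c T = ∑_{i<p} tH^i (C c * T)`.

PROOFS.
* `deg0_mul_left`: entry `(k, i)` of `M * T` is `∑_j M_kj T_ji`, `M_kj` of degree `n'_j - n''_k`; `cmp_mul` with `d + e = (n'_j - n''_k) + (n_i - n'_j)`.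
  `deg0_mul_right` is the same (commutativity). `deg0_one`: `Hm.deg (hm_one A)` and `deg0_self`. `deg0_self`: `cmp_self`.
* `tH_deg`: `B'_jk = 0` unless `n'_j = n'_k` and the same for `B⁻¹` (its entries vanish for different weights: `Binv_zero`), `hs_tau`, `hs_C`, `hs_mul`, `hs_sum`.
* `Binv_zero`: let `B⁻` be the matrix with entries `(B⁻¹)_ij` for `n_i = n_j`, `0` otherwise; `B * B⁻ = 1` because `B` is block diagonal; so `B⁻ = B⁻¹`.
* `tH_iter_p` (degree `0`): `tH^[k] T = (itM(B') k) * τ^k(T) * (itM(B) k)⁻¹` by induction (write `tH^[k+1] T = tH (tH^[k] T) = B' τ(itM(B') k) τ^(k+1)(T) τ(itM(B) k)⁻¹ B⁻¹`).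
  For `k = p`: entry `(j, i)` is `b^(n'_j) * τ^p(T_ji) * b^(-n_i) = T_ji` by `hs_tau_iter` (`T_ji` has degree `n_i - n'_j`).
* `avg_tau`: `tH (avg T) = avg T` (`MSX.shift_sum`-type argument: `∑_{i<p} tH^(i+1) X = ∑_{i<p} tH^i X` since `tH^p X = X`), so `B' τ(avg T) = avg T * B`.
* `avg_mul_left` (`M` a homomorphism `A' → A''`): `tH (M * X) = B'' τ(M) τ(X) B⁻¹ = M B' τ(X) B⁻¹ = M * tH X`. `avg_mul_right`: `tH (X * M) = B'' τ(X) τ(M) B₀⁻¹ = B'' τ(X) B⁻¹ M`
  (from `B τ(M) = M B₀`: `τ(M) B₀⁻¹ = B⁻¹ M`).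
* `avg_one`: `tH^[i] (C c * 1) = C (s^i c) * 1`; sum `= 1`.
* `split`: `T' = avg (deg0 T)`: `M * T' = avg (M * deg0 T) = avg (deg0 (M * T)) = avg (deg0 1) = avg 1 = 1`.
* `exists_retr` is the same on the other side.
* `contr_const`: constant matrices. `D0 = C(d0)`, `D1 = C(d1)` with `d0, d1` over `L` (`hs_const`, all weights are `m`). Exactness over `S` gives exactness over `L` (if `d0 v = 0`, `v ∈ L^ι`, then
  `C v = D1 u`, take the components of degree `0` (`cmp_mul`, `MvPolynomial.constantCoeff`) of `u`). `MSK.exists_IsC` over `L` gives `s0, s1` over `L`. Put `u0 = avg (C s0)`, `u1 = avg (C s1)`: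
  `D1 * u0 + u1 * D0 = avg (D1 C(s0) + C(s1) D0) = avg 1 = 1` (`avg_mul_left`, `avg_mul_right`, `avg_add`), same for the other one. Then `MSK.IsC.weak` and `Hm.mul`.
-/

set_option autoImplicit false
set_option linter.unusedSectionVars false

noncomputable section

namespace MSV

open MvPolynomial Pool.Agent Matrix

universe u

variable {D : MSA.Dat.{u}}

/-- part of degree `0` -/
def deg0 (A A' : Fr D) (T : Matrix A'.ι A.ι D.S) : Matrix A'.ι A.ι D.S :=
  fun j i => cmp D (A.n i - A'.n j) (T j i)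

/-- the action of `τ` on matrices -/
def tH (A A' : Fr D) (T : Matrix A'.ι A.ι D.S) : Matrix A'.ι A.ι D.S :=
  (A'.B.map (C : D.L → D.S) : Matrix A'.ι A'.ι D.S) * T.map D.tauS *
    ((A.B⁻¹).map (C : D.L → D.S) : Matrix A.ι A.ι D.S)

/-- average -/
def avg (A A' : Fr D) (c : D.L) (T : Matrix A'.ι A.ι D.S) : Matrix A'.ι A.ι D.S :=
  ∑ i ∈ Finset.range D.p, (tH A A')^[i] ((C c : D.S) • T)

/-- `T` has degree `0` -/
def Dg (A A' : Fr D) (T : Matrix A'.ι A.ι D.S) : Prop := ∀ j i, Hs D (A.n i - A'.n j) (T j i)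

theorem deg0_dg (A A' : Fr D) (T : Matrix A'.ι A.ι D.S) : Dg A A' (deg0 A A' T) :=
  fun _ _ => cmp_hs _ _

theorem deg0_self {A A' : Fr D} {T : Matrix A'.ι A.ι D.S} (h : Dg A A' T) : deg0 A A' T = T :=
  Matrix.ext fun j i => cmp_self (h j i)

theorem deg0_mul_left {A A' A'' : Fr D} {M : Matrix A''.ι A'.ι D.S} (h : Dg A' A'' M)
    (T : Matrix A'.ι A.ι D.S) : deg0 A A'' (M * T) = M * deg0 A A' T := by
  refine Matrix.ext fun k i => ?_
  show cmp D (A.n i - A''.n k) ((M * T) k i) = (M * deg0 A A' T) k i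
  rw [Matrix.mul_apply, Matrix.mul_apply, map_sum]
  refine Finset.sum_congr rfl fun j _ => ?_
  have h1 := cmp_mul (A.n i - A'.n j) (T j i) (h k j)
  rw [show A'.n j - A''.n k + (A.n i - A'.n j) = A.n i - A''.n k by ring] at h1
  exact h1

theorem deg0_mul_right {A A' A'' : Fr D} {M : Matrix A'.ι A.ι D.S} (h : Dg A A' M)
    (T : Matrix A''.ι A'.ι D.S) : deg0 A A'' (T * M) = deg0 A' A'' T * M := by
  refine Matrix.ext fun k i => ?_
  show cmp D (A.n i - A''.n k) ((T * M) k i) = (deg0 A' A'' T * M) k i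
  rw [Matrix.mul_apply, Matrix.mul_apply, map_sum]
  refine Finset.sum_congr rfl fun j _ => ?_
  have h1 := cmp_mul (A'.n j - A''.n k) (T k j) (h j i)
  rw [show A.n i - A'.n j + (A'.n j - A''.n k) = A.n i - A''.n k by ring] at h1
  rw [mul_comm, h1, mul_comm]
  rfl

private theorem isUnit_det (A : Fr D) : IsUnit A.B.det := (Matrix.isUnit_iff_isUnit_det _).1 A.det_B

theorem Binv_zero (A : Fr D) (i j : A.ι) (h : A.n i ≠ A.n j) : (A.B⁻¹) i j = 0 := by
  let M : Matrix A.ι A.ι D.L := fun i j => if A.n i = A.n j then (A.B⁻¹) i j else 0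
  have hM : A.B * M = 1 := by
    refine Matrix.ext fun i j => ?_
    rw [Matrix.mul_apply]
    by_cases hij : A.n i = A.n j
    · have h1 : ∑ k, A.B i k * M k j = ∑ k, A.B i k * (A.B⁻¹) k j := by
        refine Finset.sum_congr rfl fun k _ => ?_
        by_cases hk : A.n k = A.n j
        · show A.B i k * (if A.n k = A.n j then (A.B⁻¹) k j else 0) = _
          rw [if_pos hk]
        · rw [A.hn i k (fun h0 => hk (h0.symm.trans hij)), zero_mul, zero_mul]
      rw [h1, ← Matrix.mul_apply, Matrix.mul_nonsing_inv _ (isUnit_det A)]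
    · rw [Matrix.one_apply_ne (fun h0 => hij (by rw [h0]))]
      refine Finset.sum_eq_zero fun k _ => ?_
      by_cases hk : A.n k = A.n j
      · rw [A.hn i k (fun h0 => hij (h0.trans hk)), zero_mul]
      · show A.B i k * (if A.n k = A.n j then (A.B⁻¹) k j else 0) = _
        rw [if_neg hk, mul_zero]
  rw [Matrix.inv_eq_right_inv hM]
  show (if A.n i = A.n j then (A.B⁻¹) i j else 0) = 0
  rw [if_neg h]

private theorem Dg_mul {A A' A'' : Fr D} {M : Matrix A''.ι A'.ι D.S} {T : Matrix A'.ι A.ι D.S}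
    (h : Dg A' A'' M) (h' : Dg A A' T) : Dg A A'' (M * T) := by
  intro k i
  rw [Matrix.mul_apply]
  refine hs_sum _ _ fun j _ => ?_
  have h1 := hs_mul (h k j) (h' j i)
  rw [show A'.n j - A''.n k + (A.n i - A'.n j) = A.n i - A''.n k by ring] at h1
  exact h1

private theorem Dg_C {A : Fr D} {B : Matrix A.ι A.ι D.L} (h : ∀ i j, A.n i ≠ A.n j → B i j = 0) :
    Dg A A (B.map (C : D.L → D.S)) := by
  intro j i
  rw [Matrix.map_apply]
  by_cases hij : A.n j = A.n i
  · rw [hij, sub_self]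
    exact hs_C _
  · rw [h j i hij]
    show Hs D _ (C 0)
    rw [map_zero]
    exact hs_zero _

private theorem Dg_smul {A A' : Fr D} {T : Matrix A'.ι A.ι D.S} (h : Dg A A' T) (c : D.L) :
    Dg A A' ((C c : D.S) • T) := by
  intro j i
  rw [Matrix.smul_apply, smul_eq_mul]
  have h1 := hs_mul (hs_C c) (h j i)
  rwa [zero_add] at h1

theorem tH_deg {A A' : Fr D} {T : Matrix A'.ι A.ι D.S} (h : Dg A A' T) : Dg A A' (tH A A' T) := by
  have h1 : Dg A A' (T.map D.tauS) := fun j i => hs_tau (h j i)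
  exact Dg_mul (Dg_mul (Dg_C A'.hn) h1) (Dg_C (Binv_zero A))

private theorem Dg_iter {A A' : Fr D} {T : Matrix A'.ι A.ι D.S} (h : Dg A A' T) (k : ℕ) :
    Dg A A' ((tH A A')^[k] T) := by
  induction k with
  | zero => exact h
  | succ k ih =>
    rw [Function.iterate_succ_apply']
    exact tH_deg ih

private theorem mapC_mul {α β γ : Type} [Fintype β] (X : Matrix α β D.L) (Y : Matrix β γ D.L) :
    (X * Y).map (C : D.L → D.S) = X.map (C : D.L → D.S) * Y.map (C : D.L → D.S) :=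
  Matrix.map_mul (f := (C : D.L →+* D.S))

private theorem mapC_one {α : Type} [DecidableEq α] :
    (1 : Matrix α α D.L).map (C : D.L → D.S) = 1 := Matrix.map_one _ (map_zero _) (map_one _)

private theorem mapC_tau {α β : Type} (X : Matrix α β D.L) :
    (X.map (C : D.L → D.S)).map D.tauS = (X.map D.s).map (C : D.L → D.S) :=
  Matrix.ext fun i j => D.tauS_C (X i j)

private theorem mapt_mul {α β γ : Type} [Fintype β] (X : Matrix α β D.S) (Y : Matrix β γ D.S) :
    (X * Y).map D.tauS = X.map D.tauS * Y.map D.tauS := Matrix.map_mul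

private theorem Binv_mul (A : Fr D) : (A.B⁻¹).map (C : D.L → D.S) * A.B.map (C : D.L → D.S) = 1 := by
  rw [← mapC_mul, Matrix.nonsing_inv_mul _ (isUnit_det A), mapC_one]

private theorem mul_Binv (A : Fr D) : A.B.map (C : D.L → D.S) * (A.B⁻¹).map (C : D.L → D.S) = 1 := by
  rw [← mapC_mul, Matrix.mul_nonsing_inv _ (isUnit_det A), mapC_one]

/-- the inverses of the iterates -/
private def Jm (A : Fr D) : ℕ → Matrix A.ι A.ι D.L
  | 0 => 1
  | k + 1 => (Jm A k).map D.s * A.B⁻¹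

private theorem itM_mul_Jm (A : Fr D) (k : ℕ) : MSX.itM D.s.toRingEquiv A.B k * Jm A k = 1 := by
  induction k with
  | zero => exact Matrix.mul_one _
  | succ k ih =>
    show A.B * (MSX.itM D.s.toRingEquiv A.B k).map D.s * ((Jm A k).map D.s * A.B⁻¹) = 1
    have h1 : (MSX.itM D.s.toRingEquiv A.B k).map D.s * (Jm A k).map D.s = 1 := by
      have h2 : (MSX.itM D.s.toRingEquiv A.B k * Jm A k).map D.s =
          (MSX.itM D.s.toRingEquiv A.B k).map D.s * (Jm A k).map D.s := Matrix.map_mul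
      rw [← h2, ih]
      exact Matrix.map_one _ (map_zero _) (map_one _)
    rw [Matrix.mul_assoc, ← Matrix.mul_assoc (Matrix.map _ _), h1, Matrix.one_mul,
      Matrix.mul_nonsing_inv _ (isUnit_det A)]

private theorem tH_iter (A A' : Fr D) (T : Matrix A'.ι A.ι D.S) (k : ℕ) :
    (tH A A')^[k] T = (MSX.itM D.s.toRingEquiv A'.B k).map (C : D.L → D.S) *
      T.map (D.tauS^[k]) * (Jm A k).map (C : D.L → D.S) := by
  induction k with
  | zero =>
    show T = (1 : Matrix A'.ι A'.ι D.L).map (C : D.L → D.S) * T.map id *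
      (1 : Matrix A.ι A.ι D.L).map (C : D.L → D.S)
    rw [mapC_one, mapC_one, Matrix.one_mul, Matrix.mul_one]
    rfl
  | succ k ih =>
    rw [Function.iterate_succ_apply', ih]
    show A'.B.map (C : D.L → D.S) * ((MSX.itM D.s.toRingEquiv A'.B k).map (C : D.L → D.S) *
      T.map (D.tauS^[k]) * (Jm A k).map (C : D.L → D.S)).map D.tauS *
        (A.B⁻¹).map (C : D.L → D.S) = (A'.B * (MSX.itM D.s.toRingEquiv A'.B k).map D.s).map
          (C : D.L → D.S) * T.map (D.tauS^[k + 1]) *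
            ((Jm A k).map D.s * A.B⁻¹).map (C : D.L → D.S)
    have h1 : (T.map (D.tauS^[k])).map D.tauS = T.map (D.tauS^[k + 1]) := by
      refine Matrix.ext fun i j => ?_
      rw [Matrix.map_apply, Matrix.map_apply, Matrix.map_apply, Function.iterate_succ_apply']
    rw [mapt_mul, mapt_mul, mapC_tau, mapC_tau, mapC_mul, mapC_mul, h1]
    simp only [Matrix.mul_assoc]

theorem tH_iter_p {A A' : Fr D} {T : Matrix A'.ι A.ι D.S} (h : Dg A A' T) :
    (tH A A')^[D.p] T = T := by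
  rw [tH_iter, A'.hB]
  have hJ : Jm A D.p = Matrix.diagonal (fun i => (D.X.bL ^ A.n i)⁻¹) := by
    have h1 := itM_mul_Jm A D.p
    rw [A.hB] at h1
    have h2 : Matrix.diagonal (fun i => (D.X.bL ^ A.n i)⁻¹) *
        Matrix.diagonal (fun i => D.X.bL ^ A.n i) = (1 : Matrix A.ι A.ι D.L) := by
      rw [Matrix.diagonal_mul_diagonal, ← Matrix.diagonal_one]
      congr 1
      funext i
      exact inv_mul_cancel₀ (zpow_ne_zero _ D.X.bL_ne)
    calc Jm A D.p = (Matrix.diagonal (fun i => (D.X.bL ^ A.n i)⁻¹) *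
        Matrix.diagonal (fun i => D.X.bL ^ A.n i)) * Jm A D.p := by rw [h2, Matrix.one_mul]
      _ = _ := by rw [Matrix.mul_assoc, h1, Matrix.mul_one]
  rw [hJ, Matrix.diagonal_map (map_zero _), Matrix.diagonal_map (map_zero _)]
  refine Matrix.ext fun j i => ?_
  rw [Matrix.mul_diagonal, Matrix.diagonal_mul, Matrix.map_apply, hs_tau_iter (h j i)]
  have h3 : (C (D.X.bL ^ A'.n j) : D.S) * (C (D.X.bL ^ (A.n i - A'.n j)) * T j i) *
      C ((D.X.bL ^ A.n i)⁻¹) = C (D.X.bL ^ A'.n j * D.X.bL ^ (A.n i - A'.n j) *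
        (D.X.bL ^ A.n i)⁻¹) * T j i := by
    rw [map_mul, map_mul]
    ring
  have h4 : D.X.bL ^ A'.n j * D.X.bL ^ (A.n i - A'.n j) * (D.X.bL ^ A.n i)⁻¹ = 1 := by
    rw [← zpow_add₀ D.X.bL_ne, add_sub_cancel, mul_inv_cancel₀ (zpow_ne_zero _ D.X.bL_ne)]
  rw [h4, map_one, one_mul] at h3
  exact h3

private theorem tH_add (A A' : Fr D) (T T' : Matrix A'.ι A.ι D.S) :
    tH A A' (T + T') = tH A A' T + tH A A' T' := by
  unfold tH
  rw [Matrix.map_add _ (map_add _), Matrix.mul_add, Matrix.add_mul]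

/-- `tH` as an additive homomorphism -/
private def tHa (A A' : Fr D) : Matrix A'.ι A.ι D.S →+ Matrix A'.ι A.ι D.S :=
  AddMonoidHom.mk' (tH A A') (tH_add A A')

private theorem tH_sum (A A' : Fr D) {α : Type*} (s : Finset α) (f : α → Matrix A'.ι A.ι D.S) :
    tH A A' (∑ a ∈ s, f a) = ∑ a ∈ s, tH A A' (f a) := map_sum (tHa A A') f s

private theorem tH_iter_add (A A' : Fr D) (k : ℕ) (T T' : Matrix A'.ι A.ι D.S) :
    (tH A A')^[k] (T + T') = (tH A A')^[k] T + (tH A A')^[k] T' := by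
  induction k with
  | zero => rfl
  | succ k ih =>
    rw [Function.iterate_succ_apply', Function.iterate_succ_apply', Function.iterate_succ_apply',
      ih, tH_add]

private theorem tH_avg {A A' : Fr D} {T : Matrix A'.ι A.ι D.S} (h : Dg A A' T) (c : D.L) :
    tH A A' (avg A A' c T) = avg A A' c T := by
  unfold avg
  rw [tH_sum]
  have h1 := Finset.sum_range_succ' (fun i => (tH A A')^[i] ((C c : D.S) • T)) D.p
  have h2 := Finset.sum_range_succ (fun i => (tH A A')^[i] ((C c : D.S) • T)) D.p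
  rw [h1, tH_iter_p (Dg_smul h c)] at h2
  refine Eq.trans ?_ (add_right_cancel h2)
  refine Finset.sum_congr rfl fun i _ => ?_
  rw [Function.iterate_succ_apply']

theorem avg_hm {A A' : Fr D} {T : Matrix A'.ι A.ι D.S} (h : Dg A A' T) (c : D.L) :
    Hm A A' (avg A A' c T) := by
  constructor
  · intro j i
    unfold avg
    rw [Matrix.sum_apply]
    exact hs_sum _ _ fun k _ => Dg_iter (Dg_smul h c) k j i
  · have h1 := tH_avg h c
    have h2 : tH A A' (avg A A' c T) * A.B.map (C : D.L → D.S) =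
        A'.B.map (C : D.L → D.S) * (avg A A' c T).map D.tauS := by
      unfold tH
      rw [Matrix.mul_assoc, Binv_mul, Matrix.mul_one]
    rw [h1] at h2
    exact h2.symm

private theorem tH_mul_left {A A' A'' : Fr D} {M : Matrix A''.ι A'.ι D.S} (h : Hm A' A'' M)
    (T : Matrix A'.ι A.ι D.S) : tH A A'' (M * T) = M * tH A A' T := by
  have h1 : A''.B.map (C : D.L → D.S) * M.map D.tauS = M * A'.B.map (C : D.L → D.S) := h.tau
  unfold tH
  rw [mapt_mul, ← Matrix.mul_assoc, h1]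
  simp only [Matrix.mul_assoc]

private theorem tH_mul_right {A A' A'' : Fr D} {M : Matrix A'.ι A.ι D.S} (h : Hm A A' M)
    (T : Matrix A''.ι A'.ι D.S) : tH A A'' (T * M) = tH A' A'' T * M := by
  have h1 : A'.B.map (C : D.L → D.S) * M.map D.tauS = M * A.B.map (C : D.L → D.S) := h.tau
  have h2 : M.map D.tauS * (A.B⁻¹).map (C : D.L → D.S) = (A'.B⁻¹).map (C : D.L → D.S) * M := by
    calc M.map D.tauS * (A.B⁻¹).map (C : D.L → D.S) = ((A'.B⁻¹).map (C : D.L → D.S) *
        A'.B.map (C : D.L → D.S)) * M.map D.tauS * (A.B⁻¹).map (C : D.L → D.S) := by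
          rw [Binv_mul, Matrix.one_mul]
      _ = (A'.B⁻¹).map (C : D.L → D.S) * (A'.B.map (C : D.L → D.S) * M.map D.tauS) *
        (A.B⁻¹).map (C : D.L → D.S) := by simp only [Matrix.mul_assoc]
      _ = (A'.B⁻¹).map (C : D.L → D.S) * M * (A.B.map (C : D.L → D.S) *
        (A.B⁻¹).map (C : D.L → D.S)) := by rw [h1]; simp only [Matrix.mul_assoc]
      _ = _ := by rw [mul_Binv, Matrix.mul_one]
  unfold tH
  rw [mapt_mul, Matrix.mul_assoc, Matrix.mul_assoc, h2]
  simp only [Matrix.mul_assoc]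

theorem avg_mul_left {A A' A'' : Fr D} {M : Matrix A''.ι A'.ι D.S} (h : Hm A' A'' M) (c : D.L)
    (T : Matrix A'.ι A.ι D.S) : avg A A'' c (M * T) = M * avg A A' c T := by
  unfold avg
  rw [Matrix.mul_sum]
  refine Finset.sum_congr rfl fun i hi => ?_
  clear hi
  rw [← Matrix.mul_smul]
  induction i with
  | zero => rfl
  | succ i ih =>
    rw [Function.iterate_succ_apply', Function.iterate_succ_apply', ih, tH_mul_left h]

theorem avg_mul_right {A A' A'' : Fr D} {M : Matrix A'.ι A.ι D.S} (h : Hm A A' M) (c : D.L)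
    (T : Matrix A''.ι A'.ι D.S) : avg A A'' c (T * M) = avg A' A'' c T * M := by
  unfold avg
  rw [Matrix.sum_mul]
  refine Finset.sum_congr rfl fun i hi => ?_
  clear hi
  rw [← Matrix.smul_mul]
  induction i with
  | zero => rfl
  | succ i ih =>
    rw [Function.iterate_succ_apply', Function.iterate_succ_apply', ih, tH_mul_right h]

theorem avg_add (A A' : Fr D) (c : D.L) (T T' : Matrix A'.ι A.ι D.S) :
    avg A A' c (T + T') = avg A A' c T + avg A A' c T' := by
  unfold avg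
  rw [← Finset.sum_add_distrib]
  refine Finset.sum_congr rfl fun i _ => ?_
  rw [smul_add, tH_iter_add]

private theorem tH_smul_one (A : Fr D) (d : D.L) :
    tH A A ((C d : D.S) • (1 : Matrix A.ι A.ι D.S)) = (C (D.s d) : D.S) • 1 := by
  have h1 : ((C d : D.S) • (1 : Matrix A.ι A.ι D.S)).map D.tauS = (C (D.s d) : D.S) • 1 := by
    refine Matrix.ext fun i j => ?_
    rw [Matrix.map_apply, Matrix.smul_apply, Matrix.smul_apply, smul_eq_mul, smul_eq_mul, map_mul,
      MSA.Dat.tauS_C]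
    congr 1
    by_cases hij : i = j
    · rw [hij, Matrix.one_apply_eq, map_one]
    · rw [Matrix.one_apply_ne hij, map_zero]
  unfold tH
  rw [h1, Matrix.mul_smul, Matrix.smul_mul, Matrix.mul_one, mul_Binv]

private theorem tH_iter_smul_one (A : Fr D) (d : D.L) (k : ℕ) :
    (tH A A)^[k] ((C d : D.S) • (1 : Matrix A.ι A.ι D.S)) = (C (D.s^[k] d) : D.S) • 1 := by
  induction k with
  | zero => rfl
  | succ k ih => rw [Function.iterate_succ_apply', ih, tH_smul_one, Function.iterate_succ_apply']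

theorem exists_avg_one (D : MSA.Dat.{u}) : ∃ c : D.L, ∀ A : Fr D, avg A A c 1 = 1 := by
  have hs : ∀ x, D.s.toRingEquiv^[D.p] x = x := by
    have h1 : ∀ (k : ℕ) (x : D.L), D.s.toRingEquiv^[k] x = (D.s ^ k) x := by
      intro k x
      induction k with
      | zero => rfl
      | succ k ih =>
        rw [Function.iterate_succ_apply', ih, pow_succ']
        rfl
    intro x
    rw [h1]
    exact D.X.s_pow x
  have hne : D.s.toRingEquiv ≠ RingEquiv.refl D.L := by
    intro h
    apply D.X.s_ne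
    apply AlgEquiv.ext
    intro x
    exact DFunLike.congr_fun h x
  obtain ⟨c, hc⟩ := MSX.tr_one D.s.toRingEquiv D.p D.X.hp.pos hs
    (MSX.of_prime D.s.toRingEquiv D.p D.X.hp hs hne)
  refine ⟨c, fun A => ?_⟩
  unfold avg
  have h2 : ∀ i ∈ Finset.range D.p, (tH A A)^[i] ((C c : D.S) • (1 : Matrix A.ι A.ι D.S)) =
      (C (D.s.toRingEquiv^[i] c) : D.S) • 1 := fun i _ => tH_iter_smul_one A c i
  rw [Finset.sum_congr rfl h2, ← Finset.sum_smul, ← map_sum, hc, map_one, one_smul]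

/-- Surjective homomorphisms split. -/
theorem split {A A' : Fr D} {M : Matrix A'.ι A.ι D.S} (h : Hm A A' M) {T : Matrix A.ι A'.ι D.S}
    (hT : M * T = 1) : ∃ T' : Matrix A.ι A'.ι D.S, Hm A' A T' ∧ M * T' = 1 := by
  obtain ⟨c, hc⟩ := exists_avg_one D
  refine ⟨avg A' A c (deg0 A' A T), avg_hm (deg0_dg A' A T) c, ?_⟩
  rw [← avg_mul_left h, ← deg0_mul_left h.deg, hT, deg0_self (hm_one A').deg, hc]

/-- An exact complex with all basis vectors in one weight has a contraction by homomorphisms. -/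
theorem contr_const {A0 A1 : Fr D} {D0 : Matrix A1.ι A0.ι D.S} {D1 : Matrix A0.ι A1.ι D.S}
    (h0 : Hm A0 A1 D0) (h1 : Hm A1 A0 D1) (h10 : D1 * D0 = 0) (h01 : D0 * D1 = 0) (m : ℤ)
    (hm0 : ∀ i, A0.n i = m) (hm1 : ∀ i, A1.n i = m)
    (e0 : ∀ v, D0 *ᵥ v = 0 → ∃ u, v = D1 *ᵥ u) (e1 : ∀ u, D1 *ᵥ u = 0 → ∃ v, u = D0 *ᵥ v) :
    ∃ s0 s1, Hm A0 A1 s0 ∧ Hm A1 A0 s1 ∧ MSK.IsC D0 D1 s0 s1 := by
  have c0 : ∀ j i, ∃ c : D.L, D0 j i = C c := fun j i => hs_const (by
    have h := h0.deg j i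
    rwa [hm0, hm1, sub_self] at h)
  have c1 : ∀ j i, ∃ c : D.L, D1 j i = C c := fun j i => hs_const (by
    have h := h1.deg j i
    rwa [hm0, hm1, sub_self] at h)
  choose d0 hd0 using c0
  choose d1 hd1 using c1
  have e0' : D0 = (Matrix.of d0).map (C : D.L → D.S) := Matrix.ext fun j i => hd0 j i
  have e1' : D1 = (Matrix.of d1).map (C : D.L → D.S) := Matrix.ext fun j i => hd1 j i
  generalize Matrix.of d0 = E0 at e0'
  generalize Matrix.of d1 = E1 at e1'
  have hCinj : Function.Injective (C : D.L → D.S) := C_injective _ _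
  have hmapinj : ∀ {α β : Type} {X Y : Matrix α β D.L},
      X.map (C : D.L → D.S) = Y.map (C : D.L → D.S) → X = Y := by
    intro α β X Y h
    exact Matrix.ext fun i j => hCinj (congrFun (congrFun h i) j)
  have hz : ∀ {α β : Type}, (0 : Matrix α β D.L).map (C : D.L → D.S) = 0 :=
    Matrix.map_zero _ (map_zero _)
  have z01 : E0 * E1 = 0 := hmapinj (by rw [mapC_mul, ← e0', ← e1', h01, hz])
  have z10 : E1 * E0 = 0 := hmapinj (by rw [mapC_mul, ← e0', ← e1', h10, hz])
  have hvec : ∀ {α β : Type} [Fintype β] (X : Matrix α β D.L) (v : β → D.L),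
      (X.map (C : D.L → D.S)) *ᵥ (fun i => (C (v i) : D.S)) = fun i => C ((X *ᵥ v) i) := by
    intro α β _ X v
    funext i
    rw [Matrix.mulVec, Matrix.mulVec, dotProduct, dotProduct, map_sum]
    refine Finset.sum_congr rfl fun j _ => ?_
    rw [Matrix.map_apply, map_mul]
  have hcc : ∀ {α β : Type} [Fintype β] (X : Matrix α β D.L) (u : β → D.S) (i : α),
      constantCoeff (((X.map (C : D.L → D.S)) *ᵥ u) i) = (X *ᵥ (fun j => constantCoeff (u j))) i := by
    intro α β _ X u i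
    rw [Matrix.mulVec, Matrix.mulVec, dotProduct, dotProduct, map_sum]
    refine Finset.sum_congr rfl fun j _ => ?_
    rw [Matrix.map_apply, map_mul, constantCoeff_C]
  have x0 : ∀ v : A0.ι → D.L, E0 *ᵥ v = 0 ↔ ∃ u : A1.ι → D.L, v = E1 *ᵥ u := by
    intro v
    constructor
    · intro hv
      obtain ⟨u, hu⟩ := e0 (fun i => C (v i)) (by
        rw [e0', hvec, hv]
        funext i
        exact map_zero _)
      refine ⟨fun j => constantCoeff (u j), ?_⟩
      funext i
      rw [← hcc, ← e1', ← hu, constantCoeff_C]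
    · rintro ⟨u, rfl⟩
      rw [Matrix.mulVec_mulVec, z01, Matrix.zero_mulVec]
  have x1 : ∀ u : A1.ι → D.L, E1 *ᵥ u = 0 ↔ ∃ v : A0.ι → D.L, u = E0 *ᵥ v := by
    intro v
    constructor
    · intro hv
      obtain ⟨u, hu⟩ := e1 (fun i => C (v i)) (by
        rw [e1', hvec, hv]
        funext i
        exact map_zero _)
      refine ⟨fun j => constantCoeff (u j), ?_⟩
      funext i
      rw [← hcc, ← e0', ← hu, constantCoeff_C]
    · rintro ⟨u, rfl⟩
      rw [Matrix.mulVec_mulVec, z10, Matrix.zero_mulVec]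
  obtain ⟨s0, s1, hC⟩ := MSK.exists_IsC E0 E1 x0 x1
  obtain ⟨c, hc⟩ := exists_avg_one D
  have g0 : Dg A0 A1 (s0.map (C : D.L → D.S)) := fun j i => by
    rw [hm0, hm1, sub_self, Matrix.map_apply]
    exact hs_C _
  have g1 : Dg A1 A0 (s1.map (C : D.L → D.S)) := fun j i => by
    rw [hm0, hm1, sub_self, Matrix.map_apply]
    exact hs_C _
  have u0 := avg_hm g0 c
  have u1 := avg_hm g1 c
  have k0 : D1 * avg A0 A1 c (s0.map (C : D.L → D.S)) +
      avg A1 A0 c (s1.map (C : D.L → D.S)) * D0 = 1 := by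
    rw [← avg_mul_left h1, ← avg_mul_right h0, ← avg_add, e0', e1', ← mapC_mul, ← mapC_mul,
      ← Matrix.map_add _ (map_add _), hC.h0, mapC_one, hc]
  have k1 : D0 * avg A1 A0 c (s1.map (C : D.L → D.S)) +
      avg A0 A1 c (s0.map (C : D.L → D.S)) * D1 = 1 := by
    rw [← avg_mul_left h0, ← avg_mul_right h1, ← avg_add, e0', e1', ← mapC_mul, ← mapC_mul,
      ← Matrix.map_add _ (map_add _), hC.h1, mapC_one, hc]
  exact ⟨_, _, (u0.mul h1).mul u0, (u1.mul h0).mul u1, MSK.IsC.weak h01 h10 k0 k1⟩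

end MSV
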