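import Mathlib
import Pool.Agent.MSV.Fr
import Pool.Agent.MSA.Rdf

/-!
# CONV: coordinates of a graded module with respect to a frame; matrices of linear maps

`Cor A X`: an additive isomorphism `X → S^ι` compatible with `S`, `τ` (acting on `S^ι` by `v ↦ B * tauS(v)`) and the `θ_a`.

PROOFS.
* `cor_of_Fbs`: `ι = Fin r`, `n = h.n`, `B j i = h.c i j`; `e x` = the function `f` with `x = ∑ f_i w_i` (unique by `h.ind`, exists by `h.span`). `hn`: `h.hc`.
  `hB`: by induction on `k`: the coordinates of `gam tau ^ k • w_i` are `C ((itM s B k) j i)` (`itM (k+1) = B * (itM k).map s`, `tauS (C l) = C (s l)`);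
  for `k = p` use `h.taup`. `ta`: `τ (∑ f_i w_i) = ∑_i tauS(f_i) ∑_j c_ij w_j` (`gam_mul_iot`; `D.ph Gn.tau = D.tauS`). `th`: `h.hw`
  (`gam (th a) • w_i = a^(n_i) w_i`; `HasTh.th a = Gn.th a` by definition).
* `mat_apply`: `x = ∑ (e x)_i (e.symm (single i 1))` (`sm`), both sides are additive and `S`-linear.
* `mat_hm`: `tau`: apply `mat_apply` to `τ x`: `B' τ(T) τ(e x) = T B τ(e x)` for `x` = basis vector (`tauS 1 = 1`). `deg`: by `hs_th`: from
  `f (θ_a w_i) = θ_a f(w_i)`: `a^(n_i) T_ji = a^(n'_j) θ_a(T_ji)`.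
* `mat_comp`, `mat_id`, `mat_zero`, `mat_add`: extensionality of matrices (`Matrix.mulVec_injective`, `mat_apply`).
* `exists_lin`: `f = e'.symm ∘ (T *ᵥ ·) ∘ e` is additive and commutes with `iot`, `gam` (`mkLin`).
-/

set_option autoImplicit false
set_option linter.unusedSectionVars false

noncomputable section

namespace MSV

open MvPolynomial Pool.Agent Matrix MSA

universe u

variable {D : MSA.Dat.{u}}

/-- coordinates -/
structure Cor (A : Fr D) (X : Type u) [AddCommGroup X] [Module D.R X] where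
  e : X ≃+ (A.ι → D.S)
  sm : ∀ (f : D.S) (x : X) (i : A.ι), e (iot D.ph f • x) i = f * e x i
  ta : ∀ (x : X) (j : A.ι), e (gam D.ph Gn.tau • x) j = ∑ i, C (A.B j i) * D.tauS (e x i)
  th : ∀ (a : D.Fˣ) (x : X) (j : A.ι), e (gam D.ph (Gn.th a) • x) j =
    C (algebraMap D.F D.L ((a ^ A.n j : D.Fˣ) : D.F)) * D.thS a (e x j)

section

variable {X X' X'' : Type u} [AddCommGroup X] [Module D.R X] [AddCommGroup X'] [Module D.R X']
  [AddCommGroup X''] [Module D.R X''] {A A' A'' : Fr D}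

private def fE {r : ℕ} (h : Fbs D X (Fin r)) : (Fin r → D.S) →+ X where
  toFun f := ∑ i, iot D.ph (f i) • h.w i
  map_zero' := by
    refine Finset.sum_eq_zero fun i _ => ?_
    rw [Pi.zero_apply, map_zero, zero_smul]
  map_add' f g := by
    rw [← Finset.sum_add_distrib]
    refine Finset.sum_congr rfl fun i _ => ?_
    rw [Pi.add_apply, map_add, add_smul]

private theorem fE_apply {r : ℕ} (h : Fbs D X (Fin r)) (f : Fin r → D.S) :
    fE h f = ∑ i, iot D.ph (f i) • h.w i := rfl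

private theorem fE_finsupp {r : ℕ} (h : Fbs D X (Fin r)) (f : Fin r →₀ D.S) :
    f.sum (fun i s => iot D.ph s • h.w i) = fE h f := by
  rw [Finsupp.sum_fintype]
  · rfl
  · intro i
    rw [map_zero, zero_smul]

private theorem fE_inj {r : ℕ} (h : Fbs D X (Fin r)) : Function.Injective (fE h) := by
  rw [injective_iff_map_eq_zero]
  intro f hf
  have h1 := h.ind (Finsupp.equivFunOnFinite.symm f) (by
    rw [fE_finsupp]
    exact hf)
  have h2 := congrArg Finsupp.equivFunOnFinite h1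
  rw [Equiv.apply_symm_apply] at h2
  rw [h2]
  rfl

private theorem fE_surj {r : ℕ} (h : Fbs D X (Fin r)) : Function.Surjective (fE h) := by
  intro x
  obtain ⟨f, hf⟩ := h.span x
  exact ⟨f, by rw [← fE_finsupp, hf]⟩

private theorem fE_iot {r : ℕ} (h : Fbs D X (Fin r)) (s : D.S) (v : Fin r → D.S) :
    iot D.ph s • fE h v = fE h (fun i => s * v i) := by
  rw [fE_apply, fE_apply, Finset.smul_sum]
  refine Finset.sum_congr rfl fun i _ => ?_
  rw [map_mul, mul_smul]

private theorem fE_tau {r : ℕ} (h : Fbs D X (Fin r)) (v : Fin r → D.S) :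
    gam D.ph Gn.tau • fE h v = fE h (fun j => ∑ i, C (h.c i j) * D.tauS (v i)) := by
  rw [fE_apply, fE_apply, Finset.smul_sum]
  have h1 : ∀ i, gam D.ph Gn.tau • iot D.ph (v i) • h.w i =
      ∑ j, iot D.ph (C (h.c i j) * D.tauS (v i)) • h.w j := by
    intro i
    rw [← mul_smul, gam_mul_iot, mul_smul, h.tau, Finsupp.sum_fintype]
    · rw [Finset.smul_sum]
      refine Finset.sum_congr rfl fun j _ => ?_
      rw [← mul_smul, ← map_mul]
      congr 2
      exact mul_comm _ _
    · intro j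
      rw [map_zero, map_zero, zero_smul]
  rw [Finset.sum_congr rfl fun i _ => h1 i, Finset.sum_comm]
  refine Finset.sum_congr rfl fun j _ => ?_
  rw [map_sum, Finset.sum_smul]

private theorem fE_th {r : ℕ} (h : Fbs D X (Fin r)) (a : D.Fˣ) (v : Fin r → D.S) :
    gam D.ph (Gn.th a) • fE h v = fE h (fun j =>
      C (algebraMap D.F D.L ((a ^ h.n j : D.Fˣ) : D.F)) * D.thS a (v j)) := by
  rw [fE_apply, fE_apply, Finset.smul_sum]
  refine Finset.sum_congr rfl fun i _ => ?_
  have h2 : gam D.ph (Gn.th a) • h.w i =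
      iot D.ph (C (algebraMap D.F D.L ((a ^ h.n i : D.Fˣ) : D.F))) • h.w i := h.hw i a
  rw [← mul_smul, gam_mul_iot, mul_smul, h2, ← mul_smul, ← map_mul]
  congr 2
  exact mul_comm _ _

private theorem fE_single {r : ℕ} (h : Fbs D X (Fin r)) (i : Fin r) (s : D.S) :
    fE h (Pi.single i s) = iot D.ph s • h.w i := by
  rw [fE_apply, Finset.sum_eq_single i]
  · rw [Pi.single_eq_same]
  · intro j _ hj
    rw [Pi.single_eq_of_ne hj, map_zero, zero_smul]
  · intro hi
    exact absurd (Finset.mem_univ i) hi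

private def fB {r : ℕ} (h : Fbs D X (Fin r)) : Matrix (Fin r) (Fin r) D.L := fun j i => h.c i j

private theorem fE_pow {r : ℕ} (h : Fbs D X (Fin r)) (k : ℕ) (i : Fin r) :
    (gam D.ph Gn.tau) ^ k • h.w i =
      fE h (fun j => C (MSX.itM D.s.toRingEquiv (fB h) k j i)) := by
  induction k with
  | zero =>
    rw [pow_zero, one_smul]
    have h1 : (fun j => C (MSX.itM D.s.toRingEquiv (fB h) 0 j i)) =
        (Pi.single i 1 : Fin r → D.S) := by
      funext j
      show C ((1 : Matrix (Fin r) (Fin r) D.L) j i) = _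
      by_cases hj : j = i
      · subst hj
        rw [Matrix.one_apply_eq, Pi.single_eq_same, map_one]
      · rw [Matrix.one_apply_ne hj, Pi.single_eq_of_ne hj, map_zero]
    rw [h1, fE_single, map_one, one_smul]
  | succ k ih =>
    rw [pow_succ', mul_smul, ih, fE_tau]
    congr 1
    funext j
    show _ = C ((fB h * (MSX.itM D.s.toRingEquiv (fB h) k).map D.s.toRingEquiv) j i)
    rw [Matrix.mul_apply, map_sum]
    refine Finset.sum_congr rfl fun l _ => ?_
    rw [D.tauS_C, map_mul]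
    rfl

private def fFr {r : ℕ} (h : Fbs D X (Fin r)) : Fr D where
  ι := Fin r
  n := h.n
  B := fB h
  hn := by
    intro i j hij
    by_contra h1
    exact hij (h.hc j i h1)
  hB := by
    ext j i
    have h1 := fE_pow h D.p i
    have h2 : (gam D.ph Gn.tau) ^ D.p • h.w i =
        fE h (Pi.single i (C (D.X.bL ^ h.n i))) := by
      rw [h.taup i, fE_single]
      congr 2
      show C (algebraMap D.F D.L (D.b ^ h.n i)) = C (D.X.bL ^ h.n i)
      rw [map_zpow₀]
      rfl
    rw [h2] at h1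
    have h3 := congrFun (fE_inj h h1) j
    by_cases hj : j = i
    · subst hj
      rw [Pi.single_eq_same] at h3
      rw [Matrix.diagonal_apply_eq]
      exact (C_injective _ _ h3).symm
    · rw [Pi.single_eq_of_ne hj, ← map_zero C] at h3
      rw [Matrix.diagonal_apply_ne _ hj]
      exact (C_injective _ _ h3).symm

private def fe {r : ℕ} (h : Fbs D X (Fin r)) : X ≃+ (Fin r → D.S) :=
  (AddEquiv.ofBijective (fE h) ⟨fE_inj h, fE_surj h⟩).symm

private theorem fe_eq {r : ℕ} (h : Fbs D X (Fin r)) {x : X} {v : Fin r → D.S}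
    (hx : x = fE h v) : fe h x = v := by
  rw [hx]
  exact AddEquiv.symm_apply_apply (AddEquiv.ofBijective (fE h) ⟨fE_inj h, fE_surj h⟩) v

private theorem fE_fe {r : ℕ} (h : Fbs D X (Fin r)) (x : X) : fE h (fe h x) = x :=
  AddEquiv.apply_symm_apply (AddEquiv.ofBijective (fE h) ⟨fE_inj h, fE_surj h⟩) x

private def fCor {r : ℕ} (h : Fbs D X (Fin r)) : Cor (fFr h) X where
  e := fe h
  sm f x i := by
    have h1 : fe h (iot D.ph f • x) = fun i => f * fe h x i := fe_eq h (by
      rw [← fE_iot, fE_fe])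
    exact congrFun h1 i
  ta x j := by
    have h1 : fe h (gam D.ph Gn.tau • x) = fun j => ∑ i, C (h.c i j) * D.tauS (fe h x i) :=
      fe_eq h (by rw [← fE_tau, fE_fe])
    exact congrFun h1 j
  th a x j := by
    have h1 : fe h (gam D.ph (Gn.th a) • x) = fun j =>
        C (algebraMap D.F D.L ((a ^ h.n j : D.Fˣ) : D.F)) * D.thS a (fe h x j) :=
      fe_eq h (by rw [← fE_th, fE_fe])
    exact congrFun h1 j

theorem cor_of_Fbs {r : ℕ} (h : Fbs D X (Fin r)) : ∃ A : Fr D, ∃ e : A.ι ≃ Fin r,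
    (∀ i, A.n i = h.n (e i)) ∧ Nonempty (Cor A X) := by
  exact ⟨fFr h, Equiv.refl _, fun _ => rfl, ⟨fCor h⟩⟩

/-- the matrix of a linear map -/
def Cor.mat (c : Cor A X) (c' : Cor A' X') (f : X →ₗ[D.R] X') : Matrix A'.ι A.ι D.S :=
  fun j i => c'.e (f (c.e.symm (Pi.single i 1))) j

private theorem Cor.expand (c : Cor A X) (x : X) :
    x = ∑ i, iot D.ph (c.e x i) • c.e.symm (Pi.single i 1) := by
  apply c.e.injective
  funext j
  rw [map_sum, Finset.sum_apply, Finset.sum_eq_single j]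
  · rw [c.sm, AddEquiv.apply_symm_apply, Pi.single_eq_same, mul_one]
  · intro i _ hi
    rw [c.sm, AddEquiv.apply_symm_apply, Pi.single_eq_of_ne (Ne.symm hi), mul_zero]
  · intro hj
    exact absurd (Finset.mem_univ j) hj

theorem Cor.mat_apply (c : Cor A X) (c' : Cor A' X') (f : X →ₗ[D.R] X') (x : X) :
    c'.e (f x) = c.mat c' f *ᵥ c.e x := by
  conv_lhs => rw [c.expand x]
  funext j
  rw [map_sum, map_sum, Finset.sum_apply]
  show _ = ∑ i, c.mat c' f j i * c.e x i
  refine Finset.sum_congr rfl fun i _ => ?_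
  rw [map_smul, c'.sm, mul_comm]
  rfl

private theorem Cor.th_basis (c : Cor A X) (a : D.Fˣ) (i : A.ι) :
    gam D.ph (Gn.th a) • c.e.symm (Pi.single i 1) =
      iot D.ph (C (algebraMap D.F D.L ((a ^ A.n i : D.Fˣ) : D.F))) •
        c.e.symm (Pi.single i 1) := by
  apply c.e.injective
  funext j
  rw [c.th, c.sm, AddEquiv.apply_symm_apply]
  by_cases hj : j = i
  · subst hj
    rw [Pi.single_eq_same, map_one]
  · rw [Pi.single_eq_of_ne hj, map_zero, mul_zero, mul_zero]

private theorem Cor.ta_basis (c : Cor A X) (i : A.ι) (j : A.ι) :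
    c.e (gam D.ph Gn.tau • c.e.symm (Pi.single i 1)) j = C (A.B j i) := by
  rw [c.ta, AddEquiv.apply_symm_apply, Finset.sum_eq_single i]
  · rw [Pi.single_eq_same, map_one, mul_one]
  · intro l _ hl
    rw [Pi.single_eq_of_ne hl, map_zero, mul_zero]
  · intro hi
    exact absurd (Finset.mem_univ i) hi

private theorem zC (a : D.Fˣ) (m n : ℤ) :
    (C (algebraMap D.F D.L ((a ^ m : D.Fˣ) : D.F)) : D.S) *
      C (algebraMap D.F D.L ((a ^ (n - m) : D.Fˣ) : D.F)) =
      C (algebraMap D.F D.L ((a ^ n : D.Fˣ) : D.F)) := by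
  rw [← map_mul, ← map_mul, ← Units.val_mul, ← _root_.zpow_add]
  congr 4
  ring

theorem Cor.mat_hm (c : Cor A X) (c' : Cor A' X') (f : X →ₗ[D.R] X') : Hm A A' (c.mat c' f) := by
  constructor
  · intro j i
    rw [hs_th]
    intro a
    have h1 : c'.e (f (gam D.ph (Gn.th a) • c.e.symm (Pi.single i 1))) j =
        C (algebraMap D.F D.L ((a ^ A.n i : D.Fˣ) : D.F)) * c.mat c' f j i := by
      rw [c.th_basis, map_smul, c'.sm]
      rfl
    have h2 : c'.e (f (gam D.ph (Gn.th a) • c.e.symm (Pi.single i 1))) j =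
        C (algebraMap D.F D.L ((a ^ A'.n j : D.Fˣ) : D.F)) * D.thS a (c.mat c' f j i) := by
      rw [map_smul, c'.th]
      rfl
    rw [h1] at h2
    have h3 : (C (algebraMap D.F D.L ((a ^ A'.n j : D.Fˣ) : D.F)) : D.S) ≠ 0 := by
      rw [Ne, ← map_zero C, (C_injective (Fin D.p) D.L).eq_iff]
      exact (map_ne_zero _).2 (Units.ne_zero _)
    apply mul_left_cancel₀ h3
    rw [← h2, ← mul_assoc, zC]
  · ext1 k i
    rw [Matrix.mul_apply, Matrix.mul_apply]
    have h1 : c'.e (f (gam D.ph Gn.tau • c.e.symm (Pi.single i 1))) k =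
        ∑ j, c.mat c' f k j * C (A.B j i) := by
      rw [c.mat_apply c' f]
      show ∑ j, c.mat c' f k j * c.e (gam D.ph Gn.tau • c.e.symm (Pi.single i 1)) j = _
      exact Finset.sum_congr rfl fun j _ => by rw [c.ta_basis]
    have h2 : c'.e (f (gam D.ph Gn.tau • c.e.symm (Pi.single i 1))) k =
        ∑ j, C (A'.B k j) * D.tauS (c.mat c' f j i) := by
      rw [map_smul, c'.ta]
      rfl
    rw [h1] at h2
    exact h2.symm

theorem Cor.mat_comp (c : Cor A X) (c' : Cor A' X') (c'' : Cor A'' X'') (f : X →ₗ[D.R] X')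
    (g : X' →ₗ[D.R] X'') : c.mat c'' (g ∘ₗ f) = c'.mat c'' g * c.mat c' f := by
  ext1 k i
  have h := congrFun (c'.mat_apply c'' g (f (c.e.symm (Pi.single i 1)))) k
  exact h

theorem Cor.mat_id (c : Cor A X) : c.mat c (LinearMap.id : X →ₗ[D.R] X) = 1 := by
  ext1 j i
  show c.e (c.e.symm (Pi.single i 1)) j = _
  rw [AddEquiv.apply_symm_apply]
  by_cases hj : j = i
  · subst hj
    rw [Pi.single_eq_same, Matrix.one_apply_eq]
  · rw [Pi.single_eq_of_ne hj, Matrix.one_apply_ne hj]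

theorem Cor.mat_zero (c : Cor A X) (c' : Cor A' X') : c.mat c' (0 : X →ₗ[D.R] X') = 0 := by
  ext1 j i
  show c'.e 0 j = 0
  rw [map_zero]
  rfl

theorem Cor.mat_add (c : Cor A X) (c' : Cor A' X') (f g : X →ₗ[D.R] X') :
    c.mat c' (f + g) = c.mat c' f + c.mat c' g := by
  ext1 j i
  show c'.e (f _ + g _) j = c'.e (f _) j + c'.e (g _) j
  rw [map_add]
  rfl

theorem Cor.exists_lin (c : Cor A X) (c' : Cor A' X') {T : Matrix A'.ι A.ι D.S} (h : Hm A A' T) :
    ∃ f : X →ₗ[D.R] X', c.mat c' f = T := by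
  have hiot : ∀ (s : D.S) (x : X), c'.e.symm (T *ᵥ c.e (iot D.ph s • x)) =
      iot D.ph s • c'.e.symm (T *ᵥ c.e x) := by
    intro s x
    apply c'.e.injective
    funext j
    rw [c'.sm, AddEquiv.apply_symm_apply, AddEquiv.apply_symm_apply]
    show ∑ i, T j i * c.e (iot D.ph s • x) i = s * ∑ i, T j i * c.e x i
    rw [Finset.mul_sum]
    refine Finset.sum_congr rfl fun i _ => ?_
    rw [c.sm]
    ring
  have htau : ∀ x : X, c'.e.symm (T *ᵥ c.e (gam D.ph Gn.tau • x)) =
      gam D.ph Gn.tau • c'.e.symm (T *ᵥ c.e x) := by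
    intro x
    apply c'.e.injective
    funext k
    rw [c'.ta, AddEquiv.apply_symm_apply, AddEquiv.apply_symm_apply]
    have h1 : c.e (gam D.ph Gn.tau • x) =
        A.B.map (C : D.L →+* D.S) *ᵥ (fun i => D.tauS (c.e x i)) := by
      funext j
      exact c.ta x j
    have h2 : (fun j => D.tauS ((T *ᵥ c.e x) j)) =
        T.map D.tauS *ᵥ (fun i => D.tauS (c.e x i)) := by
      funext j
      show D.tauS (∑ i, T j i * c.e x i) = ∑ i, D.tauS (T j i) * D.tauS (c.e x i)
      rw [map_sum]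
      exact Finset.sum_congr rfl fun i _ => map_mul _ _ _
    have h3 : ∑ i, C (A'.B k i) * D.tauS ((T *ᵥ c.e x) i) =
        (A'.B.map (C : D.L →+* D.S) *ᵥ (fun j => D.tauS ((T *ᵥ c.e x) j))) k := rfl
    rw [h3, h2, h1, Matrix.mulVec_mulVec, Matrix.mulVec_mulVec, h.tau]
  have hth : ∀ (a : D.Fˣ) (x : X), c'.e.symm (T *ᵥ c.e (gam D.ph (Gn.th a) • x)) =
      gam D.ph (Gn.th a) • c'.e.symm (T *ᵥ c.e x) := by
    intro a x
    apply c'.e.injective
    funext j
    rw [c'.th, AddEquiv.apply_symm_apply, AddEquiv.apply_symm_apply]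
    show ∑ i, T j i * c.e (gam D.ph (Gn.th a) • x) i = _ * D.thS a (∑ i, T j i * c.e x i)
    rw [map_sum, Finset.mul_sum]
    refine Finset.sum_congr rfl fun i _ => ?_
    rw [c.th, map_mul, (hs_th _ _).1 (h.deg j i) a, ← zC a (A'.n j) (A.n i)]
    ring
  refine ⟨mkLin (AddMonoidHom.mk' (fun x => c'.e.symm (T *ᵥ c.e x)) (fun x y => by
    rw [map_add, Matrix.mulVec_add, map_add])) hiot ?_, ?_⟩
  · rintro (_ | a) x
    · exact htau x
    · exact hth a x
  · ext1 j i
    show c'.e (c'.e.symm (T *ᵥ c.e (c.e.symm (Pi.single i 1)))) j = T j i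
    rw [AddEquiv.apply_symm_apply, AddEquiv.apply_symm_apply, Matrix.mulVec_single_one]
    rfl

end

end MSV
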