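import Mathlib
import Pool.Agent.MSV.Fr
import Pool.Agent.MSX.Fam
import Pool.Agent.MSK.Ctr

/-!
# CONV: exactness at the points of codimension one, contractions over `k_P[[t]]` and over the fraction field

`Exq P D0 D1`: for `x` with `D0 x = 0` there is `s ∉ P.I` with `s x ∈ range D1` (everything over `S`).

PROOFS.
* `loc_pid`: `R = Localization.AtPrime P.I` is a principal ideal domain. Every nonzero `f ∈ S` is `gen^n * a`, `gen ∤ a`
  (`WfDvdMonoid.max_power_factor`), `a` becomes a unit of `R`; so every nonzero element of `R` is `gen^n * unit`, and `gen` is irreducible in `R`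
  (`IsDiscreteValuationRing.HasUnitMulPowIrreducibleFactorization`, `.ofHasUnitMulPowIrreducibleFactorization`; or directly: every ideal is generated by `gen^n`, `n` minimal).
* `exists_psi`: over `R`: if `D0 v = 0`, `v = x / s` (common denominator, `IsLocalization.exist_integer_multiples_of_finset`), then `D0 x = 0` in `S` (`S → R` injective), so `s' x = D1 y`, `v = D1 (y / (s s'))`.
  `MSK.exists_IsC` over `R`, then `MSK.IsC.map` with `IsLocalization.lift` of `psi P` (elements outside `P.I` go to units: `MSX.psi_unit`, `HP.mem_iff`).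
* `exists_Q`: a point `P` exists (`MSX.ofIrr` with the variable `X 0`); the same proof over `Q`: `D0 v = 0`, `v = x / s`; or map the contraction over `R` to `Q`
  (`IsLocalization.lift` for the injective map `S → Q`). `MSK.exists_IsC` is not needed then.
-/

set_option autoImplicit false
set_option linter.unusedSectionVars false

noncomputable section

namespace MSV

open MvPolynomial Pool.Agent Matrix

universe u

variable {D : MSA.Dat.{u}}

/-- exactness at `P` -/
def Exq (P : MSX.HP D.p D.L) {ι κ : Type} [Fintype ι] [Fintype κ] (D0 : Matrix κ ι D.S)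
    (D1 : Matrix ι κ D.S) : Prop :=
  ∀ v : ι → D.S, D0 *ᵥ v = 0 → ∃ s : D.S, s ∉ P.I ∧ ∃ u : κ → D.S, s • v = D1 *ᵥ u

theorem loc_pid (P : MSX.HP D.p D.L) : IsPrincipalIdealRing (Localization.AtPrime P.I) := by
  have hN : IsNoetherianRing D.S := MvPolynomial.isNoetherianRing
  have hN' : IsNoetherianRing (Localization.AtPrime P.I) :=
    IsLocalization.isNoetherianRing P.I.primeCompl _ hN
  have hD : IsDomain (Localization.AtPrime P.I) :=
    IsLocalization.isDomain_localization P.I.primeCompl_le_nonZeroDivisors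
  have hm : (IsLocalRing.maximalIdeal (Localization.AtPrime P.I)).IsPrincipal := by
    rw [← Localization.AtPrime.map_eq_maximalIdeal]
    have h1 : Ideal.map (algebraMap (MSX.S D.p D.L) (Localization.AtPrime P.I)) P.I =
        Ideal.span {algebraMap (MSX.S D.p D.L) (Localization.AtPrime P.I) P.gen} := by
      have h2 : Ideal.map (algebraMap (MSX.S D.p D.L) (Localization.AtPrime P.I)) P.I =
          Ideal.map (algebraMap (MSX.S D.p D.L) (Localization.AtPrime P.I))
            (Ideal.span {P.gen}) := congrArg _ P.I_eq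
      rw [h2, Ideal.map_span, Set.image_singleton]
    rw [h1]
    exact ⟨⟨_, rfl⟩⟩
  exact ((tfae_of_isNoetherianRing_of_isLocalRing_of_isDomain
    (Localization.AtPrime P.I)).out 4 0).1 hm

private theorem ex_map {A B : Type*} [CommRing A] [CommRing B] (f : A →+* B) {ι κ : Type*}
    [Fintype ι] [Fintype κ] (M : Matrix κ ι A) (v : ι → A) :
    (fun i => f ((M *ᵥ v) i)) = (M.map f) *ᵥ (fun i => f (v i)) := by
  funext i
  exact RingHom.map_mulVec f M v i

private theorem ex_one (P : MSX.HP D.p D.L) {ι κ : Type} [Fintype ι] [DecidableEq ι] [Fintype κ]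
    [DecidableEq κ] {D0 : Matrix κ ι D.S} {D1 : Matrix ι κ D.S}
    (h01 : D0 * D1 = 0) (e0 : Exq P D0 D1) (v : ι → Localization.AtPrime P.I) :
    D0.map (algebraMap D.S (Localization.AtPrime P.I)) *ᵥ v = 0 ↔
      ∃ u : κ → Localization.AtPrime P.I,
        v = D1.map (algebraMap D.S (Localization.AtPrime P.I)) *ᵥ u := by
  have hinj : Function.Injective (algebraMap D.S (Localization.AtPrime P.I)) :=
    IsLocalization.injective _ P.I.primeCompl_le_nonZeroDivisors
  constructor
  · intro hv
    obtain ⟨b, hb⟩ := IsLocalization.exist_integer_multiples_of_finite P.I.primeCompl v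
    choose x hx using hb
    have hx' : (fun i => algebraMap D.S (Localization.AtPrime P.I) (x i)) =
        (algebraMap D.S (Localization.AtPrime P.I) (b : D.S)) • v := by
      funext i
      rw [Pi.smul_apply, smul_eq_mul]
      refine (hx i).trans ?_
      rw [Algebra.smul_def]
    have h1 : D0 *ᵥ x = 0 := by
      have h2 := ex_map (algebraMap D.S (Localization.AtPrime P.I)) D0 x
      rw [hx', Matrix.mulVec_smul, hv, smul_zero] at h2
      funext k
      apply hinj
      rw [Pi.zero_apply, map_zero]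
      exact congrFun h2 k
    obtain ⟨s, hs, u, hu⟩ := e0 x h1
    have h3 := ex_map (algebraMap D.S (Localization.AtPrime P.I)) D1 u
    rw [← hu] at h3
    have h4 : (fun i => algebraMap D.S (Localization.AtPrime P.I) ((s • x) i)) =
        (algebraMap D.S (Localization.AtPrime P.I) s *
          algebraMap D.S (Localization.AtPrime P.I) (b : D.S)) • v := by
      rw [mul_smul, ← hx']
      funext i
      rw [Pi.smul_apply, Pi.smul_apply, smul_eq_mul, smul_eq_mul, map_mul]
    have hu1 : IsUnit (algebraMap D.S (Localization.AtPrime P.I) s *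
        algebraMap D.S (Localization.AtPrime P.I) (b : D.S)) :=
      (IsLocalization.map_units (Localization.AtPrime P.I)
        (⟨s, hs⟩ : P.I.primeCompl)).mul (IsLocalization.map_units _ b)
    obtain ⟨w, hw⟩ := hu1.exists_left_inv
    refine ⟨w • (fun i => algebraMap D.S (Localization.AtPrime P.I) (u i)), ?_⟩
    rw [Matrix.mulVec_smul, ← h3, h4, ← mul_smul, hw, one_smul]
  · rintro ⟨u, rfl⟩
    rw [Matrix.mulVec_mulVec, ← Matrix.map_mul, h01, Matrix.map_zero _ (map_zero _),
      Matrix.zero_mulVec]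

/-- a contraction over the local ring at `P` -/
theorem exists_loc (P : MSX.HP D.p D.L) {ι κ : Type} [Fintype ι] [DecidableEq ι] [Fintype κ]
    [DecidableEq κ] {D0 : Matrix κ ι D.S} {D1 : Matrix ι κ D.S} (h10 : D1 * D0 = 0)
    (h01 : D0 * D1 = 0) (e0 : Exq P D0 D1) (e1 : Exq P D1 D0) :
    ∃ (t0 : Matrix κ ι (Localization.AtPrime P.I)) (t1 : Matrix ι κ (Localization.AtPrime P.I)),
      MSK.IsC (D0.map (algebraMap D.S (Localization.AtPrime P.I)))
        (D1.map (algebraMap D.S (Localization.AtPrime P.I))) t0 t1 := by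
  have hD : IsDomain (Localization.AtPrime P.I) :=
    IsLocalization.isDomain_localization P.I.primeCompl_le_nonZeroDivisors
  have hP : IsPrincipalIdealRing (Localization.AtPrime P.I) := loc_pid P
  exact MSK.exists_IsC _ _ (ex_one P h01 e0) (ex_one P h10 e1)

private theorem ex_lift (P : MSX.HP D.p D.L) {B : Type*} [CommRing B] (f : D.S →+* B)
    (hf : ∀ s : D.S, s ∉ P.I → IsUnit (f s))
    {ι κ : Type} [Fintype ι] [DecidableEq ι] [Fintype κ]
    [DecidableEq κ] {D0 : Matrix κ ι D.S} {D1 : Matrix ι κ D.S} (h10 : D1 * D0 = 0)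
    (h01 : D0 * D1 = 0) (e0 : Exq P D0 D1) (e1 : Exq P D1 D0) :
    ∃ (t0 : Matrix κ ι B) (t1 : Matrix ι κ B), MSK.IsC (D0.map f) (D1.map f) t0 t1 := by
  obtain ⟨t0, t1, h⟩ := exists_loc P h10 h01 e0 e1
  let g : Localization.AtPrime P.I →+* B :=
    IsLocalization.lift (M := P.I.primeCompl) (g := f) (fun y => hf y y.2)
  have hg : ∀ s : D.S, g (algebraMap D.S (Localization.AtPrime P.I) s) = f s := fun s =>
    IsLocalization.lift_eq _ s
  have h2 := h.map g
  have e : ∀ {α β : Type} (M : Matrix α β D.S),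
      (M.map (algebraMap D.S (Localization.AtPrime P.I))).map g = M.map f := by
    intro α β M
    ext i j
    rw [Matrix.map_apply, Matrix.map_apply, Matrix.map_apply, hg]
  rw [e, e] at h2
  exact ⟨_, _, h2⟩

theorem exists_psi (P : MSX.HP D.p D.L) {ι κ : Type} [Fintype ι] [DecidableEq ι] [Fintype κ]
    [DecidableEq κ] {D0 : Matrix κ ι D.S} {D1 : Matrix ι κ D.S} (h10 : D1 * D0 = 0)
    (h01 : D0 * D1 = 0) (e0 : Exq P D0 D1) (e1 : Exq P D1 D0) :
    ∃ (t0 : Matrix κ ι (PowerSeries (MSX.kP P))) (t1 : Matrix ι κ (PowerSeries (MSX.kP P))),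
      MSK.IsC (D0.map (MSX.psi P)) (D1.map (MSX.psi P)) t0 t1 :=
  ex_lift P (MSX.psi P) (fun s hs => MSX.psi_unit P s fun h => hs ((P.mem_iff s).2 h))
    h10 h01 e0 e1

theorem exists_Q {ι κ : Type} [Fintype ι] [DecidableEq ι] [Fintype κ]
    [DecidableEq κ] {D0 : Matrix κ ι D.S} {D1 : Matrix ι κ D.S} (h10 : D1 * D0 = 0)
    (h01 : D0 * D1 = 0) (e0 : ∀ P : MSX.HP D.p D.L, Exq P D0 D1)
    (e1 : ∀ P : MSX.HP D.p D.L, Exq P D1 D0) :
    ∃ (t0 : Matrix κ ι (Qf D)) (t1 : Matrix ι κ (Qf D)),
      MSK.IsC (D0.map (iQ D)) (D1.map (iQ D)) t0 t1 := by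
  obtain ⟨P, -⟩ := MSX.exists_irr (L := D.L) (MvPolynomial.isHomogeneous_X D.L (0 : Fin D.p))
    (MvPolynomial.X_ne_zero _) Nat.one_pos
  refine ex_lift P (iQ D) (fun s hs => ?_) h10 h01 (e0 P) (e1 P)
  rw [isUnit_iff_ne_zero]
  intro h
  apply hs
  have h1 : s = 0 := iQ_inj D (by rw [h, map_zero])
  rw [h1]
  exact P.I.zero_mem

end MSV
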