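import Mathlib
import Pool.Agent.MSV.Fr

/-!
# CONV: descent, matrices over the function field

`Om` is a basis over `K` of the `τ`-invariants of degree `0` (columns), `Oi` its inverse, `kmat T = Oi T Om` the matrix over `K` of the
homomorphism `T`.

PROOFS.
* `exists_Om`: `M = KL` (a field), `σ = sigQ` restricted to `KL` (`MSX.Dat.sigQ_KL` for `σ` and for the inverse: `σ⁻¹ = σ^[p-1]` by `sigQ_iter`; or
  `RingEquiv` built from `sigQ_iter`). `B' i j = x_0^(n i) * B i j * (sigQ x_0)^(-(n j))`: lies in `KL` because `B i j = 0` unless `n i = n j`.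
  `itM σ B' k = diag(x_0^n) * itM(B) k * diag((sigQ^k x_0)^(-n))` (induction), for `k = p`: `sigQ^p x_0 = b x_0` and `itM(B) p = diag(b^n)`, so it is `1`.
  `MSX.descent` (with `MSX.of_prime`; `σ ≠ id` since it is `s ≠ 1` on the constants) gives `G₀` over `KL`, `B' σ(G₀) = G₀`, `det ≠ 0`. `G = diag(x_0^(-n)) G₀`,
  `G' = G₀⁻¹ diag(x_0^n)` : `B σ(G) = B diag((σ x_0)^(-n)) σ(G₀) = diag(x_0^(-n)) B' σ(G₀) = G`.
* `kmat_mem`: degree `0` by `hd_mul`, `hd_sum` (`hd_KL`); `σ(Om) = B⁻¹ Om`, `σ(Oi') = Oi' B'` (from `Om_tau`), so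
  `σ(Oi' T Om) = Oi' B' τ(T) B⁻¹ Om = Oi' T B B⁻¹ Om = Oi' T Om` (`sigQ_iQ`).
* `kmat_mul`, `kmat_one`, `kmat_add`, `kmat_neg`, `kmat_zero`: apply the injective map `kQ` to the entries, `kmat_Q`, `Om_Oi`.
* `Om_unique`: `N = Oi * G` has entries in `K` (same computation).
-/

set_option autoImplicit false
set_option linter.unusedSectionVars false

noncomputable section

namespace MSV

open MvPolynomial Pool.Agent Matrix

universe u

variable {D : MSA.Dat.{u}}

/-! ## helper lemmas -/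

private theorem om_map_mul {R : Type*} [CommRing R] (e : R ≃+* R) {α β γ : Type*} [Fintype β]
    (M : Matrix α β R) (N : Matrix β γ R) : (M * N).map e = M.map e * N.map e :=
  Matrix.map_mul (f := (e : R →+* R))

private theorem om_map_one {R : Type*} [CommRing R] (e : R ≃+* R) {α : Type*} [Fintype α]
    [DecidableEq α] : (1 : Matrix α α R).map e = 1 :=
  Matrix.map_one e (map_zero e) (map_one e)

private theorem om_diag {R : Type*} [CommRing R] {α : Type*} [Fintype α] [DecidableEq α]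
    (f g : α → R) (h : ∀ i, f i * g i = 1) :
    (Matrix.diagonal f : Matrix α α R) * Matrix.diagonal g = 1 := by
  rw [Matrix.diagonal_mul_diagonal, ← Matrix.diagonal_one]
  congr 1
  funext i
  exact h i

private theorem om_map_diag {R R' : Type*} [CommRing R] [CommRing R'] (f : R →+* R') {α : Type*}
    [DecidableEq α] (g : α → R) :
    (Matrix.diagonal g).map f = Matrix.diagonal (fun i => f (g i)) :=
  Matrix.diagonal_map (map_zero f)

/-- `sigQ` on the subfield of homogeneous elements of degree `0` -/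
private def sK : MSX.KL D.p D.L ≃+* MSX.KL D.p D.L where
  toFun x := ⟨D.X.sigQ x, D.X.sigQ_KL x.2⟩
  invFun x := ⟨D.X.sigQ^[D.p - 1] x, by
    have key : ∀ k, D.X.sigQ^[k] (x : Qf D) ∈ MSX.KL D.p D.L := by
      intro k
      induction k with
      | zero => exact x.2
      | succ k ih =>
        rw [Function.iterate_succ_apply']
        exact D.X.sigQ_KL ih
    exact key _⟩
  left_inv x := by
    apply Subtype.ext
    show D.X.sigQ^[D.p - 1] (D.X.sigQ x) = x
    rw [← Function.iterate_succ_apply, Nat.succ_eq_add_one, Nat.sub_add_cancel D.X.hp.pos]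
    exact D.X.sigQ_iter x.2
  right_inv x := by
    apply Subtype.ext
    show D.X.sigQ (D.X.sigQ^[D.p - 1] x) = x
    have e : D.X.sigQ (D.X.sigQ^[D.p - 1] x) = D.X.sigQ^[D.p - 1 + 1] x :=
      (Function.iterate_succ_apply' _ _ _).symm
    rw [e, Nat.sub_add_cancel D.X.hp.pos]
    exact D.X.sigQ_iter x.2
  map_mul' x y := Subtype.ext (map_mul D.X.sigQ _ _)
  map_add' x y := Subtype.ext (map_add D.X.sigQ _ _)

private theorem sK_coe (x : MSX.KL D.p D.L) : ((sK x : MSX.KL D.p D.L) : Qf D) = D.X.sigQ x := rfl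

private theorem sK_iter (k : ℕ) (x : MSX.KL D.p D.L) :
    ((sK^[k] x : MSX.KL D.p D.L) : Qf D) = D.X.sigQ^[k] x := by
  induction k with
  | zero => rfl
  | succ k ih => rw [Function.iterate_succ_apply', Function.iterate_succ_apply', sK_coe, ih]

private theorem sK_p (x : MSX.KL D.p D.L) : sK^[D.p] x = x := by
  apply Subtype.ext
  rw [sK_iter]
  exact D.X.sigQ_iter x.2

private theorem sK_ne : (sK : MSX.KL D.p D.L ≃+* MSX.KL D.p D.L) ≠ RingEquiv.refl _ := by
  intro h
  apply D.X.s_ne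
  ext c
  have h1 : cL D c ∈ MSX.KL D.p D.L := (hd_KL _).1 (hd_cL c)
  have h2 := congrArg (fun e : MSX.KL D.p D.L ≃+* MSX.KL D.p D.L =>
    ((e ⟨cL D c, h1⟩ : MSX.KL D.p D.L) : Qf D)) h
  have h3 : D.X.sigQ (cL D c) = cL D c := h2
  rw [sigQ_cL] at h3
  exact cL_inj h3

/-- the matrix of `τ` in the basis `x_0^(-n) w` -/
private def oB (A : Fr D) : Matrix A.ι A.ι (MSX.KL D.p D.L) := fun i j =>
  ⟨xQ D ^ A.n i * cL D (A.B i j) * D.X.sigQ (xQ D ^ (-A.n j)), by
    by_cases h : A.n i = A.n j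
    · have h1 := hd_mul (hd_mul (hd_xQ (A.n i)) (hd_cL (A.B i j))) (hd_sig (hd_xQ (-A.n j)))
      have e : A.n i + 0 + -A.n j = 0 := by rw [h]; ring
      rw [e] at h1
      exact (hd_KL _).1 h1
    · rw [A.hn i j h, map_zero, mul_zero, zero_mul]
      exact Subfield.zero_mem _⟩

private def kc : MSX.KL D.p D.L →+* Qf D := (MSX.KL D.p D.L).subtype

private theorem kc_inj : Function.Injective (kc (D := D)) := Subtype.val_injective

private theorem kc_map {α β : Type*} (M : Matrix α β (MSX.KL D.p D.L)) :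
    (M.map sK).map kc = (M.map kc).map D.X.sigQ := rfl

private theorem oB_map (A : Fr D) : (oB A).map kc = Matrix.diagonal (fun i => xQ D ^ A.n i) *
    A.B.map (cL D) * Matrix.diagonal (fun i => D.X.sigQ (xQ D ^ (-A.n i))) := by
  refine funext fun i => funext fun j => ?_
  rw [Matrix.mul_diagonal, Matrix.diagonal_mul]
  rfl

private theorem om_xx (n : ℤ) : xQ D ^ (-n) * xQ D ^ n = 1 := by
  rw [← zpow_add₀ xQ_ne, neg_add_cancel, zpow_zero]

private theorem om_xx' (n : ℤ) : xQ D ^ n * xQ D ^ (-n) = 1 := by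
  rw [mul_comm, om_xx]

private theorem itM_oB (A : Fr D) (k : ℕ) : (MSX.itM sK (oB A) k).map kc =
    Matrix.diagonal (fun i => xQ D ^ A.n i) * (MSX.itM D.s.toRingEquiv A.B k).map (cL D) *
      Matrix.diagonal (fun i => D.X.sigQ^[k] (xQ D ^ (-A.n i))) := by
  induction k with
  | zero =>
    show (1 : Matrix A.ι A.ι (MSX.KL D.p D.L)).map kc = Matrix.diagonal (fun i => xQ D ^ A.n i) *
      (1 : Matrix A.ι A.ι D.L).map (cL D) * Matrix.diagonal (fun i => xQ D ^ (-A.n i))
    rw [Matrix.map_one _ (map_zero _) (map_one _), Matrix.map_one _ (map_zero _) (map_one _),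
      Matrix.mul_one]
    exact (om_diag _ _ fun i => om_xx' _).symm
  | succ k ih =>
    have e1 : MSX.itM sK (oB A) (k + 1) = oB A * (MSX.itM sK (oB A) k).map sK := rfl
    have e2 : MSX.itM D.s.toRingEquiv A.B (k + 1) =
        A.B * (MSX.itM D.s.toRingEquiv A.B k).map D.s.toRingEquiv := rfl
    rw [e1, e2, Matrix.map_mul, kc_map, ih, oB_map, om_map_mul, om_map_mul, Matrix.map_mul]
    have e3 : ((MSX.itM D.s.toRingEquiv A.B k).map (cL D)).map D.X.sigQ =
        ((MSX.itM D.s.toRingEquiv A.B k).map D.s.toRingEquiv).map (cL D) := by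
      refine funext fun i => funext fun j => ?_
      exact sigQ_cL _
    have e4 : (Matrix.diagonal (fun i => xQ D ^ A.n i)).map D.X.sigQ =
        Matrix.diagonal (fun i => D.X.sigQ (xQ D ^ A.n i)) :=
      om_map_diag (D.X.sigQ : Qf D →+* Qf D) _
    have e5 : (Matrix.diagonal (fun i => D.X.sigQ^[k] (xQ D ^ (-A.n i)))).map D.X.sigQ =
        Matrix.diagonal (fun i => D.X.sigQ^[k + 1] (xQ D ^ (-A.n i))) := by
      refine (om_map_diag (D.X.sigQ : Qf D →+* Qf D) _).trans ?_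
      congr 1
      funext i
      exact (Function.iterate_succ_apply' _ _ _).symm
    have e6 : (Matrix.diagonal (fun i => D.X.sigQ (xQ D ^ (-A.n i))) : Matrix A.ι A.ι (Qf D)) *
        Matrix.diagonal (fun i => D.X.sigQ (xQ D ^ A.n i)) = 1 :=
      om_diag _ _ fun i => by rw [← map_mul, om_xx, map_one]
    rw [e3, e4, e5]
    simp only [Matrix.mul_assoc]
    rw [← Matrix.mul_assoc (Matrix.diagonal (fun i => D.X.sigQ (xQ D ^ (-A.n i)))), e6,
      Matrix.one_mul]

private theorem itM_oB_p (A : Fr D) : MSX.itM sK (oB A) D.p = 1 := by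
  have h := itM_oB A D.p
  have e1 : (MSX.itM D.s.toRingEquiv A.B D.p).map (cL D) =
      Matrix.diagonal (fun i => cL D (D.X.bL ^ A.n i)) := by
    rw [A.hB]
    exact om_map_diag _ _
  have e2 : (Matrix.diagonal (fun i => D.X.sigQ^[D.p] (xQ D ^ (-A.n i))) : Matrix A.ι A.ι (Qf D)) =
      Matrix.diagonal (fun i => cL D (D.X.bL ^ (-A.n i)) * xQ D ^ (-A.n i)) := by
    congr 1
    funext i
    exact sigQ_iter_hd (hd_xQ _)
  have h1 : (MSX.itM sK (oB A) D.p).map kc = (1 : Matrix A.ι A.ι (MSX.KL D.p D.L)).map kc := by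
    rw [h, e1, e2, Matrix.diagonal_mul_diagonal, Matrix.map_one _ (map_zero _) (map_one _)]
    refine om_diag _ _ fun i => ?_
    have h3 : cL D (D.X.bL ^ A.n i) * cL D (D.X.bL ^ (-A.n i)) = 1 := by
      rw [← map_mul, ← zpow_add₀ D.X.bL_ne, add_neg_cancel, zpow_zero, map_one]
    calc xQ D ^ A.n i * cL D (D.X.bL ^ A.n i) * (cL D (D.X.bL ^ (-A.n i)) * xQ D ^ (-A.n i))
        = (xQ D ^ A.n i * xQ D ^ (-A.n i)) * (cL D (D.X.bL ^ A.n i) * cL D (D.X.bL ^ (-A.n i))) := by
          ring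
      _ = 1 := by rw [om_xx', h3, mul_one]
  exact Matrix.map_injective kc_inj h1

/-- Descent: a `K`-basis of the invariants of degree `0`. -/
theorem exists_Om (A : Fr D) : ∃ G G' : Matrix A.ι A.ι (Qf D), G * G' = 1 ∧ G' * G = 1 ∧
    A.B.map (cL D) * G.map D.X.sigQ = G ∧ (∀ i j, Hd D (-A.n i) (G i j)) ∧
    ∀ i j, Hd D (A.n j) (G' i j) := by
  obtain ⟨G₀, hdet, hG₀⟩ := MSX.descent (sK (D := D)) D.p D.X.hp.pos sK_p
    (MSX.of_prime sK D.p D.X.hp sK_p sK_ne) (oB A) (itM_oB_p A)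
  have hu : IsUnit G₀.det := isUnit_iff_ne_zero.2 hdet
  have e1 : G₀.map kc * (G₀⁻¹).map kc = 1 := by
    rw [← Matrix.map_mul, Matrix.mul_nonsing_inv _ hu, Matrix.map_one _ (map_zero _) (map_one _)]
  have e2 : (G₀⁻¹).map kc * G₀.map kc = 1 := by
    rw [← Matrix.map_mul, Matrix.nonsing_inv_mul _ hu, Matrix.map_one _ (map_zero _) (map_one _)]
  have d1 : (Matrix.diagonal (fun i => xQ D ^ (-A.n i)) : Matrix A.ι A.ι (Qf D)) *
      Matrix.diagonal (fun i => xQ D ^ A.n i) = 1 := om_diag _ _ fun i => om_xx _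
  have d2 : (Matrix.diagonal (fun i => xQ D ^ A.n i) : Matrix A.ι A.ι (Qf D)) *
      Matrix.diagonal (fun i => xQ D ^ (-A.n i)) = 1 := om_diag _ _ fun i => om_xx' _
  refine ⟨Matrix.diagonal (fun i => xQ D ^ (-A.n i)) * G₀.map kc,
    (G₀⁻¹).map kc * Matrix.diagonal (fun i => xQ D ^ A.n i), ?_, ?_, ?_, fun i j => ?_,
    fun i j => ?_⟩
  · calc Matrix.diagonal (fun i => xQ D ^ (-A.n i)) * G₀.map kc *
          ((G₀⁻¹).map kc * Matrix.diagonal (fun i => xQ D ^ A.n i))
        = Matrix.diagonal (fun i => xQ D ^ (-A.n i)) * (G₀.map kc * (G₀⁻¹).map kc) *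
          Matrix.diagonal (fun i => xQ D ^ A.n i) := by simp only [Matrix.mul_assoc]
      _ = 1 := by rw [e1, Matrix.mul_one, d1]
  · calc (G₀⁻¹).map kc * Matrix.diagonal (fun i => xQ D ^ A.n i) *
          (Matrix.diagonal (fun i => xQ D ^ (-A.n i)) * G₀.map kc)
        = (G₀⁻¹).map kc * (Matrix.diagonal (fun i => xQ D ^ A.n i) *
          Matrix.diagonal (fun i => xQ D ^ (-A.n i))) * G₀.map kc := by
          simp only [Matrix.mul_assoc]
      _ = 1 := by rw [d2, Matrix.mul_one, e2]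
  · have h1 : G₀.map kc = Matrix.diagonal (fun i => xQ D ^ A.n i) * A.B.map (cL D) *
        Matrix.diagonal (fun i => D.X.sigQ (xQ D ^ (-A.n i))) * (G₀.map kc).map D.X.sigQ := by
      conv_lhs => rw [← hG₀, Matrix.map_mul, oB_map, kc_map]
    have e4 : (Matrix.diagonal (fun i => xQ D ^ (-A.n i))).map D.X.sigQ =
        Matrix.diagonal (fun i => D.X.sigQ (xQ D ^ (-A.n i))) :=
      om_map_diag (D.X.sigQ : Qf D →+* Qf D) _
    rw [om_map_mul, e4]
    conv_rhs => rw [h1]
    simp only [← Matrix.mul_assoc]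
    rw [d1, Matrix.one_mul]
  · rw [Matrix.diagonal_mul]
    have h := hd_mul (hd_xQ (D := D) (-A.n i)) ((hd_KL (kc (G₀ i j))).2 (G₀ i j).2)
    rw [add_zero] at h
    exact h
  · rw [Matrix.mul_diagonal]
    have h := hd_mul ((hd_KL (kc (G₀⁻¹ i j))).2 (G₀⁻¹ i j).2) (hd_xQ (D := D) (A.n j))
    rw [zero_add] at h
    exact h

namespace Fr

variable (A : Fr D)

/-- the basis of the invariants, as columns -/
def Om : Matrix A.ι A.ι (Qf D) := (exists_Om A).choose

/-- the inverse of `Om` -/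
def Oi : Matrix A.ι A.ι (Qf D) := (exists_Om A).choose_spec.choose

theorem Om_Oi : A.Om * A.Oi = 1 := (exists_Om A).choose_spec.choose_spec.1

theorem Oi_Om : A.Oi * A.Om = 1 := (exists_Om A).choose_spec.choose_spec.2.1

theorem Om_tau : A.B.map (cL D) * A.Om.map D.X.sigQ = A.Om :=
  (exists_Om A).choose_spec.choose_spec.2.2.1

theorem Om_deg (i j : A.ι) : Hd D (-A.n i) (A.Om i j) :=
  (exists_Om A).choose_spec.choose_spec.2.2.2.1 i j

theorem Oi_deg (i j : A.ι) : Hd D (A.n j) (A.Oi i j) :=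
  (exists_Om A).choose_spec.choose_spec.2.2.2.2 i j

end Fr

/-- the conjugated matrix over the fraction field -/
def qmat {A A' : Fr D} (T : Matrix A'.ι A.ι (Qf D)) : Matrix A'.ι A.ι (Qf D) :=
  A'.Oi * T * A.Om

open Classical in
/-- the matrix over the function field `K` -/
def kmat {A A' : Fr D} (T : Matrix A'.ι A.ι D.S) : Matrix A'.ι A.ι D.X.K :=
  fun j i => if h : qmat (T.map (iQ D)) j i ∈ D.X.K then ⟨_, h⟩ else 0

/-- the inclusion of `K` in the fraction field -/
def kQ : D.X.K →+* Qf D := D.X.K.subtype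

private theorem Oi_tau (A : Fr D) : A.Oi.map D.X.sigQ = A.Oi * A.B.map (cL D) := by
  have h1 : A.Oi * A.B.map (cL D) * A.Om.map D.X.sigQ = 1 := by
    rw [Matrix.mul_assoc, A.Om_tau, A.Oi_Om]
  have h2 : A.Om.map D.X.sigQ * A.Oi.map D.X.sigQ = 1 := by
    rw [← om_map_mul, A.Om_Oi, om_map_one]
  calc A.Oi.map D.X.sigQ = (A.Oi * A.B.map (cL D) * A.Om.map D.X.sigQ) * A.Oi.map D.X.sigQ := by
        rw [h1, Matrix.one_mul]
    _ = A.Oi * A.B.map (cL D) * (A.Om.map D.X.sigQ * A.Oi.map D.X.sigQ) := by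
        simp only [Matrix.mul_assoc]
    _ = A.Oi * A.B.map (cL D) := by rw [h2, Matrix.mul_one]

private theorem hm_tau_Q {A A' : Fr D} {T : Matrix A'.ι A.ι D.S} (h : Hm A A' T) :
    A'.B.map (cL D) * (T.map (iQ D)).map D.X.sigQ = T.map (iQ D) * A.B.map (cL D) := by
  have h1 : (A'.B.map C).map (iQ D) * (T.map D.tauS).map (iQ D) =
      T.map (iQ D) * (A.B.map C).map (iQ D) := by
    have h2 := congrArg (fun M : Matrix A'.ι A.ι D.S => M.map (iQ D)) h.tau
    exact (Matrix.map_mul (f := iQ D)).symm.trans (h2.trans (Matrix.map_mul (f := iQ D)))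
  have e1 : (T.map D.tauS).map (iQ D) = (T.map (iQ D)).map D.X.sigQ := by
    refine funext fun i => funext fun j => ?_
    exact (sigQ_iQ _).symm
  rw [e1] at h1
  exact h1

theorem kmat_mem {A A' : Fr D} {T : Matrix A'.ι A.ι D.S} (h : Hm A A' T) (j : A'.ι) (i : A.ι) :
    qmat (T.map (iQ D)) j i ∈ D.X.K := by
  have h1 : (qmat (T.map (iQ D))).map D.X.sigQ = qmat (A := A) (A' := A') (T.map (iQ D)) := by
    unfold qmat
    rw [om_map_mul, om_map_mul, Oi_tau]
    calc A'.Oi * A'.B.map (cL D) * (T.map (iQ D)).map D.X.sigQ * A.Om.map D.X.sigQ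
        = A'.Oi * (A'.B.map (cL D) * (T.map (iQ D)).map D.X.sigQ) * A.Om.map D.X.sigQ := by
          simp only [Matrix.mul_assoc]
      _ = A'.Oi * (T.map (iQ D)) * (A.B.map (cL D) * A.Om.map D.X.sigQ) := by
          rw [hm_tau_Q h]
          simp only [Matrix.mul_assoc]
      _ = A'.Oi * T.map (iQ D) * A.Om := by rw [A.Om_tau]
  refine ⟨(hd_KL _).1 ?_, congrFun (congrFun h1 j) i⟩
  unfold qmat
  rw [Matrix.mul_apply]
  refine hd_sum _ _ fun a _ => ?_
  rw [Matrix.mul_apply, Finset.sum_mul]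
  refine hd_sum _ _ fun b _ => ?_
  have h2 := hd_mul (hd_mul (A'.Oi_deg j b) (hd_of_hs (h.deg b a))) (A.Om_deg a i)
  have e : A'.n b + (A.n a - A'.n b) + -A.n a = 0 := by ring
  rw [e] at h2
  exact h2

theorem kmat_Q {A A' : Fr D} {T : Matrix A'.ι A.ι D.S} (h : Hm A A' T) :
    (kmat (A := A) (A' := A') T).map kQ = A'.Oi * T.map (iQ D) * A.Om := by
  ext j i
  rw [Matrix.map_apply, kmat, dif_pos (kmat_mem h j i)]
  rfl

private theorem kQ_inj {α β : Type*} {M N : Matrix α β D.X.K} (h : M.map kQ = N.map kQ) : M = N :=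
  Matrix.map_injective (f := kQ) (Subtype.val_injective : Function.Injective (kQ (D := D))) h

theorem kmat_one (A : Fr D) : kmat (A := A) (A' := A) (1 : Matrix A.ι A.ι D.S) = 1 := by
  apply kQ_inj
  rw [kmat_Q (hm_one A), Matrix.map_one _ (map_zero _) (map_one _), Matrix.mul_one, A.Oi_Om,
    Matrix.map_one _ (map_zero _) (map_one _)]

theorem kmat_mul {A A' A'' : Fr D} {T : Matrix A'.ι A.ι D.S} {T' : Matrix A''.ι A'.ι D.S}
    (h' : Hm A' A'' T') (h : Hm A A' T) : kmat (A := A) (A' := A'') (T' * T) =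
      kmat (A := A') (A' := A'') T' * kmat (A := A) (A' := A') T := by
  apply kQ_inj
  rw [kmat_Q (h'.mul h), Matrix.map_mul, Matrix.map_mul, kmat_Q h', kmat_Q h]
  calc A''.Oi * (T'.map (iQ D) * T.map (iQ D)) * A.Om
      = A''.Oi * T'.map (iQ D) * (1 : Matrix A'.ι A'.ι (Qf D)) * T.map (iQ D) * A.Om := by
        rw [Matrix.mul_one]
        simp only [Matrix.mul_assoc]
    _ = A''.Oi * T'.map (iQ D) * A'.Om * (A'.Oi * T.map (iQ D) * A.Om) := by
        rw [← A'.Om_Oi]
        simp only [Matrix.mul_assoc]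

theorem kmat_add {A A' : Fr D} {T T' : Matrix A'.ι A.ι D.S} (h : Hm A A' T) (h' : Hm A A' T') :
    kmat (A := A) (A' := A') (T + T') = kmat (A := A) (A' := A') T + kmat (A := A) (A' := A') T' := by
  apply kQ_inj
  rw [kmat_Q (h.add h'), Matrix.map_add _ (map_add _), Matrix.map_add _ (map_add _), kmat_Q h,
    kmat_Q h', Matrix.mul_add, Matrix.add_mul]

theorem kmat_zero (A A' : Fr D) : kmat (A := A) (A' := A') (0 : Matrix A'.ι A.ι D.S) = 0 := by
  apply kQ_inj
  rw [kmat_Q (hm_zero A A'), Matrix.map_zero _ (map_zero _), Matrix.mul_zero, Matrix.zero_mul,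
    Matrix.map_zero _ (map_zero _)]

theorem kmat_neg {A A' : Fr D} {T : Matrix A'.ι A.ι D.S} (h : Hm A A' T) :
    kmat (A := A) (A' := A') (-T) = -kmat (A := A) (A' := A') T := by
  apply kQ_inj
  have e1 : (-T).map (iQ D) = -(T.map (iQ D)) := by
    refine funext fun i => funext fun j => ?_
    exact map_neg (iQ D) _
  have e2 : (-kmat (A := A) (A' := A') T).map kQ = -((kmat (A := A) (A' := A') T).map kQ) := by
    refine funext fun i => funext fun j => ?_
    exact map_neg (kQ (D := D)) _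
  rw [kmat_Q h.neg, e1, e2, kmat_Q h, Matrix.mul_neg, Matrix.neg_mul]

/-- Two bases of the invariants differ by a matrix over `K`. -/
theorem Om_unique (A : Fr D) (G : Matrix A.ι A.ι (Qf D)) 
    (h1 : A.B.map (cL D) * G.map D.X.sigQ = G) (h2 : ∀ i j, Hd D (-A.n i) (G i j)) :
    ∃ N : Matrix A.ι A.ι D.X.K, G = A.Om * N.map kQ := by
  have h3 : (A.Oi * G).map D.X.sigQ = A.Oi * G := by
    rw [om_map_mul, Oi_tau, Matrix.mul_assoc, h1]
  have h4 : ∀ i j, (A.Oi * G) i j ∈ D.X.K := by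
    intro i j
    refine ⟨(hd_KL _).1 ?_, congrFun (congrFun h3 i) j⟩
    rw [Matrix.mul_apply]
    refine hd_sum _ _ fun a _ => ?_
    have h5 := hd_mul (A.Oi_deg i a) (h2 a j)
    rw [add_neg_cancel] at h5
    exact h5
  refine ⟨fun i j => ⟨(A.Oi * G) i j, h4 i j⟩, ?_⟩
  have h6 : (Matrix.map (fun i j => (⟨(A.Oi * G) i j, h4 i j⟩ : D.X.K)) kQ :
      Matrix A.ι A.ι (Qf D)) = A.Oi * G := rfl
  rw [h6, ← Matrix.mul_assoc, A.Om_Oi, Matrix.one_mul]

end MSV
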