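import Mathlib
import Pool.Agent.MSV.Om
import Pool.Agent.MSK.Ctr

/-!
# CONV: contractions over the function field

PROOF.
* `exists_K`: `(kmat D0).map kQ = Oi1 * D0 * Om0`: `MSK.IsC.conj` gives a contraction over `Q` of the matrices `kmat`. So for `v ∈ K^ι` with `kmat D0 *ᵥ v = 0` there is
  `u ∈ Q^κ` with `kQ v = (kmat D1).map kQ *ᵥ u` (`u = s0 (kQ v)`). A `K`-linear retraction `ρ : Q → K` of `kQ` (`kQ` is injective, `K` a field:
  `LinearMap.exists_leftInverse_of_injective` with the `K`-module structure of `Q` by `kQ`) gives `v = kmat D1 *ᵥ (ρ u)`. Same for the other side; `MSK.exists_IsC` over the field `K`.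
-/

set_option autoImplicit false
set_option linter.unusedSectionVars false

noncomputable section

namespace MSV

open MvPolynomial Pool.Agent Matrix

universe u

variable {D : MSA.Dat.{u}}

section descent

variable {K Q : Type*} [Field K] [Field Q] (f : K →+* Q)
variable {ι κ : Type*} [Fintype ι] [DecidableEq ι] [Fintype κ] [DecidableEq κ]

private theorem exk_retr : ∃ r : Q → K, (∀ a q, r (f a * q) = a * r q) ∧
    (∀ x y, r (x + y) = r x + r y) ∧ r 0 = 0 ∧ ∀ a, r (f a) = a := by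
  let _ := f.toAlgebra
  obtain ⟨g, hg⟩ := LinearMap.exists_leftInverse_of_injective (Algebra.linearMap K Q)
    (LinearMap.ker_eq_bot.2 f.injective)
  refine ⟨g, fun a q => ?_, map_add g, map_zero g, fun a => LinearMap.congr_fun hg a⟩
  have h1 : f a * q = a • q := rfl
  rw [h1, map_smul, smul_eq_mul]

private theorem exk_ker {D0 : Matrix κ ι K} {D1 : Matrix ι κ K} {s0 : Matrix κ ι Q}
    {s1 : Matrix ι κ Q} (h : MSK.IsC (D0.map f) (D1.map f) s0 s1) (v : ι → K) :
    D0 *ᵥ v = 0 ↔ ∃ u : κ → K, v = D1 *ᵥ u := by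
  constructor
  · intro hv
    obtain ⟨r, hr1, hr2, hr3, hr4⟩ := exk_retr f
    have h1 : (D0.map f) *ᵥ (fun i => f (v i)) = 0 := by
      funext k
      have h2 := congrArg f (congrFun hv k)
      rw [Pi.zero_apply, map_zero] at h2
      rw [Pi.zero_apply, ← h2]
      show ∑ i, f (D0 k i) * f (v i) = f (∑ i, D0 k i * v i)
      rw [map_sum]
      exact Finset.sum_congr rfl fun i _ => (map_mul f _ _).symm
    have h2 : (fun i => f (v i)) = (D1.map f) *ᵥ (s0 *ᵥ fun i => f (v i)) := by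
      have h3 := congrArg (fun M => M *ᵥ fun i => f (v i)) h.h0
      beta_reduce at h3
      rw [Matrix.add_mulVec, ← Matrix.mulVec_mulVec, ← Matrix.mulVec_mulVec, h1,
        Matrix.mulVec_zero, add_zero, Matrix.one_mulVec] at h3
      exact h3.symm
    have hrs : ∀ (s : Finset κ) (g : κ → Q), r (∑ j ∈ s, g j) = ∑ j ∈ s, r (g j) := by
      classical
      intro s g
      induction s using Finset.induction_on with
      | empty => rw [Finset.sum_empty, Finset.sum_empty, hr3]
      | insert a s ha ih => rw [Finset.sum_insert ha, Finset.sum_insert ha, hr2, ih]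
    refine ⟨fun j => r ((s0 *ᵥ fun i => f (v i)) j), ?_⟩
    funext i
    have h4 := congrArg r (congrFun h2 i)
    beta_reduce at h4
    rw [hr4] at h4
    rw [h4]
    show r (∑ j, f (D1 i j) * _) = ∑ j, D1 i j * _
    rw [hrs]
    exact Finset.sum_congr rfl fun j _ => hr1 _ _
  · rintro ⟨u, rfl⟩
    have h1 : D0 * D1 = 0 := by
      apply Matrix.map_injective f.injective
      beta_reduce
      rw [Matrix.map_mul, h.d01, Matrix.map_zero _ (map_zero f)]
    rw [Matrix.mulVec_mulVec, h1, Matrix.zero_mulVec]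

private theorem exk_descent {D0 : Matrix κ ι K} {D1 : Matrix ι κ K} {s0 : Matrix κ ι Q}
    {s1 : Matrix ι κ Q} (h : MSK.IsC (D0.map f) (D1.map f) s0 s1) :
    ∃ (t0 : Matrix κ ι K) (t1 : Matrix ι κ K), MSK.IsC D0 D1 t0 t1 :=
  MSK.exists_IsC D0 D1 (exk_ker f h) (exk_ker f h.symm)

end descent

theorem exists_K {A0 A1 : Fr D} {D0 : Matrix A1.ι A0.ι D.S} {D1 : Matrix A0.ι A1.ι D.S}
    (h0 : Hm A0 A1 D0) (h1 : Hm A1 A0 D1) {t0 : Matrix A1.ι A0.ι (Qf D)}
    {t1 : Matrix A0.ι A1.ι (Qf D)} (h : MSK.IsC (D0.map (iQ D)) (D1.map (iQ D)) t0 t1) :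
    ∃ (s0 : Matrix A1.ι A0.ι D.X.K) (s1 : Matrix A0.ι A1.ι D.X.K),
      MSK.IsC (kmat (A := A0) (A' := A1) D0) (kmat (A := A1) (A' := A0) D1) s0 s1 := by
  have h2 := h.conj A0.Oi A0.Om A1.Oi A1.Om A0.Om_Oi A0.Oi_Om A1.Om_Oi A1.Oi_Om
  rw [← kmat_Q h0, ← kmat_Q h1] at h2
  exact exk_descent kQ h2

end MSV
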