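import Mathlib
import Pool.Agent.MSV.Cor
import Pool.Agent.MSV.Ex

/-!
# CONV: matrix complexes and the translation of complexes of modules

`Mc D`: a `ℤ/2`-graded complex of frames, exact at all points of codimension one. `Mc.Iso`: isomorphism. `Mc.Blk M M' M''`: `M'` is isomorphic
to a block triangular complex with diagonal blocks `M`, `M''`. `Rep M X`: the complex `X` of modules has the matrices of `M` in suitable coordinates.

-/

set_option autoImplicit false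
set_option linter.unusedSectionVars false

noncomputable section

namespace MSV

open MvPolynomial Pool.Agent Matrix MSA

universe u v

variable (D : MSA.Dat.{u})

/-- matrix complexes -/
structure Mc where
  A0 : Fr D
  A1 : Fr D
  D0 : Matrix A1.ι A0.ι D.S
  D1 : Matrix A0.ι A1.ι D.S
  h0 : Hm A0 A1 D0
  h1 : Hm A1 A0 D1
  d10 : D1 * D0 = 0
  d01 : D0 * D1 = 0
  ex0 : ∀ P : MSX.HP D.p D.L, Exq P D0 D1
  ex1 : ∀ P : MSX.HP D.p D.L, Exq P D1 D0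

variable {D}

/-- `U` is an isomorphism of frames with inverse `U'` -/
structure FIso (A A' : Fr D) (U : Matrix A'.ι A.ι D.S) (U' : Matrix A.ι A'.ι D.S) : Prop where
  h : Hm A A' U
  h' : Hm A' A U'
  m : U * U' = 1
  m' : U' * U = 1

namespace Mc

/-- isomorphic complexes -/
def Iso (M M' : Mc D) : Prop :=
  ∃ (U0 : Matrix M'.A0.ι M.A0.ι D.S) (U0' : Matrix M.A0.ι M'.A0.ι D.S)
    (U1 : Matrix M'.A1.ι M.A1.ι D.S) (U1' : Matrix M.A1.ι M'.A1.ι D.S),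
    FIso M.A0 M'.A0 U0 U0' ∧ FIso M.A1 M'.A1 U1 U1' ∧ M'.D0 * U0 = U1 * M.D0 ∧
    M'.D1 * U1 = U0 * M.D1

/-- `M'` is isomorphic to a block triangular complex with diagonal blocks `M` and `M''` -/
def Blk (M M' M'' : Mc D) : Prop :=
  ∃ (e0 : Matrix M.A1.ι M''.A0.ι D.S) (e1 : Matrix M.A0.ι M''.A1.ι D.S)
    (U0 : Matrix M'.A0.ι (M.A0.ι ⊕ M''.A0.ι) D.S) (U0' : Matrix (M.A0.ι ⊕ M''.A0.ι) M'.A0.ι D.S)
    (U1 : Matrix M'.A1.ι (M.A1.ι ⊕ M''.A1.ι) D.S) (U1' : Matrix (M.A1.ι ⊕ M''.A1.ι) M'.A1.ι D.S),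
    Hm M''.A0 M.A1 e0 ∧ Hm M''.A1 M.A0 e1 ∧
    M.D0 * e1 + e0 * M''.D1 = 0 ∧ M.D1 * e0 + e1 * M''.D0 = 0 ∧
    FIso (M.A0.sum M''.A0) M'.A0 U0 U0' ∧ FIso (M.A1.sum M''.A1) M'.A1 U1 U1' ∧
    M'.D0 * U0 = U1 * Matrix.fromBlocks M.D0 e0 0 M''.D0 ∧
    M'.D1 * U1 = U0 * Matrix.fromBlocks M.D1 e1 0 M''.D1

/-- contractible by homomorphisms, frames isomorphic to frames with one weight -/
def Triv (M : Mc D) : Prop :=
  ∃ s0 s1, Hm M.A0 M.A1 s0 ∧ Hm M.A1 M.A0 s1 ∧ MSK.IsC M.D0 M.D1 s0 s1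

end Mc

/-- the complex `X` has the matrices of `M` -/
structure Rep (M : Mc D) (X : Ch.{u} D.R) where
  c0 : Cor M.A0 X.X0
  c1 : Cor M.A1 X.X1
  h0 : c0.mat c1 X.d0 = M.D0
  h1 : c1.mat c0 X.d1 = M.D1

end MSV
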