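import Mathlib
import Pool.Agent.MSV.Avg

/-!
# CONV: short exact sequences of frames split

PROOF.
* `ses_split`: `T₁` with `q * T₁ = 1` (columns: preimages of the unit vectors, `sur`), `split` gives `T` with `Hm A'' A' T`, `q * T = 1`. The columns of `1 - T * q` are in the kernel of
  `q`, so `1 - T * q = i * R` for a matrix `R` (columns by `ex`). `R * i = 1`: `i * (R * i) = (1 - T q) i = i` (`q * i = 0` by `ex`) and `inj`; `R * T = 0`: `i * (R * T) = T - T q T = 0`.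
  `Hm A' A R`: `(fromCols i T) : A ⊕ A'' → A'` is in `Hm` (`hm_cols`) with inverse `fromRows R q`, so `fromRows R q` is in `Hm` (`Hm.inv`); take the first rows
  (`deg`: entries; `tau`: first block row of `B_sum τ(..) = (..) B'`).
-/

set_option autoImplicit false
set_option linter.unusedSectionVars false

noncomputable section

namespace MSV

open MvPolynomial Pool.Agent Matrix MSA

universe u v

variable {D : MSA.Dat.{u}}

private theorem ext42 {R : Type*} [CommRing R] {ι κ : Type*} [Fintype ι] [DecidableEq ι]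
    {M N : Matrix κ ι R} (h : ∀ v, M *ᵥ v = N *ᵥ v) : M = N := by
  ext a b
  have h1 := congrFun (h (Pi.single b 1)) a
  simpa using h1

private theorem cols42 {R : Type*} [CommRing R] {ι κ μ : Type*} [Fintype ι] [Fintype μ]
    [DecidableEq μ] (i : Matrix κ ι R) (N : Matrix κ μ R)
    (h : ∀ b, ∃ u, i *ᵥ u = N *ᵥ Pi.single b 1) : ∃ U : Matrix ι μ R, i * U = N := by
  choose u hu using h
  refine ⟨Matrix.of fun a b => u b a, ?_⟩
  ext a b
  have h1 := congrFun (hu b) a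
  rw [Matrix.mulVec_single_one] at h1
  exact h1

private theorem left_cancel42 {R : Type*} [CommRing R] {ι κ μ : Type*} [Fintype ι] [Fintype μ]
    [DecidableEq μ] (i : Matrix κ ι R) (inj : ∀ v, i *ᵥ v = 0 → v = 0) {M N : Matrix ι μ R}
    (h : i * M = i * N) : M = N := by
  refine ext42 fun v => ?_
  have h1 : i *ᵥ (M *ᵥ v - N *ᵥ v) = 0 := by
    rw [Matrix.mulVec_sub, Matrix.mulVec_mulVec, Matrix.mulVec_mulVec, h, sub_self]
  exact sub_eq_zero.1 (inj _ h1)

theorem ses_split {A A' A'' : Fr D} {i : Matrix A'.ι A.ι D.S} {q : Matrix A''.ι A'.ι D.S}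
    (hi : Hm A A' i) (hq : Hm A' A'' q) (inj : ∀ v, i *ᵥ v = 0 → v = 0)
    (sur : ∀ w, ∃ v, q *ᵥ v = w) (ex : ∀ v, q *ᵥ v = 0 ↔ ∃ u, i *ᵥ u = v) :
    ∃ (T : Matrix A'.ι A''.ι D.S) (R : Matrix A.ι A'.ι D.S), Hm A'' A' T ∧ Hm A' A R ∧
      q * T = 1 ∧ q * i = 0 ∧ R * i = 1 ∧ R * T = 0 ∧ i * R + T * q = 1 := by
  obtain ⟨T₁, hT₁⟩ := cols42 q (1 : Matrix A''.ι A''.ι D.S) (fun b => sur _)
  obtain ⟨T, hT, hqT⟩ := split hq hT₁
  have hqi : q * i = 0 := by
    refine ext42 fun u => ?_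
    rw [← Matrix.mulVec_mulVec, Matrix.zero_mulVec]
    exact (ex _).2 ⟨u, rfl⟩
  have hq0 : q * (1 - T * q) = 0 := by
    rw [Matrix.mul_sub, Matrix.mul_one, ← Matrix.mul_assoc, hqT, Matrix.one_mul, sub_self]
  obtain ⟨R, hR⟩ := cols42 i (1 - T * q) (fun b => (ex _).1 (by
    rw [Matrix.mulVec_mulVec, hq0, Matrix.zero_mulVec]))
  have hRi : R * i = 1 := by
    refine left_cancel42 i inj ?_
    rw [← Matrix.mul_assoc, hR, Matrix.sub_mul, Matrix.one_mul, Matrix.mul_assoc, hqi,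
      Matrix.mul_zero, sub_zero, Matrix.mul_one]
  have hRT : R * T = 0 := by
    refine left_cancel42 i inj ?_
    rw [← Matrix.mul_assoc, hR, Matrix.sub_mul, Matrix.one_mul, Matrix.mul_assoc, hqT,
      Matrix.mul_one, sub_self, Matrix.mul_zero]
  have hsum : i * R + T * q = 1 := by
    rw [hR, sub_add_cancel]
  refine ⟨T, R, hT, ?_, hqT, hqi, hRi, hRT, hsum⟩
  have h1 : Hm (A.sum A'') A' (Matrix.fromCols i T) := hm_cols hi hT
  have h2 : (Matrix.fromCols i T : Matrix A'.ι (A.ι ⊕ A''.ι) D.S) * Matrix.fromRows R q = 1 := by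
    rw [Matrix.fromCols_mul_fromRows, hsum]
  have h3 : (Matrix.fromRows R q : Matrix (A.ι ⊕ A''.ι) A'.ι D.S) * Matrix.fromCols i T = 1 := by
    rw [Matrix.fromRows_mul_fromCols, hRi, hRT, hqi, hqT, Matrix.fromBlocks_one]
  have h4 : Hm A' (A.sum A'') (Matrix.fromRows R q) := h1.inv h2 h3
  refine ⟨fun j k => h4.deg (Sum.inl j) k, ?_⟩
  have h5 : ((Matrix.fromBlocks A.B 0 0 A''.B : Matrix (A.ι ⊕ A''.ι) (A.ι ⊕ A''.ι) D.L).map
      (C : D.L → D.S)) * (Matrix.fromRows R q).map D.tauS =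
      Matrix.fromRows R q * (A'.B.map (C : D.L → D.S)) := h4.tau
  show ((A.B.map (C : D.L → D.S) : Matrix A.ι A.ι D.S) * (R.map D.tauS : Matrix A.ι A'.ι D.S) :
    Matrix A.ι A'.ι D.S) = R * (A'.B.map (C : D.L → D.S) : Matrix A'.ι A'.ι D.S)
  refine Matrix.ext fun j k => ?_
  have h6 := congrFun (congrFun h5 (Sum.inl j)) k
  simp only [Matrix.mul_apply, Fintype.sum_sum_type, Matrix.map_apply, Matrix.fromBlocks_apply₁₁,
    Matrix.fromBlocks_apply₁₂, Matrix.fromRows_apply_inl, Matrix.zero_apply, map_zero, zero_mul,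
    Finset.sum_const_zero, add_zero] at h6
  simp only [Matrix.mul_apply, Matrix.map_apply]
  exact h6

end MSV
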