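import Mathlib
import Pool.Agent.MSV.Mc
import Pool.Agent.MSV.Ses

/-!
# CONV: translation of complexes of modules into matrix complexes

PROOFS.
* `exists_rep`: `cor_of_Fbs` for both terms; `D0 = mat d0`, `D1 = mat d1`; `d10`, `d01`: `mat_comp`, `mat_zero`; `ex0`: for `v` with `D0 v = 0` take `x = c0.e.symm v`, `d0 x = 0`
  (`mat_apply`), `Dom.ex0` gives `s ∉ P.I`, `d1 y = iot s • x`; `u = c1.e y` (`sm`).
* `rep_iso`: `U0 = c0.mat c0' id`, `U0' = c0'.mat c0 id`, ...; `mat_comp`, `mat_id`.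
* `rep_ses`: `i0 = mat ι0`, `q0 = mat π0`, ..., `ses_split` in both degrees, `e0 = R1 * D0' * T0`, `e1 = R0 * D1' * T1`; `U0 = fromCols i0 T0`, `V0 = fromRows R0 q0`. The block form:
  `D0' * U0 = U1 * fromBlocks D0 e0 0 D0''`: `D0' i0 = i1 D0`; `D0' T0 = (i1 R1 + T1 q1) D0' T0 = i1 e0 + T1 D0'' q0 T0 = i1 e0 + T1 D0''`.
* `rep_zero`: frames `B0`, `B1` with all weights `m` from `cor_of_Fbs`; the complex `N` with these coordinates is isomorphic to `M` (`rep_iso`), and it is exact over `S`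
  (`Acy`), so `contr_const` applies; transport the contraction to `M` by the isomorphism (`Hm.mul`, `MSK.IsC.conj`).
-/

set_option autoImplicit false
set_option linter.unusedSectionVars false

noncomputable section

namespace MSV

open MvPolynomial Pool.Agent Matrix MSA

universe u v

variable {D : MSA.Dat.{u}}

private theorem exq_of {X X' : Type u} [AddCommGroup X] [Module D.R X] [AddCommGroup X']
    [Module D.R X'] {A A' : Fr D} (c : Cor A X) (c' : Cor A' X') (f : X →ₗ[D.R] X')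
    (g : X' →ₗ[D.R] X) (P : MSX.HP D.p D.L)
    (h : ∀ x, f x = 0 → ∃ s : D.S, s ∉ P.I ∧ ∃ y, g y = iot D.ph s • x) :
    Exq P (c.mat c' f) (c'.mat c g) := by
  intro v hv
  have h1 : f (c.e.symm v) = 0 := by
    apply c'.e.injective
    rw [c.mat_apply c', c.e.apply_symm_apply, hv, map_zero]
  obtain ⟨s, hs, y, hy⟩ := h _ h1
  refine ⟨s, hs, c'.e y, ?_⟩
  rw [← c'.mat_apply c, hy]
  funext i
  rw [c.sm, c.e.apply_symm_apply]
  rfl

private theorem mat_sq {X X' : Type u} [AddCommGroup X] [Module D.R X] [AddCommGroup X']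
    [Module D.R X'] {A A' : Fr D} (c : Cor A X) (c' : Cor A' X') (f : X →ₗ[D.R] X')
    (g : X' →ₗ[D.R] X) (h : ∀ x, g (f x) = 0) : c'.mat c g * c.mat c' f = 0 := by
  rw [← Cor.mat_comp, show g ∘ₗ f = 0 from LinearMap.ext h, Cor.mat_zero]

/-- the matrix complex given by coordinates -/
private def mcOf {X : Ch.{u} D.R} (h : D.Dom X) {A0 A1 : Fr D} (c0 : Cor A0 X.X0)
    (c1 : Cor A1 X.X1) : Mc D where
  A0 := A0
  A1 := A1
  D0 := c0.mat c1 X.d0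
  D1 := c1.mat c0 X.d1
  h0 := c0.mat_hm c1 X.d0
  h1 := c1.mat_hm c0 X.d1
  d10 := mat_sq c0 c1 X.d0 X.d1 X.h10
  d01 := mat_sq c1 c0 X.d1 X.d0 X.h01
  ex0 := fun P => exq_of c0 c1 X.d0 X.d1 P (h.ex0 P)
  ex1 := fun P => exq_of c1 c0 X.d1 X.d0 P (h.ex1 P)

theorem exists_rep {X : Ch.{u} D.R} (h : D.Dom X) : ∃ M : Mc D, Nonempty (Rep M X) := by
  obtain ⟨r0, ⟨b0⟩⟩ := h.f0
  obtain ⟨r1, ⟨b1⟩⟩ := h.f1
  obtain ⟨A0, -, -, ⟨c0⟩⟩ := cor_of_Fbs b0
  obtain ⟨A1, -, -, ⟨c1⟩⟩ := cor_of_Fbs b1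
  exact ⟨mcOf h c0 c1, ⟨⟨c0, c1, rfl, rfl⟩⟩⟩

private theorem fiso_id {X : Type u} [AddCommGroup X] [Module D.R X] {A A' : Fr D} (c : Cor A X)
    (c' : Cor A' X) : FIso A A' (c.mat c' LinearMap.id) (c'.mat c LinearMap.id) where
  h := c.mat_hm c' _
  h' := c'.mat_hm c _
  m := by rw [← Cor.mat_comp, LinearMap.comp_id, Cor.mat_id]
  m' := by rw [← Cor.mat_comp, LinearMap.comp_id, Cor.mat_id]

private theorem id_comm {X Y : Type u} [AddCommGroup X] [Module D.R X] [AddCommGroup Y]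
    [Module D.R Y] {A A' B B' : Fr D} (c : Cor A X) (c' : Cor A' X) (b : Cor B Y) (b' : Cor B' Y)
    (f : X →ₗ[D.R] Y) :
    c'.mat b' f * c.mat c' LinearMap.id = b.mat b' LinearMap.id * c.mat b f := by
  rw [← Cor.mat_comp, ← Cor.mat_comp, LinearMap.comp_id, LinearMap.id_comp]

theorem rep_iso {X : Ch.{u} D.R} {M M' : Mc D} (r : Rep M X) (r' : Rep M' X) : M.Iso M' := by
  refine ⟨r.c0.mat r'.c0 LinearMap.id, r'.c0.mat r.c0 LinearMap.id,
    r.c1.mat r'.c1 LinearMap.id, r'.c1.mat r.c1 LinearMap.id, fiso_id _ _, fiso_id _ _, ?_, ?_⟩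
  · rw [← r'.h0, ← r.h0]
    exact id_comm _ _ _ _ _
  · rw [← r'.h1, ← r.h1]
    exact id_comm _ _ _ _ _

private theorem ses_deg {X X' X'' : Type u} [AddCommGroup X] [Module D.R X] [AddCommGroup X']
    [Module D.R X'] [AddCommGroup X''] [Module D.R X''] {A A' A'' : Fr D} (c : Cor A X)
    (c' : Cor A' X') (c'' : Cor A'' X'') (f : X →ₗ[D.R] X') (g : X' →ₗ[D.R] X'')
    (hf : Function.Injective f) (hg : Function.Surjective g)
    (he : ∀ y, g y = 0 ↔ ∃ x, f x = y) :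
    ∃ (T : Matrix A'.ι A''.ι D.S) (R : Matrix A.ι A'.ι D.S), Hm A'' A' T ∧ Hm A' A R ∧
      c'.mat c'' g * T = 1 ∧ c'.mat c'' g * c.mat c' f = 0 ∧ R * c.mat c' f = 1 ∧ R * T = 0 ∧
      c.mat c' f * R + T * c'.mat c'' g = 1 := by
  refine ses_split (c.mat_hm c' f) (c'.mat_hm c'' g) ?_ ?_ ?_
  · intro v hv
    have h1 : f (c.e.symm v) = 0 := by
      apply c'.e.injective
      rw [c.mat_apply c', c.e.apply_symm_apply, hv, map_zero]
    have h2 : c.e.symm v = 0 := hf (by rw [h1, map_zero])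
    rw [← c.e.apply_symm_apply v, h2, map_zero]
  · intro w
    obtain ⟨x, hx⟩ := hg (c''.e.symm w)
    refine ⟨c'.e x, ?_⟩
    rw [← c'.mat_apply c'', hx, c''.e.apply_symm_apply]
  · intro v
    have h1 : c'.mat c'' g *ᵥ v = c''.e (g (c'.e.symm v)) := by
      rw [c'.mat_apply c'', c'.e.apply_symm_apply]
    rw [h1, map_eq_zero_iff _ c''.e.injective, he]
    constructor
    · rintro ⟨x, hx⟩
      refine ⟨c.e x, ?_⟩
      rw [← c.mat_apply c', hx, c'.e.apply_symm_apply]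
    · rintro ⟨w, hw⟩
      refine ⟨c.e.symm w, ?_⟩
      apply c'.e.injective
      rw [c.mat_apply c', c.e.apply_symm_apply, hw, c'.e.apply_symm_apply]

/-- the map on the middle term in terms of the splittings -/
private theorem key {S : Type*} [CommRing S] {b c a' b' c' : Type*} [Fintype b]
    [Fintype c] [Fintype a'] [Fintype b'] [Fintype c'] [DecidableEq b'] [DecidableEq c]
    {q0 : Matrix c b S} {T0 : Matrix b c S}
    {i1 : Matrix b' a' S} {R1 : Matrix a' b' S} {q1 : Matrix c' b' S} {T1 : Matrix b' c' S}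
    {D' : Matrix b' b S} {D'' : Matrix c' c S} (hq : q1 * D' = D'' * q0) (h0 : q0 * T0 = 1)
    (h1 : i1 * R1 + T1 * q1 = 1) : D' * T0 = i1 * (R1 * D' * T0) + T1 * D'' := by
  calc D' * T0 = (i1 * R1 + T1 * q1) * D' * T0 := by rw [h1, Matrix.one_mul]
    _ = i1 * (R1 * D' * T0) + T1 * (q1 * D') * T0 := by
      simp only [Matrix.add_mul, Matrix.mul_assoc]
    _ = i1 * (R1 * D' * T0) + T1 * D'' := by
      rw [hq]
      simp only [Matrix.mul_assoc]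
      rw [h0, Matrix.mul_one]

private theorem key2 {S : Type*} [CommRing S] {a b c a' b' c' : Type*} [Fintype a] [Fintype b]
    [Fintype c] [Fintype a'] [Fintype b'] [Fintype c'] [DecidableEq a']
    {i0 : Matrix b a S} {T0 : Matrix b c S} {e1 : Matrix a c' S} {e0 : Matrix a' c S}
    {i1 : Matrix b' a' S} {R1 : Matrix a' b' S} {T1 : Matrix b' c' S}
    {D0 : Matrix a' a S} {D0' : Matrix b' b S} {D1' : Matrix b b' S} {D0'' : Matrix c' c S}
    {D1'' : Matrix c c' S} (hi : D0' * i0 = i1 * D0) (hz : D0' * D1' = 0) (hz' : D0'' * D1'' = 0)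
    (hR : R1 * i1 = 1) (k0 : D0' * T0 = i1 * e0 + T1 * D0'')
    (k1 : D1' * T1 = i0 * e1 + T0 * D1'') : D0 * e1 + e0 * D1'' = 0 := by
  have h1 : i1 * (D0 * e1 + e0 * D1'') = 0 := by
    calc i1 * (D0 * e1 + e0 * D1'') =
        (i1 * D0) * e1 + (i1 * e0 + T1 * D0'') * D1'' - T1 * (D0'' * D1'') := by
          simp only [Matrix.mul_add, Matrix.add_mul, Matrix.mul_assoc]
          abel
      _ = D0' * (i0 * e1 + T0 * D1'') - T1 * (D0'' * D1'') := by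
          rw [← hi, ← k0]
          simp only [Matrix.mul_add, Matrix.mul_assoc]
      _ = 0 := by
          rw [← k1, ← Matrix.mul_assoc, hz, hz', Matrix.zero_mul, Matrix.mul_zero, sub_zero]
  calc D0 * e1 + e0 * D1'' = R1 * (i1 * (D0 * e1 + e0 * D1'')) := by
        rw [← Matrix.mul_assoc R1, hR, Matrix.one_mul]
    _ = 0 := by rw [h1, Matrix.mul_zero]

private theorem fiso_cols {A A' A'' : Fr D} {i : Matrix A'.ι A.ι D.S} {q : Matrix A''.ι A'.ι D.S}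
    {T : Matrix A'.ι A''.ι D.S} {R : Matrix A.ι A'.ι D.S} (hi : Hm A A' i) (hT : Hm A'' A' T)
    (h1 : q * T = 1) (h2 : q * i = 0) (h3 : R * i = 1) (h4 : R * T = 0)
    (h5 : i * R + T * q = 1) :
    FIso (A.sum A'') A' (Matrix.fromCols i T : Matrix A'.ι (A.ι ⊕ A''.ι) D.S)
      (Matrix.fromRows R q : Matrix (A.ι ⊕ A''.ι) A'.ι D.S) := by
  have m : (Matrix.fromCols i T : Matrix A'.ι (A.ι ⊕ A''.ι) D.S) *
      (Matrix.fromRows R q : Matrix (A.ι ⊕ A''.ι) A'.ι D.S) = 1 := by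
    rw [Matrix.fromCols_mul_fromRows, h5]
  have m' : (Matrix.fromRows R q : Matrix (A.ι ⊕ A''.ι) A'.ι D.S) *
      (Matrix.fromCols i T : Matrix A'.ι (A.ι ⊕ A''.ι) D.S) = 1 := by
    rw [Matrix.fromRows_mul_fromCols, h1, h2, h3, h4, Matrix.fromBlocks_one]
  have h := hm_cols hi hT
  exact ⟨h, Hm.inv h m m', m, m'⟩

theorem rep_ses {X Y Z : Ch.{u} D.R} {M M' M'' : Mc D} (r : Rep M X) (r' : Rep M' Y)
    (r'' : Rep M'' Z) (s : Ch.Ses X Y Z) : M.Blk M' M'' := by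
  obtain ⟨T0, R0, hT0, hR0, a1, a2, a3, a4, a5⟩ :=
    ses_deg r.c0 r'.c0 r''.c0 s.i.f0 s.q.f0 s.inj0 s.sur0 s.ex0
  obtain ⟨T1, R1, hT1, hR1, b1, b2, b3, b4, b5⟩ :=
    ses_deg r.c1 r'.c1 r''.c1 s.i.f1 s.q.f1 s.inj1 s.sur1 s.ex1
  have hi0 := r.c0.mat_hm r'.c0 s.i.f0
  have hi1 := r.c1.mat_hm r'.c1 s.i.f1
  have ci0 : M'.D0 * r.c0.mat r'.c0 s.i.f0 = r.c1.mat r'.c1 s.i.f1 * M.D0 := by
    rw [← r'.h0, ← r.h0, ← Cor.mat_comp, ← Cor.mat_comp]
    congr 1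
    exact LinearMap.ext s.i.c0
  have ci1 : M'.D1 * r.c1.mat r'.c1 s.i.f1 = r.c0.mat r'.c0 s.i.f0 * M.D1 := by
    rw [← r'.h1, ← r.h1, ← Cor.mat_comp, ← Cor.mat_comp]
    congr 1
    exact LinearMap.ext s.i.c1
  have cq0 : r'.c1.mat r''.c1 s.q.f1 * M'.D0 = M''.D0 * r'.c0.mat r''.c0 s.q.f0 := by
    rw [← r'.h0, ← r''.h0, ← Cor.mat_comp, ← Cor.mat_comp]
    congr 1
    exact LinearMap.ext fun x => (s.q.c0 x).symm
  have cq1 : r'.c0.mat r''.c0 s.q.f0 * M'.D1 = M''.D1 * r'.c1.mat r''.c1 s.q.f1 := by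
    rw [← r'.h1, ← r''.h1, ← Cor.mat_comp, ← Cor.mat_comp]
    congr 1
    exact LinearMap.ext fun x => (s.q.c1 x).symm
  generalize r.c0.mat r'.c0 s.i.f0 = i0 at *
  generalize r.c1.mat r'.c1 s.i.f1 = i1 at *
  generalize r'.c0.mat r''.c0 s.q.f0 = q0 at *
  generalize r'.c1.mat r''.c1 s.q.f1 = q1 at *
  have k0 := key cq0 a1 b5
  have k1 := key cq1 b1 a5
  refine ⟨R1 * M'.D0 * T0, R0 * M'.D1 * T1, Matrix.fromCols i0 T0, Matrix.fromRows R0 q0,
    Matrix.fromCols i1 T1, Matrix.fromRows R1 q1, (hR1.mul M'.h0).mul hT0, (hR0.mul M'.h1).mul hT1,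
    key2 ci0 M'.d01 M''.d01 b3 k0 k1, key2 ci1 M'.d10 M''.d10 a3 k1 k0,
    fiso_cols hi0 hT0 a1 a2 a3 a4 a5, fiso_cols hi1 hT1 b1 b2 b3 b4 b5, ?_, ?_⟩
  · rw [Matrix.mul_fromCols, Matrix.fromCols_mul_fromBlocks, Matrix.mul_zero, add_zero, ci0, ← k0]
  · rw [Matrix.mul_fromCols, Matrix.fromCols_mul_fromBlocks, Matrix.mul_zero, add_zero, ci1, ← k1]

theorem rep_zero {X : Ch.{u} D.R} {M : Mc D} (r : Rep M X) (m : ℤ) (hX : X.Acy)
    (h0 : D.IsO X.X0 m) (h1 : D.IsO X.X1 m) : M.Triv := by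
  obtain ⟨r0, b0, hb0⟩ := h0
  obtain ⟨r1, b1, hb1⟩ := h1
  obtain ⟨A0, f0, hn0, ⟨c0⟩⟩ := cor_of_Fbs b0
  obtain ⟨A1, f1, hn1, ⟨c1⟩⟩ := cor_of_Fbs b1
  obtain ⟨s0, s1, hs0, hs1, hC⟩ := contr_const (c0.mat_hm c1 X.d0) (c1.mat_hm c0 X.d1)
    (mat_sq c0 c1 X.d0 X.d1 X.h10) (mat_sq c1 c0 X.d1 X.d0 X.h01) m
    (fun i => by rw [hn0, hb0]) (fun i => by rw [hn1, hb1])
    (fun v hv => by
      obtain ⟨y, hy⟩ := hX.1 (c0.e.symm v) (by
        apply c1.e.injective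
        rw [c0.mat_apply c1, c0.e.apply_symm_apply, hv, map_zero])
      refine ⟨c1.e y, ?_⟩
      rw [← c1.mat_apply c0, hy, c0.e.apply_symm_apply])
    (fun v hv => by
      obtain ⟨y, hy⟩ := hX.2 (c1.e.symm v) (by
        apply c0.e.injective
        rw [c1.mat_apply c0, c1.e.apply_symm_apply, hv, map_zero])
      refine ⟨c0.e y, ?_⟩
      rw [← c0.mat_apply c1, hy, c1.e.apply_symm_apply])
  have g := fiso_id c0 r.c0
  have k := fiso_id c1 r.c1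
  have h := hC.conj _ _ _ _ g.m' g.m k.m' k.m
  have e0 : c1.mat r.c1 LinearMap.id * c0.mat c1 X.d0 * r.c0.mat c0 LinearMap.id = M.D0 := by
    rw [← r.h0, ← Cor.mat_comp, ← Cor.mat_comp, LinearMap.comp_id, LinearMap.id_comp]
  have e1 : c0.mat r.c0 LinearMap.id * c1.mat c0 X.d1 * r.c1.mat c1 LinearMap.id = M.D1 := by
    rw [← r.h1, ← Cor.mat_comp, ← Cor.mat_comp, LinearMap.comp_id, LinearMap.id_comp]
  rw [e0, e1] at h
  exact ⟨_, _, (k.h.mul hs0).mul g.h', (g.h.mul hs1).mul k.h', h⟩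

end MSV
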