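import Mathlib
import Pool.Agent.MSV.Rep

/-!
# CONV: from invariants of matrix complexes to additive functions on complexes of modules
-/

set_option autoImplicit false
set_option linter.unusedSectionVars false

noncomputable section

namespace MSV

open MvPolynomial Pool.Agent Matrix MSA

universe u v

variable {D : MSA.Dat.{u}}

/-- An invariant of matrix complexes gives an additive function on complexes of modules. -/
structure Inv (H : Type v) [AddCommGroup H] (G : Mc D → H) : Prop where
  iso : ∀ {M M' : Mc D}, M.Iso M' → G M = G M'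
  blk : ∀ {M M' M'' : Mc D}, M.Blk M' M'' → G M' = G M + G M''
  zero : ∀ {M : Mc D}, M.Triv → G M = 0

open Classical in
/-- the additive function of an invariant -/
def psiT (H : Type v) [AddCommGroup H] (G : Mc D → H) (hG : Inv H G) : PsiT D H where
  v X := if h : ∃ M : Mc D, Nonempty (Rep M X) then G h.choose else 0
  add := by
    intro X Y Z hX hY hZ s
    have h1 := exists_rep hX
    have h2 := exists_rep hY
    have h3 := exists_rep hZ
    simp only [dif_pos h1, dif_pos h2, dif_pos h3]
    obtain ⟨r1⟩ := h1.choose_spec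
    obtain ⟨r2⟩ := h2.choose_spec
    obtain ⟨r3⟩ := h3.choose_spec
    exact hG.blk (rep_ses r1 r2 r3 s)
  zero := by
    intro X n hX ha i0 i1
    have h1 := exists_rep hX
    simp only [dif_pos h1]
    obtain ⟨r1⟩ := h1.choose_spec
    exact hG.zero (rep_zero r1 n ha i0 i1)

theorem psiT_v (H : Type v) [AddCommGroup H] (G : Mc D → H) (hG : Inv H G) {X : Ch.{u} D.R}
    {M : Mc D} (r : Rep M X) : (psiT H G hG).v X = G M := by
  have h1 : ∃ M : Mc D, Nonempty (Rep M X) := ⟨M, ⟨r⟩⟩
  have h2 : (psiT H G hG).v X = G h1.choose := dif_pos h1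
  rw [h2]
  obtain ⟨r1⟩ := h1.choose_spec
  exact hG.iso (rep_iso r1 r)

end MSV
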