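import Mathlib
import Pool.Agent.MSV.Mc
import Pool.Agent.MSX.DecB

/-!
# CONV: standard frames, decomposition of frames, numbers of basis vectors

`St D n`: the standard frame of weight `n` (matrix `D.X.Bm n`); `fsum l` the direct sum of the `St D n`, `n ∈ l`; `cnt A m` the number of basis vectors of
weight `m`.

PROOFS.
* `fi_equiv`: `U j i = if j = e i then 1 else 0` (`Hs 0 1`, degree `n_i - n'_(e i) = 0`), `U' = Uᵀ`; `U` commutes with `τ` by `hB`.
* `fi_refl`, `fi_symm`, `fi_trans`, `fi_sum`: `hm_one`, `Hm.mul`, `hm_blocks`. `fi_assoc`, `fi_emp`: `fi_equiv` with `Equiv.sumAssoc`, `Equiv.emptySum`. `fsum_append`: induction on `l`.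
* `cnt_sum`: `Fintype.card_congr` (`Equiv.subtypeSum`), `cnt_fsum`: induction on `l`, `cnt (St D n) m = dm p n` if `n = m`, else `0`.
* `cnt_iso`: let `T₀`, `T₀'` be the matrices of constant coefficients (`MvPolynomial.constantCoeff`) of `U`, `U'`: inverse to each other, `(T₀) j i = 0` unless
  `n_i = n'_j` (`Hs`). So for every `m` the blocks with `n_i = m`, `n'_j = m` are inverse to each other, and square (`Matrix.square_of_invertible` / `Fintype.card` from
  `LinearEquiv`, e.g. `Matrix.toLin'` and `LinearEquiv.finrank_eq`).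
-/

set_option autoImplicit false
set_option linter.unusedSectionVars false

noncomputable section

namespace MSV

open MvPolynomial Pool.Agent Matrix

universe u

variable (D : MSA.Dat.{u})

/-- the standard frame -/
def St (n : ℤ) : Fr D where
  ι := Fin (MSX.dm D.p n)
  n := fun _ => n
  B := D.X.Bm n
  hn := fun _ _ h => absurd rfl h
  hB := by
    have h := D.X.bm_iter n
    refine h.trans ?_
    rw [Matrix.smul_one_eq_diagonal]

/-- the empty frame -/
def empF : Fr D where
  ι := PEmpty
  n := fun i => i.elim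
  B := 0
  hn := fun i => i.elim
  hB := by
    ext i
    exact i.elim

/-- sums of standard frames -/
def fsum : List ℤ → Fr D
  | [] => empF D
  | n :: l => (St D n).sum (fsum l)

variable {D}

/-- number of basis vectors of weight `m` -/
def cnt (A : Fr D) (m : ℤ) : ℕ := Fintype.card {i : A.ι // A.n i = m}

/-- isomorphic frames -/
def FI (A A' : Fr D) : Prop := ∃ U U', FIso A A' U U'

/-- a bijection of the index sets compatible with the weights and the matrices -/
theorem fi_equiv {A A' : Fr D} (e : A.ι ≃ A'.ι) (hn : ∀ i, A'.n (e i) = A.n i)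
    (hB : ∀ i j, A'.B (e i) (e j) = A.B i j) : FI A A' := by
  let U : Matrix A'.ι A.ι D.S := Matrix.of fun j i => if j = e i then 1 else 0
  let U' : Matrix A.ι A'.ι D.S := Matrix.of fun i j => if j = e i then 1 else 0
  have hU : ∀ j i, U j i = if j = e i then 1 else 0 := fun _ _ => rfl
  have hU' : ∀ i j, U' i j = if j = e i then 1 else 0 := fun _ _ => rfl
  have h : Hm A A' U := by
    constructor
    · intro j i
      rw [hU]
      by_cases hj : j = e i
      · rw [if_pos hj, hj, hn, sub_self, ← map_one C]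
        exact hs_C 1
      · rw [if_neg hj]
        exact hs_zero _
    · ext1 j i
      obtain ⟨k, rfl⟩ := e.surjective j
      rw [Matrix.mul_apply, Matrix.mul_apply, Finset.sum_eq_single (e i), Finset.sum_eq_single k]
      · rw [Matrix.map_apply, Matrix.map_apply, Matrix.map_apply, hU, hU, if_pos rfl, if_pos rfl,
          map_one, mul_one, one_mul, hB]
      · intro l _ hl
        rw [hU, if_neg (fun h => hl (e.injective h).symm), zero_mul]
      · intro hk
        exact absurd (Finset.mem_univ k) hk
      · intro l _ hl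
        rw [Matrix.map_apply, Matrix.map_apply, hU, if_neg hl, map_zero, mul_zero]
      · intro hk
        exact absurd (Finset.mem_univ (e i)) hk
  have h1 : U * U' = 1 := by
    ext1 j k
    obtain ⟨i, rfl⟩ := e.surjective j
    rw [Matrix.mul_apply, Finset.sum_eq_single i]
    · rw [hU, hU', if_pos rfl, one_mul]
      by_cases hk : k = e i
      · rw [if_pos hk, hk, Matrix.one_apply_eq]
      · rw [if_neg hk, Matrix.one_apply_ne (fun h => hk h.symm)]
    · intro l _ hl
      rw [hU, if_neg (fun h => hl (e.injective h).symm), zero_mul]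
    · intro hk
      exact absurd (Finset.mem_univ i) hk
  have h2 : U' * U = 1 := by
    ext1 i k
    rw [Matrix.mul_apply, Finset.sum_eq_single (e i)]
    · rw [hU, hU', if_pos rfl, one_mul]
      by_cases hk : i = k
      · rw [hk, if_pos rfl, Matrix.one_apply_eq]
      · rw [if_neg (fun h => hk (e.injective h)), Matrix.one_apply_ne hk]
    · intro l _ hl
      rw [hU', if_neg hl, zero_mul]
    · intro hk
      exact absurd (Finset.mem_univ (e i)) hk
  exact ⟨U, U', h, h.inv h1 h2, h1, h2⟩

theorem fi_refl (A : Fr D) : FI A A :=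
  ⟨1, 1, hm_one A, hm_one A, Matrix.one_mul 1, Matrix.one_mul 1⟩

theorem fi_symm {A A' : Fr D} (h : FI A A') : FI A' A := by
  obtain ⟨U, U', h⟩ := h
  exact ⟨U', U, h.h', h.h, h.m', h.m⟩

theorem fi_trans {A A' A'' : Fr D} (h : FI A A') (h' : FI A' A'') : FI A A'' := by
  obtain ⟨U, U', h⟩ := h
  obtain ⟨V, V', h'⟩ := h'
  refine ⟨V * U, U' * V', h'.h.mul h.h, h.h'.mul h'.h', ?_, ?_⟩
  · rw [Matrix.mul_assoc, ← Matrix.mul_assoc U, h.m, Matrix.one_mul, h'.m]
  · rw [Matrix.mul_assoc, ← Matrix.mul_assoc V', h'.m', Matrix.one_mul, h.m']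

theorem fi_sum {A1 A2 B1 B2 : Fr D} (h : FI A1 B1) (h' : FI A2 B2) : FI (A1.sum A2) (B1.sum B2) := by
  obtain ⟨U, U', h⟩ := h
  obtain ⟨V, V', h'⟩ := h'
  refine ⟨Matrix.fromBlocks U 0 0 V, Matrix.fromBlocks U' 0 0 V',
    hm_blocks h.h (hm_zero _ _) (hm_zero _ _) h'.h,
    hm_blocks h.h' (hm_zero _ _) (hm_zero _ _) h'.h', ?_, ?_⟩
  · refine (Matrix.fromBlocks_multiply _ _ _ _ _ _ _ _).trans ?_
    simp only [Matrix.mul_zero, Matrix.zero_mul, add_zero, zero_add, h.m, h'.m]
    exact Matrix.fromBlocks_one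
  · refine (Matrix.fromBlocks_multiply _ _ _ _ _ _ _ _).trans ?_
    simp only [Matrix.mul_zero, Matrix.zero_mul, add_zero, zero_add, h.m', h'.m']
    exact Matrix.fromBlocks_one

theorem fi_assoc (A A' A'' : Fr D) : FI ((A.sum A').sum A'') (A.sum (A'.sum A'')) := by
  refine fi_equiv (A := (A.sum A').sum A'') (A' := A.sum (A'.sum A''))
    (Equiv.sumAssoc A.ι A'.ι A''.ι) ?_ ?_
  · rintro ((i | i) | i) <;> rfl
  · rintro ((i | i) | i) ((j | j) | j) <;> rfl

theorem fi_emp (A : Fr D) : FI A ((empF D).sum A) := by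
  refine fi_equiv (A := A) (A' := (empF D).sum A) (Equiv.emptySum PEmpty A.ι).symm ?_ ?_
  · intro i
    rfl
  · intro i j
    rfl

theorem fsum_append (l l' : List ℤ) : FI (fsum D (l ++ l')) ((fsum D l).sum (fsum D l')) := by
  induction l with
  | nil => exact fi_emp _
  | cons n l ih =>
    show FI ((St D n).sum (fsum D (l ++ l'))) (((St D n).sum (fsum D l)).sum (fsum D l'))
    exact fi_trans (fi_sum (fi_refl _) ih) (fi_symm (fi_assoc _ _ _))

theorem cnt_sum (A A' : Fr D) (m : ℤ) : cnt (A.sum A') m = cnt A m + cnt A' m := by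
  rw [cnt, cnt, cnt, ← Fintype.card_sum]
  exact Fintype.card_congr (Equiv.subtypeSum (α := A.ι) (β := A'.ι)
    (p := fun i => Sum.elim A.n A'.n i = m))

theorem cnt_fsum (l : List ℤ) (m : ℤ) : cnt (fsum D l) m = MSX.dm D.p m * l.count m := by
  induction l with
  | nil =>
    rw [List.count_nil, mul_zero, cnt, Fintype.card_eq_zero_iff]
    exact ⟨fun i => i.1.elim⟩
  | cons n l ih =>
    show cnt ((St D n).sum (fsum D l)) m = _
    rw [cnt_sum, ih, List.count_cons]
    by_cases h : n = m
    · subst h
      have h1 : cnt (St D n) n = MSX.dm D.p n := by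
        rw [cnt]
        refine (Fintype.card_congr (Equiv.subtypeUnivEquiv (α := Fin (MSX.dm D.p n))
          (p := fun _ => n = n) fun _ => rfl)).trans ?_
        exact Fintype.card_fin _
      rw [h1]
      simp only [beq_self_eq_true, if_true]
      ring
    · have h1 : cnt (St D n) m = 0 := by
        rw [cnt, Fintype.card_eq_zero_iff]
        exact ⟨fun i => h i.2⟩
      rw [h1, if_neg (by simpa using h)]
      ring

theorem cnt_iso {A A' : Fr D} (h : FI A A') (m : ℤ) : cnt A m = cnt A' m := by
  obtain ⟨U, U', h⟩ := h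
  have key : ∀ {A A' : Fr D} {U : Matrix A'.ι A.ι D.S} {U' : Matrix A.ι A'.ι D.S},
      FIso A A' U U' → (Matrix.of fun (j : {j : A'.ι // A'.n j = m}) (i : {i : A.ι // A.n i = m}) =>
        constantCoeff (U j.1 i.1)) * (Matrix.of fun (i : {i : A.ι // A.n i = m})
          (j : {j : A'.ι // A'.n j = m}) => constantCoeff (U' i.1 j.1)) = 1 := by
    intro A A' U U' h
    ext1 j k
    rw [Matrix.mul_apply]
    have e1 : ∀ i : A.ι, ¬ A.n i = m → constantCoeff (U j.1 i) * constantCoeff (U' i k.1) = 0 := by
      intro i hi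
      have h1 : constantCoeff (U j.1 i) = 0 := by
        by_contra h2
        have h3 := h.h.deg j.1 i 0 h2
        rw [map_zero, j.2] at h3
        omega
      rw [h1, zero_mul]
    have e2 : ∑ i : A.ι, constantCoeff (U j.1 i) * constantCoeff (U' i k.1) =
        ∑ i : {i : A.ι // A.n i = m}, constantCoeff (U j.1 i.1) * constantCoeff (U' i.1 k.1) := by
      refine (Fintype.sum_of_injective (Subtype.val : {i : A.ι // A.n i = m} → A.ι)
        Subtype.val_injective _ _ ?_ fun i => rfl).symm
      intro i hi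
      exact e1 i fun h1 => hi ⟨⟨i, h1⟩, rfl⟩
    have e3 : ∑ i : A.ι, constantCoeff (U j.1 i) * constantCoeff (U' i k.1) =
        constantCoeff ((U * U') j.1 k.1) := by
      rw [Matrix.mul_apply, map_sum]
      exact Finset.sum_congr rfl fun i _ => (map_mul _ _ _).symm
    refine (e2.symm.trans e3).trans ?_
    rw [h.m]
    by_cases hk : j = k
    · rw [hk, Matrix.one_apply_eq, Matrix.one_apply_eq, map_one]
    · rw [Matrix.one_apply_ne hk, Matrix.one_apply_ne (fun h => hk (Subtype.ext h)), map_zero]
  exact Matrix.square_of_invertible _ _ (key ⟨h.h', h.h, h.m', h.m⟩) (key h)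

end MSV
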