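import Mathlib
import Pool.Agent.MSV.St

/-!
# CONV: every frame is isomorphic to a sum of standard frames

PROOFS.
* `one_weight`: `V = A.ι → L` with `τ = D.X.tau A.B` is `IsTau m` (`MSX.Dat.tau_smul`; `pw`: `MSX.Dat.tau_iter` and `A.hB`, as in the private `anb_pow` in `MSX/AnB`), `D.X.exists_std D.hd` gives a basis `e` indexed
  by `Fin r × Fin (dm p m)` with `τ e(i,j) = ∑_k Bm k j e(i,k)`. Let `pwF r m` be the frame with index type `Fin r × Fin (dm p m)`, all weights `m`, matrix `((i,k),(i',j)) ↦ if i = i' then Bm k j else 0`.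
  The matrix `E` with columns `e(i, j)` (over `L`, mapped by `C`) is an isomorphism from `pwF r m` to `A` (`fiso_basis`).
* `pwF_hB`: `itM` of this block diagonal matrix is block diagonal with blocks `itM (Bm m) k` (induction), `bm_iter`.
* `pw_fsum`: induction on `r`: `Fin (r+1) × J ≃ J ⊕ (Fin r × J)` (`fi_equiv`), `fi_sum`.
* `split_weight`: index types `{i // n i = m}` and `{i // n i ≠ m}` (`Equiv.sumCompl`), `B` is block diagonal by `hn`, so `itM` is block diagonal (compare `itM_blocks`), `fi_equiv`.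
* `exists_list`: strong induction on `Fintype.card A.ι`: if `A.ι` is empty, `A` is isomorphic to `fsum []` (`fi_equiv`); otherwise choose `i₀`, `m = A.n i₀`, `split_weight`; `one_weight`, `pw_fsum` for
  `A1`, induction hypothesis for `A2` (fewer indices), `fsum_append`.
-/

set_option autoImplicit false
set_option linter.unusedSectionVars false

noncomputable section

namespace MSV

open MvPolynomial Pool.Agent Matrix

universe u

variable {D : MSA.Dat.{u}}

private def lstB {M : Type*} [Zero M] (I : Type) {J : Type} [DecidableEq I]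
    (B : Matrix J J M) : Matrix (I × J) (I × J) M :=
  fun a b => if a.1 = b.1 then B a.2 b.2 else 0

private theorem lst_itM {M : Type*} [Field M] (s : M ≃+* M) {I J : Type} [Fintype I]
    [DecidableEq I] [Fintype J] [DecidableEq J] (B : Matrix J J M) (k : ℕ) :
    MSX.itM s (lstB I B) k = lstB I (MSX.itM s B k) := by
  induction k with
  | zero =>
    funext a b
    show (1 : Matrix (I × J) (I × J) M) a b = if a.1 = b.1 then (1 : Matrix J J M) a.2 b.2 else 0
    rw [Matrix.one_apply, Matrix.one_apply, ← ite_and]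
    congr 1
    exact propext Prod.ext_iff
  | succ k ih =>
    funext a b
    show (lstB I B * (MSX.itM s (lstB I B) k).map s) a b =
      if a.1 = b.1 then (B * (MSX.itM s B k).map s) a.2 b.2 else 0
    rw [ih, Matrix.mul_apply, Fintype.sum_prod_type, Finset.sum_eq_single a.1]
    · by_cases h : a.1 = b.1
      · rw [if_pos h, Matrix.mul_apply]
        refine Finset.sum_congr rfl fun c _ => ?_
        show (if a.1 = a.1 then B a.2 c else 0) *
          s (if a.1 = b.1 then MSX.itM s B k c b.2 else 0) = _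
        rw [if_pos rfl, if_pos h]
        rfl
      · rw [if_neg h]
        refine Finset.sum_eq_zero fun c _ => ?_
        show _ * s (if a.1 = b.1 then MSX.itM s B k c b.2 else 0) = 0
        rw [if_neg h, map_zero, mul_zero]
    · intro i _ hi
      refine Finset.sum_eq_zero fun c _ => ?_
      show (if a.1 = i then B a.2 c else 0) * _ = 0
      rw [if_neg (Ne.symm hi), zero_mul]
    · intro h
      exact absurd (Finset.mem_univ _) h

theorem pwF_hB (D : MSA.Dat.{u}) (r : ℕ) (m : ℤ) :
    MSX.itM D.s.toRingEquiv (fun (a b : Fin r × Fin (MSX.dm D.p m)) =>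
      if a.1 = b.1 then D.X.Bm m a.2 b.2 else 0) D.p = Matrix.diagonal (fun _ => D.X.bL ^ m) := by
  have h0 := lst_itM D.s.toRingEquiv (I := Fin r) (D.X.Bm m) D.p
  refine h0.trans ?_
  rw [D.X.bm_iter]
  ext a b
  rw [Matrix.diagonal_apply]
  show (if a.1 = b.1 then ((D.X.bL ^ m) • (1 : Matrix _ _ D.L)) a.2 b.2 else 0) = _
  rw [Matrix.smul_apply, Matrix.one_apply]
  by_cases h : a = b
  · subst h
    simp
  · rw [if_neg h]
    by_cases h1 : a.1 = b.1
    · rw [if_pos h1, if_neg (fun h2 => h (Prod.ext h1 h2)), smul_zero]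
    · rw [if_neg h1]

/-- `r` copies of the standard frame of weight `m` -/
def pwF (D : MSA.Dat.{u}) (r : ℕ) (m : ℤ) : Fr D where
  ι := Fin r × Fin (MSX.dm D.p m)
  n := fun _ => m
  B := fun a b => if a.1 = b.1 then D.X.Bm m a.2 b.2 else 0
  hn := fun _ _ h => absurd rfl h
  hB := pwF_hB D r m

/-- the first copy and the others -/
private def lstEq (r : ℕ) (J : Type) : Fin (r + 1) × J ≃ J ⊕ (Fin r × J) where
  toFun x := Fin.cases (motive := fun _ => J ⊕ (Fin r × J)) (Sum.inl x.2)
    (fun i => Sum.inr (i, x.2)) x.1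
  invFun := Sum.elim (fun j => (0, j)) (fun x => (x.1.succ, x.2))
  left_inv := by
    rintro ⟨i, j⟩
    induction i using Fin.cases with
    | zero => rfl
    | succ i => rfl
  right_inv := by
    rintro (j | ⟨i, j⟩) <;> rfl

theorem pw_fsum (r : ℕ) (m : ℤ) : FI (pwF D r m) (fsum D (List.replicate r m)) := by
  induction r with
  | zero =>
    have : IsEmpty (pwF D 0 m).ι := by
      show IsEmpty (Fin 0 × Fin (MSX.dm D.p m))
      infer_instance
    have : IsEmpty (fsum D (List.replicate 0 m)).ι := by
      show IsEmpty PEmpty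
      infer_instance
    exact fi_equiv (Equiv.equivOfIsEmpty _ _) (fun i => isEmptyElim i) (fun i => isEmptyElim i)
  | succ r ih =>
    have h1 : FI (pwF D (r + 1) m) ((St D m).sum (pwF D r m)) := by
      refine fi_equiv (lstEq r (Fin (MSX.dm D.p m))) ?_ ?_
      · rintro ⟨i, j⟩
        induction i using Fin.cases with
        | zero => rfl
        | succ i => rfl
      · rintro ⟨i, j⟩ ⟨i', j'⟩
        induction i using Fin.cases with
        | zero =>
          induction i' using Fin.cases with
          | zero =>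
            show D.X.Bm m j j' = if (0 : Fin (r + 1)) = 0 then D.X.Bm m j j' else 0
            rw [if_pos rfl]
          | succ i' =>
            show (0 : D.L) = if (0 : Fin (r + 1)) = i'.succ then D.X.Bm m j j' else 0
            rw [if_neg (Fin.succ_ne_zero _).symm]
        | succ i =>
          induction i' using Fin.cases with
          | zero =>
            show (0 : D.L) = if i.succ = (0 : Fin (r + 1)) then D.X.Bm m j j' else 0
            rw [if_neg (Fin.succ_ne_zero _)]
          | succ i' =>
            show (if i = i' then D.X.Bm m j j' else 0) =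
              if i.succ = i'.succ then D.X.Bm m j j' else 0
            simp only [Fin.succ_inj]
    exact fi_trans h1 (fi_sum (fi_refl _) ih)

theorem one_weight (A : Fr D) (m : ℤ) (h : ∀ i, A.n i = m) : ∃ r : ℕ, FI A (pwF D r m) := by
  have hB : MSX.itM D.s.toRingEquiv A.B D.p = (D.X.bL ^ m) • (1 : Matrix A.ι A.ι D.L) := by
    rw [A.hB, Matrix.smul_one_eq_diagonal]
    congr 1
    funext i
    rw [h]
  have hT : D.X.IsTau m (D.X.tau A.B) := by
    refine ⟨D.X.tau_smul _, fun v => ?_⟩
    rw [D.X.tau_iter, hB, Matrix.smul_mulVec, Matrix.one_mulVec]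
    congr 1
    funext i
    exact D.X.s_pow _
  obtain ⟨r, e, he⟩ := D.X.exists_std D.hd hT
  refine ⟨r, ?_⟩
  obtain ⟨E, hE⟩ : ∃ E : Matrix A.ι (Fin r × Fin (MSX.dm D.p m)) D.L,
      E = (Pi.basisFun D.L A.ι).toMatrix e := ⟨_, rfl⟩
  obtain ⟨E', hE'⟩ : ∃ E' : Matrix (Fin r × Fin (MSX.dm D.p m)) A.ι D.L,
      E' = e.toMatrix (Pi.basisFun D.L A.ι) := ⟨_, rfl⟩
  have hEE : E * E' = 1 := by
    rw [hE, hE']
    exact Module.Basis.toMatrix_mul_toMatrix_flip _ _
  have hEE' : E' * E = 1 := by
    rw [hE, hE']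
    exact Module.Basis.toMatrix_mul_toMatrix_flip _ _
  have hEa : ∀ a x, E a x = e x a := by
    intro a x
    rw [hE, Module.Basis.toMatrix_apply]
    simp
  have hτ : A.B * E.map D.s = E * lstB (Fin r) (D.X.Bm m) := by
    ext a x
    obtain ⟨i, j⟩ := x
    have h1 := congrFun (he i j) a
    rw [Finset.sum_apply] at h1
    rw [Matrix.mul_apply, Matrix.mul_apply]
    refine Eq.trans ?_ (h1.trans ?_)
    · rw [D.X.tau_apply, Matrix.mulVec, dotProduct]
      refine Finset.sum_congr rfl fun c _ => ?_
      rw [Matrix.map_apply, hEa]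
    · rw [Fintype.sum_prod_type, Finset.sum_eq_single i]
      · refine Finset.sum_congr rfl fun k _ => ?_
        rw [hEa, Pi.smul_apply, smul_eq_mul, mul_comm]
        show _ = e (i, k) a * (if i = i then D.X.Bm m k j else 0)
        rw [if_pos rfl]
      · intro i' _ hi
        refine Finset.sum_eq_zero fun k _ => ?_
        show E a (i', k) * (if i' = i then D.X.Bm m k j else 0) = 0
        rw [if_neg hi, mul_zero]
      · intro hi
        exact absurd (Finset.mem_univ _) hi
  have m1 : E.map (C : D.L →+* D.S) * E'.map (C : D.L →+* D.S) = 1 := by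
    rw [← Matrix.map_mul, hEE, Matrix.map_one _ (map_zero _) (map_one _)]
  have m2 : E'.map (C : D.L →+* D.S) * E.map (C : D.L →+* D.S) = 1 := by
    rw [← Matrix.map_mul, hEE', Matrix.map_one _ (map_zero _) (map_one _)]
  have hU : Hm (pwF D r m) A (E.map (C : D.L →+* D.S)) := by
    constructor
    · intro a x
      have h1 : (pwF D r m).n x - A.n a = 0 := by
        rw [h]
        exact sub_self m
      rw [h1]
      exact hs_C _
    · have h1 : (E.map (C : D.L →+* D.S)).map D.tauS = (E.map D.s).map (C : D.L →+* D.S) := by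
        ext1 a x
        exact D.tauS_C _
      show A.B.map (C : D.L →+* D.S) * (E.map (C : D.L →+* D.S)).map D.tauS =
        E.map (C : D.L →+* D.S) * (lstB (Fin r) (D.X.Bm m)).map (C : D.L →+* D.S)
      rw [h1, ← Matrix.map_mul, hτ, Matrix.map_mul]
  exact ⟨_, _, ⟨hU.inv m1 m2, hU, m2, m1⟩⟩

private theorem lst_sub {M : Type*} [Field M] (s : M ≃+* M) {I : Type} [Fintype I]
    [DecidableEq I] (B : Matrix I I M) (P : I → Prop) [DecidablePred P]
    (hP : ∀ i j, P i → ¬ P j → B i j = 0) (k : ℕ) :
    MSX.itM s (B.submatrix (Subtype.val : {i // P i} → I) Subtype.val) k =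
      (MSX.itM s B k).submatrix Subtype.val Subtype.val := by
  induction k with
  | zero =>
    ext i j
    show (1 : Matrix {i // P i} {i // P i} M) i j = (1 : Matrix I I M) i.1 j.1
    rw [Matrix.one_apply, Matrix.one_apply]
    congr 1
    exact propext Subtype.ext_iff
  | succ k ih =>
    ext i j
    show ((B.submatrix (Subtype.val : {i // P i} → I) Subtype.val) *
      (MSX.itM s (B.submatrix (Subtype.val : {i // P i} → I) Subtype.val) k).map s :
        Matrix {i // P i} {i // P i} M) i j = (B * (MSX.itM s B k).map s : Matrix I I M) i.1 j.1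
    rw [ih, Matrix.mul_apply, Matrix.mul_apply, ← (Equiv.sumCompl P).sum_comp,
      Fintype.sum_sum_type]
    have h1 : ∑ x : {x // ¬ P x}, B i.1 ((Equiv.sumCompl P) (Sum.inr x)) *
        (MSX.itM s B k).map s ((Equiv.sumCompl P) (Sum.inr x)) j.1 = 0 := by
      refine Finset.sum_eq_zero fun x _ => ?_
      rw [Equiv.sumCompl_apply_inr, hP _ _ i.2 x.2, zero_mul]
    rw [h1, add_zero]
    rfl

private theorem lst_diag {M I : Type*} [Zero M] [DecidableEq I] {P : I → Prop} (d : I → M) :
    (Matrix.diagonal d).submatrix (Subtype.val : {i // P i} → I) Subtype.val =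
      Matrix.diagonal (fun i : {i // P i} => d i.1) := by
  ext i j
  rw [Matrix.submatrix_apply, Matrix.diagonal_apply, Matrix.diagonal_apply]
  congr 1
  exact propext Subtype.ext_iff.symm

/-- a summand of a frame -/
private def lstF (A : Fr D) (P : A.ι → Prop) [DecidablePred P]
    (hP : ∀ i j, P i → ¬ P j → A.n i ≠ A.n j) : Fr D where
  ι := {i // P i}
  n := fun i => A.n i.1
  B := A.B.submatrix Subtype.val Subtype.val
  hn := fun i j h => A.hn i.1 j.1 h
  hB := by
    rw [lst_sub D.s.toRingEquiv A.B P (fun i j h1 h2 => A.hn i j (hP i j h1 h2)), A.hB]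
    exact lst_diag _

theorem split_weight (A : Fr D) (m : ℤ) : ∃ A1 A2 : Fr D, (∀ i, A1.n i = m) ∧
    Fintype.card A1.ι = cnt A m ∧ Fintype.card A1.ι + Fintype.card A2.ι = Fintype.card A.ι ∧
    FI A (A1.sum A2) := by
  refine ⟨lstF A (fun i => A.n i = m) (fun i j h1 h2 h3 => h2 (h3.symm.trans h1)),
    lstF A (fun i => ¬ A.n i = m) (fun i j h1 h2 h3 => h1 (h3.trans (not_not.1 h2))), ?_, ?_, ?_, ?_⟩
  · exact fun i => i.2
  · rfl
  · rw [← Fintype.card_congr (Equiv.sumCompl (fun i => A.n i = m)), Fintype.card_sum]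
    rfl
  · refine fi_symm (fi_equiv (Equiv.sumCompl (fun i => A.n i = m)) ?_ ?_)
    · rintro (i | i) <;> rfl
    · rintro (i | i) (j | j)
      · rfl
      · exact A.hn _ _ (fun h => j.2 (h.symm.trans i.2))
      · exact A.hn _ _ (fun h => i.2 (h.trans j.2))
      · rfl

theorem exists_list (A : Fr D) : ∃ l : List ℤ, FI A (fsum D l) := by
  have key : ∀ (N : ℕ) (A : Fr D), Fintype.card A.ι < N → ∃ l : List ℤ, FI A (fsum D l) := by
    intro N
    induction N with
    | zero => exact fun A h => absurd h (Nat.not_lt_zero _)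
    | succ N ih =>
      intro A hA
      rcases isEmpty_or_nonempty A.ι with hE | ⟨⟨i₀⟩⟩
      · have : IsEmpty (fsum D []).ι := by
          show IsEmpty PEmpty
          infer_instance
        exact ⟨[], fi_equiv (Equiv.equivOfIsEmpty _ _) (fun i => isEmptyElim i)
          (fun i => isEmptyElim i)⟩
      · obtain ⟨A1, A2, h1, h2, h3, h4⟩ := split_weight A (A.n i₀)
        have h5 : 0 < cnt A (A.n i₀) := Fintype.card_pos_iff.2 ⟨⟨i₀, rfl⟩⟩
        obtain ⟨r, hr⟩ := one_weight A1 (A.n i₀) h1
        obtain ⟨l, hl⟩ := ih A2 (by omega)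
        refine ⟨List.replicate r (A.n i₀) ++ l, ?_⟩
        exact fi_trans h4 (fi_trans (fi_sum (fi_trans hr (pw_fsum r _)) hl)
          (fi_symm (fsum_append _ _)))
  exact key _ A (Nat.lt_succ_self _)

/-- the number of standard summands of weight `m` -/
def rk (A : Fr D) : ℤ →₀ ℤ :=
  ∑ m ∈ Finset.univ.image A.n, Finsupp.single m ((cnt A m / MSX.dm D.p m : ℕ) : ℤ)

theorem rk_apply (A : Fr D) (m : ℤ) : rk A m = ((cnt A m / MSX.dm D.p m : ℕ) : ℤ) := by
  rw [rk, Finsupp.finsetSum_apply]
  by_cases h : m ∈ Finset.univ.image A.n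
  · rw [Finset.sum_eq_single m]
    · rw [Finsupp.single_eq_same]
    · intro m' _ hm
      exact Finsupp.single_eq_of_ne (Ne.symm hm)
    · exact fun h1 => absurd h h1
  · rw [Finset.sum_eq_zero]
    · have h0 : cnt A m = 0 := by
        rw [cnt, Fintype.card_eq_zero_iff]
        refine ⟨fun i => h (Finset.mem_image.2 ⟨i.1, Finset.mem_univ _, i.2⟩)⟩
      rw [h0, Nat.zero_div, Nat.cast_zero]
    · intro m' hm'
      refine Finsupp.single_eq_of_ne ?_
      rintro rfl
      exact h hm'

private theorem dm_pos (D : MSA.Dat.{u}) (m : ℤ) : 0 < MSX.dm D.p m := by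
  unfold MSX.dm
  split_ifs
  · exact one_pos
  · exact D.X.hp.pos

theorem dm_dvd_cnt (A : Fr D) (m : ℤ) : MSX.dm D.p m ∣ cnt A m := by
  obtain ⟨l, hl⟩ := exists_list A
  rw [cnt_iso hl, cnt_fsum]
  exact Dvd.intro _ rfl

theorem rk_iso {A A' : Fr D} (h : FI A A') : rk A = rk A' := by
  ext m
  rw [rk_apply, rk_apply, cnt_iso h]

theorem rk_sum (A A' : Fr D) : rk (A.sum A') = rk A + rk A' := by
  ext m
  rw [Finsupp.add_apply, rk_apply, rk_apply, rk_apply, cnt_sum,
    Nat.add_div_of_dvd_right (dm_dvd_cnt A m), Nat.cast_add]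

theorem rk_fsum (l : List ℤ) : rk (fsum D l) = (l.map fun n => Finsupp.single n (1 : ℤ)).sum := by
  ext m
  rw [rk_apply, cnt_fsum, Nat.mul_div_cancel_left _ (dm_pos D m)]
  induction l with
  | nil => rfl
  | cons n l ih =>
    rw [List.map_cons, List.sum_cons, Finsupp.add_apply, ← ih, List.count_cons, Nat.cast_add,
      add_comm]
    congr 1
    by_cases h : n = m
    · subst h
      simp
    · rw [Finsupp.single_eq_of_ne (Ne.symm h)]
      simp [h]

end MSV
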