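import Mathlib
import Pool.Agent.MSV.ExK
import Pool.Agent.MSV.Mc
import Pool.Agent.MSX.Obs

/-!
# CONV: the objects (lattices at all places) of frames and the complexes over `K` of matrix complexes

Places: `P : HP p L`, `D.X.em P : K → kP P ((t))` the restriction of `phi P` (`MSX/Obs`; `kQ` is `D.X.K.subtype`). `obG A G G'`: the lattice at `P` is generated by the columns of `phi P (G')`,
`G' = G⁻¹`; `ob A` is the case `G = Om`. `Bas A G G'`: the columns of `G` form a `K`-basis of the invariants of degree `0`.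

PROOFS.
* `LI_ob`: `(kmat T).map em = phi(Oi' T Om) = phi(Oi') * (T.map (psi P)).map iO * phi(Om)` (`kmat_Q`, `MSX.phi_alg`; `MSX.cs` and `MSK.iO` are both
  `HahnSeries.ofPowerSeries`), so `M₀ = T.map (psi P)`.
* `ob_iso`: `kmat_mul`, `kmat_one`, `LI_ob`.
* `bas_unique`: `Om_unique` gives `G = Om * N`; the proof of `Om_unique` shows that every matrix `H` with `B σ(H) = H` and degrees `-n_i` is `Om * (matrix over K)`; for `N'`: `G' * Om` is fixed by `σ`
  (`σ(G') = G' B`, from `B σ(G) = G`; `σ(Om) = B⁻¹ Om`) and of degree `0` (entries of `N = Oi * G` lie in `K` and `N' = N⁻¹`: simply take the inverse matrix of `N` over the field `K`,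
  `det N ≠ 0` because `N.map kQ = Oi * G` is invertible; then `N'.map kQ` is the inverse of `N.map kQ`, which is `G' * Om`).
* `obG_iso`: coordinates `v` in `Om`, `w` in `G`: `Om v = G w`, `w = N' v` (`G = Om N`). `LI`: `N'.map em = phi(G') * 1 * phi(Om)`, `N.map em = phi(Oi) * 1 * phi(G)`.
* `obG_eq`: the lattices are equal units of the matrix ring: `Units.ext` after inverting (the inverse of both is `G.map (phi P)`).
* `obG_sum`, `ob_sum`: `bd` of the lattices is `obG (A.sum A') (fromBlocks Om 0 0 Om') (fromBlocks Oi 0 0 Oi')` (equality of units: `Units.ext`, `Matrix.fromBlocks_map`), which is `Bas`; `obG_iso`.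
* `sum_kmat`: apply the injective `kQ` (`Matrix.map`): left `diag(Oi_B) Om_B⊕ Oi_B⊕ T Om_A⊕ = diag(Oi_B) T Om_A⊕`, right `(diag(Oi_B) T diag(Om_A)) diag(Oi_A) Om_A⊕` (`kmat_Q`, `hm_blocks`, `Matrix.fromBlocks_multiply`).
* `toCX_con`: `exists_Q`, `exists_K`. `toCX_loc`: `exists_psi`, `MSK.IsC.map (iO)`, `MSK.IsC.conj` with `g = phi(Oi_0)`, `g' = phi(Om_0)`, `k = phi(Oi_1)`, `k' = phi(Om_1)`; the conjugated matrices are
  `(kmat D0).map em`, `(kmat D1).map em` (as in `LI_ob`).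
-/

set_option autoImplicit false
set_option linter.unusedSectionVars false

noncomputable section

namespace MSV

open MvPolynomial Pool.Agent Matrix

universe u

variable {D : MSA.Dat.{u}}

/-- `G` is a `K`-basis of the invariants of degree `0`, `G'` its inverse -/
structure Bas (A : Fr D) (G G' : Matrix A.ι A.ι (Qf D)) : Prop where
  m : G * G' = 1
  m' : G' * G = 1
  tau : A.B.map (cL D) * G.map D.X.sigQ = G
  deg : ∀ i j, Hd D (-A.n i) (G i j)

theorem bas_Om (A : Fr D) : Bas A A.Om A.Oi := ⟨A.Om_Oi, A.Oi_Om, A.Om_tau, A.Om_deg⟩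

private theorem ob_kQ_inj {α β : Type*} {M N : Matrix α β D.X.K} (h : M.map kQ = N.map kQ) :
    M = N :=
  Matrix.map_injective (f := kQ) (Subtype.val_injective : Function.Injective (kQ (D := D))) h

private theorem ob_kQ_one {ι : Type*} [DecidableEq ι] :
    (1 : Matrix ι ι D.X.K).map kQ = 1 :=
  Matrix.map_one _ (map_zero _) (map_one _)

theorem bas_unique {A : Fr D} {G G' : Matrix A.ι A.ι (Qf D)} (h : Bas A G G') :
    ∃ N N' : Matrix A.ι A.ι D.X.K, N * N' = 1 ∧ N' * N = 1 ∧ N.map kQ = A.Oi * G ∧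
      N'.map kQ = G' * A.Om := by
  obtain ⟨N, hN⟩ := Om_unique A G h.tau h.deg
  have h1 : N.map kQ = A.Oi * G := by
    rw [hN, ← Matrix.mul_assoc, A.Oi_Om, Matrix.one_mul]
  have h2 : N.map kQ * (G' * A.Om) = 1 := by
    rw [h1, Matrix.mul_assoc, ← Matrix.mul_assoc G, h.m, Matrix.one_mul, A.Oi_Om]
  have hdet : N.det ≠ 0 := by
    intro h0
    have h3 := congrArg Matrix.det h2
    have h4 := RingHom.map_det (kQ (D := D)) N
    rw [RingHom.mapMatrix_apply] at h4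
    rw [Matrix.det_mul, ← h4, h0, map_zero, zero_mul, Matrix.det_one] at h3
    exact zero_ne_one h3
  have hu : IsUnit N.det := isUnit_iff_ne_zero.2 hdet
  refine ⟨N, N⁻¹, Matrix.mul_nonsing_inv _ hu, Matrix.nonsing_inv_mul _ hu, h1, ?_⟩
  calc (N⁻¹).map kQ = (N⁻¹).map kQ * (N.map kQ * (G' * A.Om)) := by rw [h2, Matrix.mul_one]
    _ = (N⁻¹ * N).map kQ * (G' * A.Om) := by rw [Matrix.map_mul, Matrix.mul_assoc]
    _ = G' * A.Om := by rw [Matrix.nonsing_inv_mul _ hu, ob_kQ_one, Matrix.one_mul]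

variable (D) in
/-- the residue fields at the places -/
abbrev kap (P : MSX.HP D.p D.L) : Type u := MSX.kP P

section perf

variable [PerfectField D.L]

/-- the object given by a matrix and its inverse -/
def obG (A : Fr D) (G G' : Matrix A.ι A.ι (Qf D)) (h : G * G' = 1) (h' : G' * G = 1) :
    MSK.Ob (kap D) where
  ι := A.ι
  b P := ⟨G'.map (MSX.phi P), G.map (MSX.phi P), by
      rw [← Matrix.map_mul, h', Matrix.map_one _ (map_zero _) (map_one _)], by
      rw [← Matrix.map_mul, h, Matrix.map_one _ (map_zero _) (map_one _)]⟩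

/-- the object of a frame -/
def ob (A : Fr D) : MSK.Ob (kap D) := obG A A.Om A.Oi A.Om_Oi A.Oi_Om

private theorem ob_phiS {α β : Type*} (T : Matrix α β D.S) (P : MSX.HP D.p D.L) :
    (T.map (iQ D)).map (MSX.phi P) = (T.map (MSX.psi P)).map (MSK.iO (kap D P)) := by
  refine funext fun i => funext fun j => ?_
  exact MSX.phi_alg P (T i j)

private theorem ob_em {α β : Type*} (N : Matrix α β D.X.K) (P : MSX.HP D.p D.L) :
    N.map (D.X.em P) = (N.map kQ).map (MSX.phi P) := rfl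

private theorem ob_kmat_em {A A' : Fr D} {T : Matrix A'.ι A.ι D.S} (h : Hm A A' T)
    (P : MSX.HP D.p D.L) : (kmat (A := A) (A' := A') T).map (D.X.em P) =
      A'.Oi.map (MSX.phi P) * (T.map (MSX.psi P)).map (MSK.iO (kap D P)) *
        A.Om.map (MSX.phi P) := by
  rw [ob_em, kmat_Q h, Matrix.map_mul, Matrix.map_mul, ob_phiS]

theorem LI_ob {A A' : Fr D} {T : Matrix A'.ι A.ι D.S} (h : Hm A A' T) (P : MSX.HP D.p D.L) :
    MSK.LI ((ob A').b P) ((ob A).b P) ((kmat (A := A) (A' := A') T).map (D.X.em P)) :=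
  ⟨T.map (MSX.psi P), ob_kmat_em h P⟩

theorem ob_iso {A A' : Fr D} {U : Matrix A'.ι A.ι D.S} {U' : Matrix A.ι A'.ι D.S}
    (h : FIso A A' U U') : MSK.IsoM D.X.em (ob A) (ob A') (kmat (A := A) (A' := A') U)
      (kmat (A := A') (A' := A) U') where
  hh' := by
    have h1 := kmat_mul (A := A') (A' := A) (A'' := A') h.h h.h'
    rw [h.m, kmat_one] at h1
    exact h1.symm
  h'h := by
    have h1 := kmat_mul (A := A) (A' := A') (A'' := A) h.h' h.h
    rw [h.m', kmat_one] at h1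
    exact h1.symm
  loc P := LI_ob h.h P
  loc' P := LI_ob h.h' P

private theorem ob_one_iO {ι : Type*} [DecidableEq ι] {k : Type*} [Field k] :
    (1 : Matrix ι ι (PowerSeries k)).map (MSK.iO k) = 1 :=
  Matrix.map_one _ (map_zero _) (map_one _)

/-- the same with explicit matrices -/
theorem obG_iso' {A : Fr D} {G G' : Matrix A.ι A.ι (Qf D)} (h : Bas A G G')
    {N N' : Matrix A.ι A.ι D.X.K} (h1 : N * N' = 1) (h2 : N' * N = 1) (h3 : N.map kQ = A.Oi * G)
    (h4 : N'.map kQ = G' * A.Om) : MSK.IsoM D.X.em (ob A) (obG A G G' h.m h.m') N' N where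
  hh' := h2
  h'h := h1
  loc P := by
    have h5 : N'.map (D.X.em P) = G'.map (MSX.phi P) *
        (1 : Matrix A.ι A.ι (PowerSeries (kap D P))).map (MSK.iO (kap D P)) *
          A.Om.map (MSX.phi P) := by
      rw [ob_em, h4, Matrix.map_mul, ob_one_iO, Matrix.mul_one]
    exact ⟨(1 : Matrix A.ι A.ι (PowerSeries (kap D P))), h5⟩
  loc' P := by
    have h5 : N.map (D.X.em P) = A.Oi.map (MSX.phi P) *
        (1 : Matrix A.ι A.ι (PowerSeries (kap D P))).map (MSK.iO (kap D P)) *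
          G.map (MSX.phi P) := by
      rw [ob_em, h3, Matrix.map_mul, ob_one_iO, Matrix.mul_one]
    exact ⟨(1 : Matrix A.ι A.ι (PowerSeries (kap D P))), h5⟩

theorem obG_iso {A : Fr D} {G G' : Matrix A.ι A.ι (Qf D)} (h : Bas A G G') :
    ∃ g g', MSK.IsoM D.X.em (ob A) (obG A G G' h.m h.m') g g' := by
  obtain ⟨N, N', h1, h2, h3, h4⟩ := bas_unique h
  exact ⟨N', N, obG_iso' h h1 h2 h3 h4⟩

theorem bas_sum {A A' : Fr D} {G G' : Matrix A.ι A.ι (Qf D)} {H H' : Matrix A'.ι A'.ι (Qf D)}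
    (h : Bas A G G') (h' : Bas A' H H') : Bas (A.sum A') (Matrix.fromBlocks G 0 0 H)
      (Matrix.fromBlocks G' 0 0 H') where
  m := by
    have h1 : Matrix.fromBlocks G 0 0 H * Matrix.fromBlocks G' 0 0 H' = 1 := by
      rw [Matrix.fromBlocks_multiply, h.m, h'.m]
      simp only [Matrix.mul_zero, Matrix.zero_mul, add_zero, zero_add]
      exact Matrix.fromBlocks_one
    exact h1
  m' := by
    have h1 : Matrix.fromBlocks G' 0 0 H' * Matrix.fromBlocks G 0 0 H = 1 := by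
      rw [Matrix.fromBlocks_multiply, h.m', h'.m']
      simp only [Matrix.mul_zero, Matrix.zero_mul, add_zero, zero_add]
      exact Matrix.fromBlocks_one
    exact h1
  tau := by
    have h1 : (Matrix.fromBlocks A.B 0 0 A'.B).map (cL D) *
        (Matrix.fromBlocks G 0 0 H).map D.X.sigQ = Matrix.fromBlocks G 0 0 H := by
      rw [Matrix.fromBlocks_map, Matrix.fromBlocks_map, Matrix.fromBlocks_multiply]
      simp only [Matrix.map_zero _ (map_zero (cL D)), Matrix.map_zero _ (map_zero D.X.sigQ),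
        Matrix.mul_zero, Matrix.zero_mul, add_zero, zero_add]
      rw [h.tau, h'.tau]
    exact h1
  deg := by
    rintro (i | i) (j | j)
    · exact h.deg i j
    · exact hd_zero _
    · exact hd_zero _
    · exact h'.deg i j

private theorem obG_sum_b {A A' : Fr D} {G G' : Matrix A.ι A.ι (Qf D)}
    {H H' : Matrix A'.ι A'.ι (Qf D)} (h : Bas A G G') (h' : Bas A' H H') (P : MSX.HP D.p D.L) :
    (obG (A.sum A') (Matrix.fromBlocks G 0 0 H) (Matrix.fromBlocks G' 0 0 H') (bas_sum h h').m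
      (bas_sum h h').m').b P = MSK.bd ((obG A G G' h.m h.m').b P) ((obG A' H H' h'.m h'.m').b P) := by
  apply Units.ext
  have h1 : (Matrix.fromBlocks G' 0 0 H').map (MSX.phi P) =
      Matrix.fromBlocks (G'.map (MSX.phi P)) 0 0 (H'.map (MSX.phi P)) := by
    rw [Matrix.fromBlocks_map, Matrix.map_zero _ (map_zero (MSX.phi P)),
      Matrix.map_zero _ (map_zero (MSX.phi P))]
  exact h1

theorem obG_sum {A A' : Fr D} {G G' : Matrix A.ι A.ι (Qf D)} {H H' : Matrix A'.ι A'.ι (Qf D)}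
    (h : Bas A G G') (h' : Bas A' H H') :
    obG (A.sum A') (Matrix.fromBlocks G 0 0 H) (Matrix.fromBlocks G' 0 0 H') (bas_sum h h').m
      (bas_sum h h').m' = (obG A G G' h.m h.m').sum (obG A' H H' h'.m h'.m') :=
  congrArg (fun b => (MSK.Ob.mk (A.ι ⊕ A'.ι) b : MSK.Ob (kap D)))
    (funext fun P => obG_sum_b h h' P)

theorem obG_eq {A : Fr D} {G G' : Matrix A.ι A.ι (Qf D)} (h : G * G' = 1) (h' : G' * G = 1)
    (hG : G.det ≠ 0) : obG A G G' h h' = MSX.Dat.ob G hG := by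
  refine congrArg (fun b => (MSK.Ob.mk A.ι b : MSK.Ob (kap D))) (funext fun P => ?_)
  rw [eq_inv_iff_mul_eq_one]
  apply Units.ext
  rw [Units.val_mul, Units.val_one]
  have h1 : G'.map (MSX.phi P) * G.map (MSX.phi P) = 1 := by
    rw [← Matrix.map_mul, h', Matrix.map_one _ (map_zero _) (map_one _)]
  exact h1

/-- `Om` of a sum, on `A.ι ⊕ A'.ι` -/
def omS (A A' : Fr D) : Matrix (A.ι ⊕ A'.ι) (A.ι ⊕ A'.ι) (Qf D) := (A.sum A').Om

/-- `Oi` of a sum, on `A.ι ⊕ A'.ι` -/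
def oiS (A A' : Fr D) : Matrix (A.ι ⊕ A'.ι) (A.ι ⊕ A'.ι) (Qf D) := (A.sum A').Oi

/-- `kmat` for sums, with the index types `_ ⊕ _` -/
def kmS {A1 A2 B1 B2 : Fr D} (T : Matrix (B1.ι ⊕ B2.ι) (A1.ι ⊕ A2.ι) D.S) :
    Matrix (B1.ι ⊕ B2.ι) (A1.ι ⊕ A2.ι) D.X.K := kmat (A := A1.sum A2) (A' := B1.sum B2) T

theorem ob_sum (A A' : Fr D) : ∃ (g g' : Matrix (A.ι ⊕ A'.ι) (A.ι ⊕ A'.ι) D.X.K),
    MSK.IsoM D.X.em (ob (A.sum A')) ((ob A).sum (ob A')) g g' ∧
    g.map kQ = Matrix.fromBlocks A.Oi 0 0 A'.Oi * omS A A' ∧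
    g'.map kQ = oiS A A' * Matrix.fromBlocks A.Om 0 0 A'.Om := by
  have hb := bas_sum (bas_Om A) (bas_Om A')
  obtain ⟨N, N', h1, h2, h3, h4⟩ := bas_unique hb
  have h := obG_iso' hb h1 h2 h3 h4
  refine ⟨N', N, ⟨h2, h1, fun P => ?_, fun P => ?_⟩, h4, h3⟩
  · have h5 := h.loc P
    rw [obG_sum_b (bas_Om A) (bas_Om A') P] at h5
    exact h5
  · have h5 := h.loc' P
    rw [obG_sum_b (bas_Om A) (bas_Om A') P] at h5
    exact h5

private theorem ob_dd {R : Type*} [CommRing R] {a b c d : Type*} [Fintype a] [Fintype b]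
    [Fintype c] [Fintype d] {a' b' c' d' : Type*} (P1 : Matrix a' a R) (P2 : Matrix b' b R)
    (T11 : Matrix a c R) (T12 : Matrix a d R) (T21 : Matrix b c R) (T22 : Matrix b d R)
    (Q1 : Matrix c c' R) (Q2 : Matrix d d' R) :
    Matrix.fromBlocks (P1 * T11 * Q1) (P1 * T12 * Q2) (P2 * T21 * Q1) (P2 * T22 * Q2) =
      Matrix.fromBlocks P1 0 0 P2 * Matrix.fromBlocks T11 T12 T21 T22 *
        Matrix.fromBlocks Q1 0 0 Q2 := by
  rw [Matrix.fromBlocks_multiply, Matrix.fromBlocks_multiply]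
  simp only [Matrix.mul_zero, Matrix.zero_mul, add_zero, zero_add]

/-- block matrices in the coordinates of a sum -/
theorem sum_kmat {A1 A2 B1 B2 : Fr D} {T11 : Matrix B1.ι A1.ι D.S} {T12 : Matrix B1.ι A2.ι D.S}
    {T21 : Matrix B2.ι A1.ι D.S} {T22 : Matrix B2.ι A2.ι D.S} (h11 : Hm A1 B1 T11)
    (h12 : Hm A2 B1 T12) (h21 : Hm A1 B2 T21) (h22 : Hm A2 B2 T22)
    (g : Matrix (A1.ι ⊕ A2.ι) (A1.ι ⊕ A2.ι) D.X.K)
    (hg : g.map kQ = Matrix.fromBlocks A1.Oi 0 0 A2.Oi * omS A1 A2)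
    (k : Matrix (B1.ι ⊕ B2.ι) (B1.ι ⊕ B2.ι) D.X.K)
    (hk : k.map kQ = Matrix.fromBlocks B1.Oi 0 0 B2.Oi * omS B1 B2) :
    (HMul.hMul k (kmS (A1 := A1) (A2 := A2) (B1 := B1) (B2 := B2)
        (Matrix.fromBlocks T11 T12 T21 T22)) : Matrix (B1.ι ⊕ B2.ι) (A1.ι ⊕ A2.ι) D.X.K) =
      HMul.hMul (Matrix.fromBlocks (kmat (A := A1) (A' := B1) T11) (kmat (A := A2) (A' := B1) T12)
        (kmat (A := A1) (A' := B2) T21) (kmat (A := A2) (A' := B2) T22)) g := by
  apply ob_kQ_inj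
  rw [Matrix.map_mul, Matrix.map_mul, hk, hg, Matrix.fromBlocks_map, kmat_Q h11, kmat_Q h12,
    kmat_Q h21, kmat_Q h22, ob_dd]
  have e1 : (kmS (A1 := A1) (A2 := A2) (B1 := B1) (B2 := B2)
      (Matrix.fromBlocks T11 T12 T21 T22)).map kQ = oiS B1 B2 *
        (Matrix.fromBlocks T11 T12 T21 T22).map (iQ D) * omS A1 A2 :=
    kmat_Q (hm_blocks h11 h12 h21 h22)
  have e2 : omS B1 B2 * oiS B1 B2 = 1 := (B1.sum B2).Om_Oi
  have e3 : (Matrix.fromBlocks A1.Om 0 0 A2.Om : Matrix (A1.ι ⊕ A2.ι) (A1.ι ⊕ A2.ι) (Qf D)) *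
      Matrix.fromBlocks A1.Oi 0 0 A2.Oi = 1 := by
    rw [Matrix.fromBlocks_multiply, A1.Om_Oi, A2.Om_Oi]
    simp only [Matrix.mul_zero, Matrix.zero_mul, add_zero, zero_add]
    exact Matrix.fromBlocks_one
  rw [e1, Matrix.fromBlocks_map]
  calc Matrix.fromBlocks B1.Oi 0 0 B2.Oi * omS B1 B2 * (oiS B1 B2 *
        Matrix.fromBlocks (T11.map (iQ D)) (T12.map (iQ D)) (T21.map (iQ D)) (T22.map (iQ D)) *
          omS A1 A2)
      = Matrix.fromBlocks B1.Oi 0 0 B2.Oi * (omS B1 B2 * oiS B1 B2) *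
        Matrix.fromBlocks (T11.map (iQ D)) (T12.map (iQ D)) (T21.map (iQ D)) (T22.map (iQ D)) *
          omS A1 A2 := by
        simp only [Matrix.mul_assoc]
    _ = Matrix.fromBlocks B1.Oi 0 0 B2.Oi *
        Matrix.fromBlocks (T11.map (iQ D)) (T12.map (iQ D)) (T21.map (iQ D)) (T22.map (iQ D)) *
        ((Matrix.fromBlocks A1.Om 0 0 A2.Om) * Matrix.fromBlocks A1.Oi 0 0 A2.Oi) *
          omS A1 A2 := by
        rw [e2, e3, Matrix.mul_one, Matrix.mul_one]
    _ = _ := by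
        simp only [Matrix.mul_assoc]

theorem toCX_con (M : Mc D) : ∃ (s0 : Matrix M.A1.ι M.A0.ι D.X.K) (s1 : Matrix M.A0.ι M.A1.ι D.X.K),
    MSK.IsC (kmat (A := M.A0) (A' := M.A1) M.D0) (kmat (A := M.A1) (A' := M.A0) M.D1) s0 s1 := by
  obtain ⟨t0, t1, h⟩ := exists_Q M.d10 M.d01 M.ex0 M.ex1
  exact exists_K M.h0 M.h1 h

theorem toCX_loc (M : Mc D) (P : MSX.HP D.p D.L) :
    ∃ (t0 : Matrix M.A1.ι M.A0.ι (LaurentSeries (kap D P)))
      (t1 : Matrix M.A0.ι M.A1.ι (LaurentSeries (kap D P))),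
      MSK.Lo2 ((ob M.A0).b P) ((ob M.A1).b P) ((kmat (A := M.A0) (A' := M.A1) M.D0).map (D.X.em P))
        ((kmat (A := M.A1) (A' := M.A0) M.D1).map (D.X.em P)) t0 t1 := by
  obtain ⟨t0, t1, h⟩ := exists_psi P M.d10 M.d01 (M.ex0 P) (M.ex1 P)
  have hm : ∀ (A : Fr D), A.Om.map (MSX.phi P) * A.Oi.map (MSX.phi P) = 1 := fun A => by
    rw [← Matrix.map_mul, A.Om_Oi, Matrix.map_one _ (map_zero _) (map_one _)]
  have hm' : ∀ (A : Fr D), A.Oi.map (MSX.phi P) * A.Om.map (MSX.phi P) = 1 := fun A => by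
    rw [← Matrix.map_mul, A.Oi_Om, Matrix.map_one _ (map_zero _) (map_one _)]
  have h2 := (h.map (MSK.iO (kap D P))).conj (M.A0.Oi.map (MSX.phi P)) (M.A0.Om.map (MSX.phi P))
    (M.A1.Oi.map (MSX.phi P)) (M.A1.Om.map (MSX.phi P)) (hm _) (hm' _) (hm _) (hm' _)
  rw [← ob_kmat_em M.h0, ← ob_kmat_em M.h1] at h2
  exact ⟨_, _, h2, LI_ob M.h0 P, LI_ob M.h1 P, ⟨t0, rfl⟩, ⟨t1, rfl⟩⟩

/-- the complex over `K` -/
def toCX (M : Mc D) : MSK.CX D.X.em (ob M.A0) (ob M.A1) where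
  D0 := kmat (A := M.A0) (A' := M.A1) M.D0
  D1 := kmat (A := M.A1) (A' := M.A0) M.D1
  con := toCX_con M
  loc := toCX_loc M

end perf

end MSV
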