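import Mathlib
import Pool.Agent.MSV.Ob
import Pool.Agent.MSV.Lst
import Pool.Agent.MSK.Gst
import Pool.Agent.MSK.Gth

/-!
# CONV: the types of the objects of frames

PROOFS.
* `bas_St`: `gm_det` (`Matrix.mul_nonsing_inv`), `bm_gm`, `gm_deg` with `k = 0` (`xQ = algebraMap (X 0)`; `Hd D (-n)` means `q * xQ^(-(-n)) ∈ KL`).
* `ob_St`: `obG_iso` with `bas_St`, `obG_eq` (`D.X.Os n = ob (D.X.Gm n) _`). `ob_emp`: empty matrices (`Subsingleton`; `LI` with the empty matrix).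
* `ob_fsum`: induction on `l`: `ob_sum`, `MSK.IsoM_sum`, `MSK.IsoM_trans`.
* `ty_ob`: `exists_list` gives `l` and `FI A (fsum l)`; `ob_iso`, `ob_fsum`, `IsoM_trans`; `rk_iso`, `rk_fsum` (`MSK.lr`). `ty_obG`: compose with `obG_iso` (`IsoM_symm`, `IsoM_trans`).
-/

set_option autoImplicit false
set_option linter.unusedSectionVars false

noncomputable section

namespace MSV

open MvPolynomial Pool.Agent Matrix

universe u

variable {D : MSA.Dat.{u}} [PerfectField D.L]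

theorem bas_St (n : ℤ) : Bas (St D n) (D.X.Gm n) (D.X.Gm n)⁻¹ := by
  have hu : IsUnit (D.X.Gm n).det := isUnit_iff_ne_zero.2 (D.X.gm_det n)
  refine ⟨Matrix.mul_nonsing_inv _ hu, Matrix.nonsing_inv_mul _ hu, D.X.bm_gm n, fun i j => ?_⟩
  have h := D.X.gm_deg n i j ⟨0, D.X.hp.pos⟩
  have e : (0 : Fin D.p) = ⟨0, D.X.hp.pos⟩ := Fin.ext rfl
  show D.X.Gm n i j * (xQ D) ^ (-(-n)) ∈ MSX.KL D.p D.L
  rw [neg_neg, xQ, e]
  exact h

theorem ob_St (n : ℤ) : ∃ g g', MSK.IsoM D.X.em (ob (St D n)) (D.X.Os n) g g' := by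
  have H := obG_iso (bas_St (D := D) n)
  rw [obG_eq _ _ (D.X.gm_det n)] at H
  exact H

theorem ob_emp : ∃ g g', MSK.IsoM D.X.em (ob (empF D)) MSK.Ob.emp g g' := by
  refine ⟨0, 0, ⟨?_, ?_, fun P => ⟨0, ?_⟩, fun P => ⟨0, ?_⟩⟩⟩
  · ext i
    exact PEmpty.elim i
  · ext i
    exact PEmpty.elim i
  · ext i
    exact PEmpty.elim i
  · ext i
    exact PEmpty.elim i

theorem ob_fsum (l : List ℤ) : ∃ g g', MSK.IsoM D.X.em (ob (fsum D l)) (MSK.osum D.X.Os l) g g' := by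
  induction l with
  | nil => exact ob_emp
  | cons n l ih =>
    obtain ⟨g, g', i⟩ := ih
    obtain ⟨h, h', j, -, -⟩ := ob_sum (St D n) (fsum D l)
    obtain ⟨k, k', m⟩ := ob_St (D := D) n
    exact ⟨_, _, MSK.IsoM_trans j (MSK.IsoM_sum m i)⟩

theorem ty_ob (A : Fr D) : (MSK.stdTy D.X.em D.X.Os).Ty (ob A) (rk A) := by
  obtain ⟨l, U, U', h⟩ := exists_list A
  obtain ⟨g, g', i⟩ := ob_fsum (D := D) l
  refine ⟨l, ?_, _, _, MSK.IsoM_trans (ob_iso h) i⟩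
  rw [rk_iso ⟨U, U', h⟩, rk_fsum]
  rfl

theorem ty_obG {A : Fr D} {G G' : Matrix A.ι A.ι (Qf D)} (h : Bas A G G') :
    (MSK.stdTy D.X.em D.X.Os).Ty (obG A G G' h.m h.m') (rk A) := by
  obtain ⟨g, g', i⟩ := obG_iso h
  obtain ⟨l, hr, k, k', j⟩ := ty_ob A
  exact ⟨l, hr, _, _, MSK.IsoM_trans (MSK.IsoM_symm i) j⟩

end MSV
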