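import Mathlib
import Pool.Agent.MSV.Typ
import Pool.Agent.MSV.Psi
import Pool.Agent.MSK.Gp3

/-!
# CONV: the additive function on complexes of modules with values in the group of classes

PROOFS.
* `inf_K`: `F → K`, `c ↦ C c` is injective (`MSX.Dat.F_mem_K`), `F` is infinite (`D.hinf`).
* `cls_inv.iso`: `MSK.cls_iso`: `rk_iso`, `ob_iso`, `kmat_mul` (`M'.D0 * U0 = U1 * M.D0`).
* `cls_inv.blk`: `MSK.cls_block (toCC M') (toCC M) (toCC M'')`: `rk_sum`, `rk_iso`; `e0`, `e1` the `kmat` of the `e0`, `e1` (`LI_ob`; relations by `kmat_mul`, `kmat_add`, `kmat_zero`); `h0 = g_0 * kmat U0'`, with `g_0` of `ob_sum`,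
  `IsoM_trans` of `ob_iso` (for the inverse isomorphism `M'.A0 → M.A0.sum M''.A0`) and `ob_sum`; commutation: `sum_kmat` and `kmat_mul` (from `M'.D0 * U0 = U1 * (block)` follows
  `(block) * U0' = U1' * M'.D0`).
* `cls_inv.zero`: `MSK.cls_direct`: `s0, s1` of `Triv`: `kmat s0`, `kmat s1` (`IsC` by `kmat_mul`, `kmat_add`, `kmat_one`, `kmat_zero`), `LI_ob`. `rk M.A0 = rk M.A1`: `D0 + s0` is an isomorphism
  with inverse `D1 + s1` (`MSK.IsC.pi_mul`, `pi_mul'`, `Hm.add`), `rk_iso`.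
* `conv_eq`: `psiT_v` and `cls_iso`: the complex `M` has the objects `ob M.A0`, isomorphic to `obG ..` by `obG_iso'`; matrices `N1' * kmat D0 * N0 = c.D0`, i.e. `c.D0 * N0' = N1' * kmat D0`: apply `kQ`:
  `(Gi1 * D0 * G0) * (Gi0 * Om0) = Gi1 * D0 * Om0 = (Gi1 * Om1) * (Oi1 * D0 * Om0)`.
-/

set_option autoImplicit false
set_option linter.unusedSectionVars false

noncomputable section

namespace MSV

open MvPolynomial Pool.Agent Matrix

universe u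

variable (D : MSA.Dat.{u}) [PerfectField D.L]

/-- the typing -/
abbrev tyD : MSK.Typing D.X.em (ℤ →₀ ℤ) := MSK.stdTy D.X.em D.X.Os

instance inf_K : Infinite D.X.K := by
  refine Infinite.of_injective (fun c : D.F => (⟨algebraMap (MSX.S D.p D.L) (MSX.Q D.p D.L)
    (C (algebraMap D.F D.L c)), D.X.F_mem_K c⟩ : D.X.K)) ?_
  intro a b h
  have h1 := congrArg (fun x : D.X.K => (x : MSX.Q D.p D.L)) h
  have h2 := C_injective _ _ (MSX.Q_inj h1)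
  exact (algebraMap D.F D.L).injective h2

variable {D}

/-- the typed complex of a matrix complex -/
def toCC (M : Mc D) : MSK.CC (tyD D) := ⟨ob M.A0, ob M.A1, rk M.A0, rk M.A1, ty_ob _, ty_ob _, toCX M⟩

theorem cls_Iso {M M' : Mc D} (h : M.Iso M') : MSK.cls (toCC M) = MSK.cls (toCC M') := by
  obtain ⟨U0, U0', U1, U1', h0, h1, e0, e1⟩ := h
  refine MSK.cls_iso ⟨rk_iso ⟨U0, U0', h0⟩, rk_iso ⟨U1, U1', h1⟩,
    kmat (A := M.A0) (A' := M'.A0) U0, kmat (A := M'.A0) (A' := M.A0) U0',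
    kmat (A := M.A1) (A' := M'.A1) U1, kmat (A := M'.A1) (A' := M.A1) U1', ob_iso h0, ob_iso h1,
    ?_, ?_⟩
  · show kmat (A := M'.A0) (A' := M'.A1) M'.D0 * kmat (A := M.A0) (A' := M'.A0) U0 =
      kmat (A := M.A1) (A' := M'.A1) U1 * kmat (A := M.A0) (A' := M.A1) M.D0
    rw [← kmat_mul M'.h0 h0.h, ← kmat_mul h1.h M.h0, e0]
  · show kmat (A := M'.A1) (A' := M'.A0) M'.D1 * kmat (A := M.A1) (A' := M'.A1) U1 =
      kmat (A := M.A0) (A' := M'.A0) U0 * kmat (A := M.A1) (A' := M.A0) M.D1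
    rw [← kmat_mul M'.h1 h1.h, ← kmat_mul h0.h M.h1, e1]

private theorem fiso_symm {A A' : Fr D} {U : Matrix A'.ι A.ι D.S} {U' : Matrix A.ι A'.ι D.S}
    (h : FIso A A' U U') : FIso A' A U' U := ⟨h.h', h.h, h.m', h.m⟩

/-- `kmat` into a sum, with the index type `_ ⊕ _` -/
private def kmR {A A1 A2 : Fr D} (U : Matrix (A1.ι ⊕ A2.ι) A.ι D.S) :
    Matrix (A1.ι ⊕ A2.ι) A.ι D.X.K := kmat (A := A) (A' := A1.sum A2) U

/-- commutation of the base change with the differential, one degree -/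
private theorem blk_comm {A1 A2 B1 B2 A B : Fr D} {T11 : Matrix B1.ι A1.ι D.S}
    {T12 : Matrix B1.ι A2.ι D.S} {T22 : Matrix B2.ι A2.ι D.S} (h11 : Hm A1 B1 T11)
    (h12 : Hm A2 B1 T12) (h22 : Hm A2 B2 T22) {T : Matrix B.ι A.ι D.S} (hT : Hm A B T)
    {U : Matrix A.ι (A1.ι ⊕ A2.ι) D.S} {U' : Matrix (A1.ι ⊕ A2.ι) A.ι D.S}
    {V : Matrix B.ι (B1.ι ⊕ B2.ι) D.S} {V' : Matrix (B1.ι ⊕ B2.ι) B.ι D.S}
    (hU : FIso (A1.sum A2) A U U') (hV : FIso (B1.sum B2) B V V')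
    (e : T * U = V * Matrix.fromBlocks T11 T12 0 T22)
    (g : Matrix (A1.ι ⊕ A2.ι) (A1.ι ⊕ A2.ι) D.X.K)
    (hg : g.map kQ = Matrix.fromBlocks A1.Oi 0 0 A2.Oi * omS A1 A2)
    (k : Matrix (B1.ι ⊕ B2.ι) (B1.ι ⊕ B2.ι) D.X.K)
    (hk : k.map kQ = Matrix.fromBlocks B1.Oi 0 0 B2.Oi * omS B1 B2) :
    HMul.hMul (Matrix.fromBlocks (kmat (A := A1) (A' := B1) T11) (kmat (A := A2) (A' := B1) T12) 0
        (kmat (A := A2) (A' := B2) T22)) (HMul.hMul g (kmR (A := A) (A1 := A1) (A2 := A2) U')) =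
    HMul.hMul (HMul.hMul k (kmR (A := B) (A1 := B1) (A2 := B2) V')) (kmat (A := A) (A' := B) T) := by
  have h1 := sum_kmat h11 h12 (hm_zero A1 B2) h22 g hg k hk
  rw [kmat_zero] at h1
  have hB : Hm (A1.sum A2) (B1.sum B2) (Matrix.fromBlocks T11 T12 0 T22) :=
    hm_blocks h11 h12 (hm_zero A1 B2) h22
  have h2 : HMul.hMul (Matrix.fromBlocks T11 T12 0 T22 : Matrix (B1.ι ⊕ B2.ι) (A1.ι ⊕ A2.ι) D.S)
      U' = HMul.hMul V' T := by
    have hU1 : HMul.hMul U U' = (1 : Matrix A.ι A.ι D.S) := hU.m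
    have hV1 : HMul.hMul V' V = (1 : Matrix (B1.ι ⊕ B2.ι) (B1.ι ⊕ B2.ι) D.S) := hV.m'
    calc HMul.hMul (Matrix.fromBlocks T11 T12 0 T22 : Matrix (B1.ι ⊕ B2.ι) (A1.ι ⊕ A2.ι) D.S) U' =
        HMul.hMul (HMul.hMul (HMul.hMul V' V) (Matrix.fromBlocks T11 T12 0 T22)) U' := by
          rw [hV1, Matrix.one_mul]
      _ = HMul.hMul (HMul.hMul V' (HMul.hMul V (Matrix.fromBlocks T11 T12 0 T22))) U' := by
          rw [← Matrix.mul_assoc V' V]
      _ = HMul.hMul (HMul.hMul V' T) (HMul.hMul U U') := by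
          rw [← e, ← Matrix.mul_assoc V' T, Matrix.mul_assoc]
      _ = HMul.hMul V' T := by rw [hU1, Matrix.mul_one]
  have h3 : HMul.hMul (kmS (A1 := A1) (A2 := A2) (B1 := B1) (B2 := B2)
        (Matrix.fromBlocks T11 T12 0 T22)) (kmR (A := A) (A1 := A1) (A2 := A2) U') =
      HMul.hMul (kmR (A := B) (A1 := B1) (A2 := B2) V') (kmat (A := A) (A' := B) T) := by
    have h4 := (kmat_mul hB hU.h').symm
    have h5 := kmat_mul hV.h' hT
    have h6 : kmat (A := A) (A' := B1.sum B2) (HMul.hMul (Matrix.fromBlocks T11 T12 0 T22 :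
        Matrix (B1.ι ⊕ B2.ι) (A1.ι ⊕ A2.ι) D.S) U') =
        kmat (A := A) (A' := B1.sum B2) (HMul.hMul V' T) := by rw [h2]
    exact h4.trans (h6.trans h5)
  rw [← Matrix.mul_assoc, ← h1, Matrix.mul_assoc, h3, Matrix.mul_assoc]

theorem cls_Blk {M M' M'' : Mc D} (h : M.Blk M' M'') :
    MSK.cls (toCC M') = MSK.cls (toCC M) + MSK.cls (toCC M'') := by
  obtain ⟨e0, e1, U0, U0', U1, U1', he0, he1, r01, r10, f0, f1, c0, c1⟩ := h
  obtain ⟨g0, g0', i0, a0, a0'⟩ := ob_sum M.A0 M''.A0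
  obtain ⟨g1, g1', i1, a1, a1'⟩ := ob_sum M.A1 M''.A1
  have k01 : kmat (A := M.A0) (A' := M.A1) M.D0 * kmat (A := M''.A1) (A' := M.A0) e1 +
      kmat (A := M''.A0) (A' := M.A1) e0 * kmat (A := M''.A1) (A' := M''.A0) M''.D1 = 0 := by
    rw [← kmat_mul M.h0 he1, ← kmat_mul he0 M''.h1, ← kmat_add (M.h0.mul he1) (he0.mul M''.h1),
      r01, kmat_zero]
  have k10 : kmat (A := M.A1) (A' := M.A0) M.D1 * kmat (A := M''.A0) (A' := M.A1) e0 +
      kmat (A := M''.A1) (A' := M.A0) e1 * kmat (A := M''.A0) (A' := M''.A1) M''.D0 = 0 := by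
    rw [← kmat_mul M.h1 he0, ← kmat_mul he1 M''.h0, ← kmat_add (M.h1.mul he0) (he1.mul M''.h0),
      r10, kmat_zero]
  exact MSK.cls_block (toCC M') (toCC M) (toCC M'')
    ((rk_iso ⟨_, _, fiso_symm f0⟩).trans (rk_sum _ _))
    ((rk_iso ⟨_, _, fiso_symm f1⟩).trans (rk_sum _ _))
    (kmat (A := M''.A0) (A' := M.A1) e0) (kmat (A := M''.A1) (A' := M.A0) e1) k01 k10
    (fun P => LI_ob he0 P) (fun P => LI_ob he1 P)
    (MSK.IsoM_trans (ob_iso (fiso_symm f0)) i0) (MSK.IsoM_trans (ob_iso (fiso_symm f1)) i1)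
    (blk_comm M.h0 he0 M''.h0 M'.h0 f0 f1 c0 g0 a0 g1 a1)
    (blk_comm M.h1 he1 M''.h1 M'.h1 f1 f0 c1 g1 a1 g0 a0)

theorem cls_Triv {M : Mc D} (h : M.Triv) : MSK.cls (toCC M) = 0 := by
  obtain ⟨s0, s1, hs0, hs1, hC⟩ := h
  have hF : FI M.A0 M.A1 := ⟨M.D0 + s0, M.D1 + s1,
    ⟨M.h0.add hs0, M.h1.add hs1, hC.pi_mul', hC.pi_mul⟩⟩
  have hK : MSK.IsC (kmat (A := M.A0) (A' := M.A1) M.D0) (kmat (A := M.A1) (A' := M.A0) M.D1)
      (kmat (A := M.A0) (A' := M.A1) s0) (kmat (A := M.A1) (A' := M.A0) s1) := by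
    refine ⟨?_, ?_, ?_, ?_, ?_, ?_⟩
    · rw [← kmat_mul M.h0 M.h1, hC.d01, kmat_zero]
    · rw [← kmat_mul M.h1 M.h0, hC.d10, kmat_zero]
    · rw [← kmat_mul M.h1 hs0, ← kmat_mul hs1 M.h0, ← kmat_add (M.h1.mul hs0) (hs1.mul M.h0),
        hC.h0, kmat_one]
    · rw [← kmat_mul M.h0 hs1, ← kmat_mul hs0 M.h1, ← kmat_add (M.h0.mul hs1) (hs0.mul M.h1),
        hC.h1, kmat_one]
    · rw [← kmat_mul hs1 hs0, hC.q10, kmat_zero]
    · rw [← kmat_mul hs0 hs1, hC.q01, kmat_zero]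
  exact MSK.cls_direct (toCC M) (rk_iso hF) hK (fun P => LI_ob hs0 P) (fun P => LI_ob hs1 P)

theorem cls_inv : Inv (MSK.GC (tyD D)) (fun M => MSK.cls (toCC M)) :=
  ⟨cls_Iso, cls_Blk, cls_Triv⟩

variable (D) in
/-- the additive function -/
def conv : MSA.PsiT D (MSK.GC (tyD D)) := psiT _ _ cls_inv

private theorem kQ_inj' {α β : Type*} {M N : Matrix α β D.X.K} (h : M.map kQ = N.map kQ) :
    M = N :=
  Matrix.map_injective (f := kQ) (Subtype.val_injective : Function.Injective (kQ (D := D))) h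

/-- change of the basis, one degree -/
private theorem bas_comm {A A' : Fr D} {G G' : Matrix A.ι A.ι (Qf D)}
    {H' : Matrix A'.ι A'.ι (Qf D)} (hG : G * G' = 1) {T : Matrix A'.ι A.ι D.S}
    (hT : Hm A A' T) {c : Matrix A'.ι A.ι D.X.K}
    (hc : c.map kQ = HMul.hMul (HMul.hMul H' (T.map (iQ D))) G)
    {N : Matrix A.ι A.ι D.X.K} (hN : N.map kQ = G' * A.Om) {N' : Matrix A'.ι A'.ι D.X.K}
    (hN' : N'.map kQ = H' * A'.Om) :
    HMul.hMul c N = HMul.hMul N' (kmat (A := A) (A' := A') T) := by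
  apply kQ_inj'
  rw [Matrix.map_mul, Matrix.map_mul, hc, hN, hN', kmat_Q hT]
  have h1 : HMul.hMul (HMul.hMul (HMul.hMul H' (T.map (iQ D))) G) (G' * A.Om) =
      HMul.hMul (HMul.hMul H' (T.map (iQ D))) A.Om := by
    rw [Matrix.mul_assoc, ← Matrix.mul_assoc G, hG, Matrix.one_mul]
  have h2 : HMul.hMul (HMul.hMul H' A'.Om) (HMul.hMul (HMul.hMul A'.Oi (T.map (iQ D))) A.Om) =
      HMul.hMul (HMul.hMul H' (T.map (iQ D))) A.Om := by
    rw [Matrix.mul_assoc A'.Oi, Matrix.mul_assoc H' A'.Om, ← Matrix.mul_assoc A'.Om, A'.Om_Oi,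
      Matrix.one_mul, Matrix.mul_assoc]
  exact h1.trans h2.symm

/-- the value on a complex with explicit matrices -/
theorem conv_eq {X : MSA.Ch.{u} D.R} {M : Mc D} (r : Rep M X)
    {G0 G0' : Matrix M.A0.ι M.A0.ι (Qf D)} {G1 G1' : Matrix M.A1.ι M.A1.ι (Qf D)}
    (h0 : Bas M.A0 G0 G0') (h1 : Bas M.A1 G1 G1')
    (c : MSK.CX D.X.em (obG M.A0 G0 G0' h0.m h0.m') (obG M.A1 G1 G1' h1.m h1.m'))
    (hc0 : c.D0.map kQ = G1' * M.D0.map (iQ D) * G0) (hc1 : c.D1.map kQ = G0' * M.D1.map (iQ D) * G1) :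
    (conv D).v X = MSK.cls ⟨_, _, rk M.A0, rk M.A1, ty_obG h0, ty_obG h1, c⟩ := by
  have h2 : (conv D).v X = MSK.cls (toCC M) := psiT_v _ _ cls_inv r
  rw [h2]
  obtain ⟨N0, N0', a1, a2, a3, a4⟩ := bas_unique h0
  obtain ⟨N1, N1', b1, b2, b3, b4⟩ := bas_unique h1
  refine MSK.cls_iso ⟨rfl, rfl, N0', N0, N1', N1, obG_iso' h0 a1 a2 a3 a4,
    obG_iso' h1 b1 b2 b3 b4, ?_, ?_⟩
  · exact bas_comm h0.m M.h0 hc0 a4 b4
  · exact bas_comm h1.m M.h1 hc1 b4 a4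

end MSV
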