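import Pool.Agent.MSV.Kfin
import Pool.Agent.MSX.ThG
import Pool.Agent.MSK.Gfin

/-!
# The value of the difference of the Koszul complexes of a family `(y; g / h)`

`kvT T`: the difference of the classes of the Koszul complexes of `(y, g)` and `(y, h)`. Its value is the family of `T`.
-/

set_option autoImplicit false
set_option linter.unusedSectionVars false
set_option maxHeartbeats 400000

noncomputable section

namespace MSV

open MvPolynomial Pool.Agent Matrix MSA

universe u

variable {D : MSA.Dat.{u}} [PerfectField D.L]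

/-- the difference of the classes of the two Koszul complexes -/
def kvT (T : D.X.Trip) : MSK.GC (tyD D) :=
  (conv D).v ((D.kCI T.hy T.hg).ch (Sr D.ph)) - (conv D).v ((D.kCI T.hy T.hh).ch (Sr D.ph))

/-- a family with values in the fields `kP P` -/
def incF (z : MSX.Fam D.p D.L) : ∀ P : MSX.HP D.p D.L, (MSX.kP P)ˣ :=
  fun P => Units.map (MSX.inc P : MSX.kap P →* MSX.kP P) (z P).toMul

theorem incF_zero : incF (D := D) 0 = 1 := by
  funext P
  exact map_one _

theorem incF_add (z z' : MSX.Fam D.p D.L) : incF (D := D) (z + z') = incF z * incF z' := by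
  funext P
  exact map_mul (Units.map (MSX.inc P : MSX.kap P →* MSX.kP P)) (z P).toMul (z' P).toMul

theorem incF_zsmul (N : ℤ) (z : MSX.Fam D.p D.L) : incF (D := D) (N • z) = incF z ^ N := by
  funext P
  exact map_zpow (Units.map (MSX.inc P : MSX.kap P →* MSX.kP P)) (z P).toMul N

/-- the class and the value of a triple -/
theorem kvT_vl (T : D.X.Trip) : (MSK.preG (tyD D)).chi (kvT T) = 0 ∧
    (MSK.preG (tyD D)).vl (kvT T) =
      Additive.ofMul (QuotientGroup.mk (s := MSK.NT (tyD D)) (incF T.fam)) := by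
  have hP : ∀ P : MSX.HP D.p D.L, ¬ P.gen ∣ T.y ∨ ¬ P.gen ∣ T.g := fun P => by
    by_cases h : P.gen ∣ T.y
    · exact Or.inr (T.cg P h)
    · exact Or.inl h
  have hP' : ∀ P : MSX.HP D.p D.L, ¬ P.gen ∣ T.y ∨ ¬ P.gen ∣ T.h := fun P => by
    by_cases h : P.gen ∣ T.y
    · exact Or.inr (T.ch P h)
    · exact Or.inl h
  obtain ⟨c, c0, c1⟩ := kos_cx T.hy T.hg hP
  obtain ⟨c', c0', c1'⟩ := kos_cx T.hy T.hh hP'
  have e1 := conv_kos T.hy T.hg hP c c0 c1
  have e2 := conv_kos T.hy T.hh hP' c' c0' c1'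
  have h1 := T.isPsi c c' c0 c1 c0' c1'
  unfold kvT
  rw [e1, e2]
  exact MSK.vl_diff (kos_ty0 D T.m T.n) (kos_ty1 D T.m T.n) c c' h1

/-- the value of a sum over a list of triples -/
theorem kvT_list (l : List D.X.Trip) : (MSK.preG (tyD D)).chi ((l.map kvT).sum) = 0 ∧
    (MSK.preG (tyD D)).vl ((l.map kvT).sum) =
      Additive.ofMul (QuotientGroup.mk (s := MSK.NT (tyD D))
        (incF ((l.map MSX.Dat.Trip.fam).sum))) := by
  induction l with
  | nil =>
    refine ⟨map_zero _, ?_⟩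
    rw [List.map_nil, List.sum_nil, List.map_nil, List.sum_nil, (MSK.preG (tyD D)).vl_zero,
      incF_zero]
    rfl
  | cons T l ih =>
    obtain ⟨h1, h2⟩ := kvT_vl T
    rw [List.map_cons, List.sum_cons, List.map_cons, List.sum_cons]
    refine ⟨?_, ?_⟩
    · rw [map_add, h1, ih.1, add_zero]
    · rw [(MSK.preG (tyD D)).vl_add h1 ih.1, h2, ih.2, incF_add]
      rfl

/-- a relation between the classes gives a relation between the families -/
theorem trips_mem (l : List D.X.Trip) (N : ℤ) (h : N • (l.map kvT).sum = 0) :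
    incF ((l.map MSX.Dat.Trip.fam).sum) ^ N ∈ MSK.NT (tyD D) := by
  obtain ⟨h1, h2⟩ := kvT_list l
  have h3 := (MSK.preG (tyD D)).vl_zsmul N h1
  rw [h, (MSK.preG (tyD D)).vl_zero, h2] at h3
  rw [← QuotientGroup.eq_one_iff]
  exact h3.symm

/-- a relation between the classes gives a relation between the families -/
theorem trips_mem_sup (hD : D.X.Div) (hF : MSX.PS D.p D.F) (hL : MSX.PS D.p D.L)
    (l : List D.X.Trip) (N : ℤ) (h : N • (l.map kvT).sum = 0) :
    incF ((l.map MSX.Dat.Trip.fam).sum) ^ N ∈ MSK.SgT D.X.em ⊔ D.X.Th1 := by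
  have h1 := D.X.nt_le hD (trips_mem l N h)
  exact (sup_le le_sup_left (MSX.Dat.thO_le hD hF hL)) h1

/-- final form: up to tame symbols, the square of the power `N` of the family is the square of a value of an
automorphism of the standard object of degree one -/
theorem trips_final (hD : D.X.Div) (hF : MSX.PS D.p D.F) (hL : MSX.PS D.p D.L)
    (l : List D.X.Trip) (N : ℤ) (h : N • (l.map kvT).sum = 0) :
    ∃ γ ∈ D.X.An 1, γ.det ≠ 0 ∧ ∃ a : ∀ P : MSX.HP D.p D.L, (MSX.kP P)ˣ,
      MSK.IsTh D.X.em (D.X.Os 1) (D.X.km 1 γ) a ∧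
      ∃ w : MK.K2 D.X.K, ∀ P, (MSX.lv (MSX.kP P)).tame (MK.K2.map (D.X.em P) w) =
        2 • Additive.ofMul (incF ((l.map MSX.Dat.Trip.fam).sum) P ^ N * (a P)⁻¹) := by
  obtain ⟨s, hs, a, ⟨γ, h1, h2, h3⟩, h4⟩ := Subgroup.mem_sup.1 (trips_mem_sup hD hF hL l N h)
  obtain ⟨w, hw⟩ := D.X.sgT_tame s hs
  refine ⟨γ, h1, h2, a, h3, w, fun P => ?_⟩
  rw [← hw P, two_nsmul]
  have h5 : s P = incF ((l.map MSX.Dat.Trip.fam).sum) P ^ N * (a P)⁻¹ := by
    have h6 := congrFun h4 P
    rw [Pi.mul_apply, Pi.pow_apply] at h6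
    rw [← h6, mul_inv_cancel_right]
  rw [h5]

end MSV
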