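import Mathlib
import Pool.Agent.MSV.Typ
import Pool.Agent.MSX.Kap

/-!
# CONV: the Koszul complexes of two invariants as matrix complexes

`dgF D e` (`e : Fin 2 → ℕ`): the frame with basis vectors of weights `p e_i` and `τ w_i = b^(e_i) w_i`; a `K`-basis of the invariants is `y0^(-e_i) w_i`.
`kosM`: the Koszul complex, matrices `MSK.kD0 y g = !![0,-g; 0,y]`, `MSK.kD1 y g = !![y,g; 0,0]`.

PROOFS.
* `dgF_hB`: `itM` of a diagonal matrix with entries fixed by `s`: `itM s (diag d) k = diag (d^k)` by induction (`s bL = bL`); `(b^e)^p = b^(p e)`.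
* `bas_dg`: `sigQ y0 = b y0` (`MSX.Dat.inv_y0`, `sigQ_iQ`), so `b^e * (b y0)^(-e) = y0^(-e)`; degree: `y0` is homogeneous of degree `p` (`hd_of_hs`, `hs_nat`), `hd_mul` / `y0^(-e) * x_0^(p e) ∈ KL` (as in
  `MSX.Dat.gm_deg`, case `p ∣ n`).
* `kos_hm0`, `kos_hm1`: entries; `hy : y` homogeneous of degree `p m`, `sig y = C (b^m) * y` (`hs_nat`; `D.tauS = D.X.sig`).
* `kos_ex0`: `v` with `(-g v₁, y v₁) = 0`; `y ≠ 0` or `g ≠ 0` gives `v₁ = 0`; if `y ∉ P.I`: `s = y`, `y • v = (y v₀, 0) = D1 (v₀, 0)`; if `g ∉ P.I`: `s = g`, `g • v = D1 (0, v₀)`.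
  `kos_ex1`: `y u₀ + g u₁ = 0`; `y • u = (y u₀, y u₁) = (-g u₁, y u₁) = D0 (0, u₁)`; `g • u = (g u₀, g u₁) = (g u₀, - y u₀) = D0 (0, - u₀)`. (`P.mem_iff`; a factor not divisible by `P.gen` is not `0`.)
* `kos_iso0`: `obG_iso'` (with `N, N'` from `bas_unique`) for `bas_dg ![0, m + n]`; the lattices are equal: `(dgG').map (phi P) = diag (1, phi(y0)^(m+n))` and `yP P ^ m * yP P ^ n = yP P ^ (m + n)`
  (`Units.ext`; `MSK.dg`). `IsoM` is transported field by field. `kos_iso1` is the same with `![m, n]`.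
* `kos_ty0`: `ty_obG (bas_dg _)` and the equality of the lattices (isomorphism by `1`), or `ty_ob` and `kos_iso0` (`MSK.IsoM_symm`, `MSK.IsoM_trans`).
* `kos_cx`: conjugate `toCX (kosM ..)` by the isomorphisms (`MSK.IsC.conj` for `con`; for `loc` directly from `exists_psi`: `t0, t1` over `k_P[[t]]`, the matrices in the bases of the lattices are
  `(kD0 y g).map (psi P)`, `(kD1 y g).map (psi P)`; `MSX.Dat.em_ivK`).
* `kos_comm0`, `kos_comm1`: apply `kQ`: `kD0 Y G = dgG'(m,n) * (kD0 y g) * dgG(0,m+n)`: entries `y0^m * (-g) * y0^(-(m+n)) = - g / y0^n`, `y0^n * y * y0^(-(m+n)) = y / y0^m`.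
-/

set_option autoImplicit false
set_option linter.unusedSectionVars false

noncomputable section

namespace MSV

open MvPolynomial Pool.Agent Matrix

universe u

variable (D : MSA.Dat.{u})

private theorem itM_diag {M : Type*} [Field M] {ι : Type*} [Fintype ι] [DecidableEq ι]
    (s : M ≃+* M) (d : ι → M) (hd : ∀ i, s (d i) = d i) (k : ℕ) :
    MSX.itM s (Matrix.diagonal d) k = Matrix.diagonal (fun i => d i ^ k) := by
  induction k with
  | zero =>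
    show (1 : Matrix ι ι M) = _
    simp only [pow_zero]
    exact Matrix.diagonal_one.symm
  | succ k ih =>
    show Matrix.diagonal d * (MSX.itM s (Matrix.diagonal d) k).map s = _
    rw [ih, Matrix.diagonal_map (map_zero s), Matrix.diagonal_mul_diagonal]
    congr 1
    funext i
    rw [map_pow, hd, pow_succ']

theorem dgF_hB (e : Fin 2 → ℕ) :
    MSX.itM D.s.toRingEquiv (Matrix.diagonal fun i => D.X.bL ^ e i) D.p =
      Matrix.diagonal (fun i => D.X.bL ^ ((D.p : ℤ) * (e i : ℤ))) := by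
  rw [itM_diag]
  · congr 1
    funext i
    rw [← pow_mul, mul_comm, ← zpow_natCast]
    congr 1
  · intro i
    rw [map_pow]
    congr 1
    exact D.X.s_bL

/-- diagonal frames -/
def dgF (e : Fin 2 → ℕ) : Fr D where
  ι := Fin 2
  n := fun i => (D.p : ℤ) * (e i : ℤ)
  B := Matrix.diagonal fun i => D.X.bL ^ e i
  hn := fun i j h => Matrix.diagonal_apply_ne _ (fun h' => h (by rw [h']))
  hB := dgF_hB D e

/-- basis of invariants -/
def dgG (e : Fin 2 → ℕ) : Matrix (Fin 2) (Fin 2) (Qf D) :=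
  Matrix.diagonal fun i => (iQ D MSX.Dat.y0) ^ (-(e i : ℤ))

/-- inverse -/
def dgI (e : Fin 2 → ℕ) : Matrix (Fin 2) (Fin 2) (Qf D) := Matrix.diagonal fun i => (iQ D MSX.Dat.y0) ^ e i

/-- `Om` of a diagonal frame -/
def dgOm (e : Fin 2 → ℕ) : Matrix (Fin 2) (Fin 2) (Qf D) := (dgF D e).Om

/-- `Oi` of a diagonal frame -/
def dgOi (e : Fin 2 → ℕ) : Matrix (Fin 2) (Fin 2) (Qf D) := (dgF D e).Oi

private theorem yQ_ne : iQ D MSX.Dat.y0 ≠ 0 :=
  (map_ne_zero_iff _ (iQ_inj D)).2 MSX.Dat.y0_ne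

private theorem dg_GI (e : Fin 2 → ℕ) : dgG D e * dgI D e = 1 := by
  unfold dgG dgI
  rw [Matrix.diagonal_mul_diagonal, ← Matrix.diagonal_one]
  congr 1
  funext i
  rw [_root_.zpow_neg, zpow_natCast, inv_mul_cancel₀ (pow_ne_zero _ (yQ_ne D))]

private theorem dg_IG (e : Fin 2 → ℕ) : dgI D e * dgG D e = 1 := by
  unfold dgG dgI
  rw [Matrix.diagonal_mul_diagonal, ← Matrix.diagonal_one]
  congr 1
  funext i
  rw [_root_.zpow_neg, zpow_natCast, mul_inv_cancel₀ (pow_ne_zero _ (yQ_ne D))]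

private theorem sigQ_yQ : D.X.sigQ (iQ D MSX.Dat.y0) = cL D D.X.bL * iQ D MSX.Dat.y0 := by
  rw [sigQ_iQ]
  have h1 : D.tauS MSX.Dat.y0 = C (D.X.bL ^ 1) * MSX.Dat.y0 := D.X.inv_y0.2
  rw [h1, pow_one, map_mul]
  rfl

private theorem hd_yQ : Hd D (D.p : ℤ) (iQ D MSX.Dat.y0) := by
  apply hd_of_hs
  rw [hs_nat]
  have h1 := D.X.inv_y0.1
  rwa [mul_one] at h1

variable {D} in
private theorem hd_zpow {d : ℤ} {q : Qf D} (h : Hd D d q) (n : ℤ) : Hd D (d * n) (q ^ n) := by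
  unfold Hd at *
  have h1 := zpow_mem h n
  have h2 : (q * xQ D ^ (-d)) ^ n = q ^ n * xQ D ^ (-(d * n)) := by
    rw [mul_zpow, ← _root_.zpow_mul, neg_mul]
  rwa [h2] at h1

theorem bas_dg (e : Fin 2 → ℕ) : Bas (dgF D e) (dgG D e) (dgI D e) := by
  refine ⟨dg_GI D e, dg_IG D e, ?_, ?_⟩
  · show (Matrix.diagonal fun i => D.X.bL ^ e i).map (cL D) *
      (Matrix.diagonal fun i => (iQ D MSX.Dat.y0) ^ (-(e i : ℤ))).map D.X.sigQ =
      Matrix.diagonal fun i => (iQ D MSX.Dat.y0) ^ (-(e i : ℤ))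
    rw [Matrix.diagonal_map (map_zero (cL D)), Matrix.diagonal_map (map_zero D.X.sigQ),
      Matrix.diagonal_mul_diagonal]
    congr 1
    funext i
    rw [map_pow, map_zpow₀, sigQ_yQ, mul_zpow,
      ← mul_assoc, _root_.zpow_neg (cL D D.X.bL), zpow_natCast,
      mul_inv_cancel₀ (pow_ne_zero _ ((map_ne_zero (cL D)).2 D.X.bL_ne)), one_mul]
  · intro i j
    change Fin 2 at i j
    show Hd D (-((D.p : ℤ) * (e i : ℤ)))
      ((Matrix.diagonal (fun i => (iQ D MSX.Dat.y0) ^ (-(e i : ℤ))) :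
        Matrix (Fin 2) (Fin 2) (Qf D)) i j)
    by_cases h : i = j
    · subst h
      rw [Matrix.diagonal_apply_eq]
      have h1 := hd_zpow (hd_yQ D) (-(e i : ℤ))
      have h2 : (D.p : ℤ) * (-(e i : ℤ)) = -((D.p : ℤ) * (e i : ℤ)) := by ring
      rwa [h2] at h1
    · rw [Matrix.diagonal_apply_ne _ h]
      exact hd_zero _

variable {D} {m n : ℕ} {y g : D.S}

private theorem iv_hs {k : ℕ} {f : D.S} (hf : D.Iv k f) {d : ℤ} (hd : d = (D.p : ℤ) * k) :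
    Hs D d f := by
  have h1 : d = ((D.p * k : ℕ) : ℤ) := by
    rw [hd]
    push_cast
    ring
  rw [h1, hs_nat]
  exact hf.1

private theorem iv_tau {k : ℕ} {f : D.S} (hf : D.Iv k f) : D.tauS f = C (D.X.bL ^ k) * f := hf.2

private theorem dgB_map0 (a b : ℕ) :
    (Matrix.diagonal fun i => D.X.bL ^ (![a, b] : Fin 2 → ℕ) i).map (C : D.L →+* D.S) =
      !![C (D.X.bL ^ a), 0; 0, C (D.X.bL ^ b)] := by
  ext1 i j
  fin_cases i <;> fin_cases j <;> simp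

private theorem mk2_eq {R : Type*} {a b c d a' b' c' d' : R} (h1 : a = a') (h2 : b = b')
    (h3 : c = c') (h4 : d = d') : !![a, b; c, d] = !![a', b'; c', d'] := by
  rw [h1, h2, h3, h4]

private theorem map2 {R R' : Type*} (f : R → R') (a b c d : R) :
    (!![a, b; c, d] : Matrix (Fin 2) (Fin 2) R).map f = !![f a, f b; f c, f d] := by
  ext i j
  fin_cases i <;> fin_cases j <;> rfl

theorem kos_hm0 (hy : D.Iv m y) (hg : D.Iv n g) :
    Hm (dgF D ![0, m + n]) (dgF D ![m, n]) (MSK.kD0 y g) := by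
  constructor
  · intro j i
    change Fin 2 at j i
    show Hs D ((D.p : ℤ) * ((![0, m + n] i : ℕ) : ℤ) - (D.p : ℤ) * ((![m, n] j : ℕ) : ℤ))
      (MSK.kD0 y g j i)
    fin_cases j <;> fin_cases i
    · exact hs_zero _
    · exact hs_neg (iv_hs hg (by
        show (D.p : ℤ) * ((m + n : ℕ) : ℤ) - (D.p : ℤ) * (m : ℤ) = (D.p : ℤ) * n
        push_cast
        ring))
    · exact hs_zero _
    · exact iv_hs hy (by
        show (D.p : ℤ) * ((m + n : ℕ) : ℤ) - (D.p : ℤ) * (n : ℤ) = (D.p : ℤ) * m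
        push_cast
        ring)
  · have h1 : !![C (D.X.bL ^ m), 0; 0, C (D.X.bL ^ n)] * (MSK.kD0 y g).map D.tauS =
        MSK.kD0 y g * !![C (D.X.bL ^ 0), 0; 0, C (D.X.bL ^ (m + n))] := by
      unfold MSK.kD0
      rw [map2, map_zero, map_neg, iv_tau hy, iv_tau hg, Matrix.mul_fin_two, Matrix.mul_fin_two]
      refine mk2_eq ?_ ?_ ?_ ?_
      · ring
      · rw [pow_add, map_mul]
        ring
      · ring
      · rw [pow_add, map_mul]
        ring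
    rw [← dgB_map0 m n, ← dgB_map0 0 (m + n)] at h1
    exact h1

theorem kos_hm1 (hy : D.Iv m y) (hg : D.Iv n g) :
    Hm (dgF D ![m, n]) (dgF D ![0, m + n]) (MSK.kD1 y g) := by
  constructor
  · intro j i
    change Fin 2 at j i
    show Hs D ((D.p : ℤ) * ((![m, n] i : ℕ) : ℤ) - (D.p : ℤ) * ((![0, m + n] j : ℕ) : ℤ))
      (MSK.kD1 y g j i)
    fin_cases j <;> fin_cases i
    · exact iv_hs hy (by
        show (D.p : ℤ) * (m : ℤ) - (D.p : ℤ) * ((0 : ℕ) : ℤ) = (D.p : ℤ) * m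
        push_cast
        ring)
    · exact iv_hs hg (by
        show (D.p : ℤ) * (n : ℤ) - (D.p : ℤ) * ((0 : ℕ) : ℤ) = (D.p : ℤ) * n
        push_cast
        ring)
    · exact hs_zero _
    · exact hs_zero _
  · have h1 : !![C (D.X.bL ^ 0), 0; 0, C (D.X.bL ^ (m + n))] * (MSK.kD1 y g).map D.tauS =
        MSK.kD1 y g * !![C (D.X.bL ^ m), 0; 0, C (D.X.bL ^ n)] := by
      unfold MSK.kD1
      rw [map2, map_zero, iv_tau hy, iv_tau hg, Matrix.mul_fin_two, Matrix.mul_fin_two]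
      refine mk2_eq ?_ ?_ ?_ ?_
      · rw [pow_zero, map_one]
        ring
      · rw [pow_zero, map_one]
        ring
      · ring
      · ring
    rw [← dgB_map0 m n, ← dgB_map0 0 (m + n)] at h1
    exact h1

private theorem kD0_mulVec {R : Type*} [CommRing R] (y g : R) (v : Fin 2 → R) :
    MSK.kD0 y g *ᵥ v = ![-(g * v 1), y * v 1] := by
  funext i
  fin_cases i <;> simp [MSK.kD0, Matrix.mulVec, dotProduct, Fin.sum_univ_two]

private theorem kD1_mulVec {R : Type*} [CommRing R] (y g : R) (v : Fin 2 → R) :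
    MSK.kD1 y g *ᵥ v = ![y * v 0 + g * v 1, 0] := by
  funext i
  fin_cases i <;> simp [MSK.kD1, Matrix.mulVec, dotProduct, Fin.sum_univ_two]

theorem kos_ex0 (P : MSX.HP D.p D.L) (h : ¬ P.gen ∣ y ∨ ¬ P.gen ∣ g) :
    Exq P (MSK.kD0 y g) (MSK.kD1 y g) := by
  intro v hv
  rw [kD0_mulVec] at hv
  have h0 : -(g * v 1) = 0 := congrFun hv 0
  have h1 : y * v 1 = 0 := congrFun hv 1
  rcases h with h | h
  · have hy0 : y ≠ 0 := by
      rintro rfl
      exact h (dvd_zero _)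
    have hv1 : v 1 = 0 := (mul_eq_zero.1 h1).resolve_left hy0
    refine ⟨y, fun hm => h ((P.mem_iff y).1 hm), ![v 0, 0], ?_⟩
    rw [kD1_mulVec]
    funext i
    fin_cases i
    · show y * v 0 = y * v 0 + g * 0
      ring
    · show y * v 1 = 0
      exact h1
  · have hg0 : g ≠ 0 := by
      rintro rfl
      exact h (dvd_zero _)
    have hv1 : v 1 = 0 := (mul_eq_zero.1 (neg_eq_zero.1 h0)).resolve_left hg0
    refine ⟨g, fun hm => h ((P.mem_iff g).1 hm), ![0, v 0], ?_⟩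
    rw [kD1_mulVec]
    funext i
    fin_cases i
    · show g * v 0 = y * 0 + g * v 0
      ring
    · show g * v 1 = 0
      rw [hv1, mul_zero]

theorem kos_ex1 (P : MSX.HP D.p D.L) (h : ¬ P.gen ∣ y ∨ ¬ P.gen ∣ g) :
    Exq P (MSK.kD1 y g) (MSK.kD0 y g) := by
  intro v hv
  rw [kD1_mulVec] at hv
  have h0 : y * v 0 + g * v 1 = 0 := congrFun hv 0
  rcases h with h | h
  · refine ⟨y, fun hm => h ((P.mem_iff y).1 hm), ![0, v 1], ?_⟩
    rw [kD0_mulVec]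
    funext i
    fin_cases i
    · show y * v 0 = -(g * v 1)
      exact eq_neg_of_add_eq_zero_left h0
    · show y * v 1 = y * v 1
      rfl
  · refine ⟨g, fun hm => h ((P.mem_iff g).1 hm), ![0, -v 0], ?_⟩
    rw [kD0_mulVec]
    funext i
    fin_cases i
    · show g * v 0 = -(g * -v 0)
      ring
    · show g * v 1 = y * -v 0
      linear_combination h0

/-- the Koszul complex -/
def kosM (hy : D.Iv m y) (hg : D.Iv n g)
    (hP : ∀ P : MSX.HP D.p D.L, ¬ P.gen ∣ y ∨ ¬ P.gen ∣ g) : Mc D where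
  A0 := dgF D ![0, m + n]
  A1 := dgF D ![m, n]
  D0 := MSK.kD0 y g
  D1 := MSK.kD1 y g
  h0 := kos_hm0 hy hg
  h1 := kos_hm1 hy hg
  d10 := by
    show MSK.kD1 y g * MSK.kD0 y g = (0 : Matrix (Fin 2) (Fin 2) D.S)
    ext i j
    fin_cases i <;> fin_cases j <;> simp [MSK.kD0, MSK.kD1, Matrix.mul_apply, mul_comm]
  d01 := by
    show MSK.kD0 y g * MSK.kD1 y g = (0 : Matrix (Fin 2) (Fin 2) D.S)
    ext i j
    fin_cases i <;> fin_cases j <;> simp [MSK.kD0, MSK.kD1, Matrix.mul_apply]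
  ex0 := fun P => kos_ex0 P (hP P)
  ex1 := fun P => kos_ex1 P (hP P)

section perf

variable [PerfectField D.L]

variable (D m n) in
/-- the even object -/
abbrev kOe : MSK.Ob (kap D) :=
  MSK.kO0 (fun P : MSX.HP D.p D.L => MSX.Dat.yP P ^ m) (fun P => MSX.Dat.yP P ^ n)

variable (D m n) in
/-- the odd object -/
abbrev kOo : MSK.Ob (kap D) :=
  MSK.kO1 (fun P : MSX.HP D.p D.L => MSX.Dat.yP P ^ m) (fun P => MSX.Dat.yP P ^ n)

private theorem dgI_map (e : Fin 2 → ℕ) (P : MSX.HP D.p D.L) :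
    (dgI D e).map (MSX.phi P) =
      Matrix.diagonal (fun i => ((MSX.Dat.yP P ^ e i : (LaurentSeries (MSX.kP P))ˣ) :
        LaurentSeries (MSX.kP P))) := by
  unfold dgI
  rw [Matrix.diagonal_map (map_zero (MSX.phi P))]
  congr 1
  funext i
  rw [map_pow, Units.val_pow_eq_pow_val]
  rfl

variable (D m n) in
private theorem obe0 : obG (dgF D ![0, m + n]) (dgG D ![0, m + n]) (dgI D ![0, m + n])
    (bas_dg D ![0, m + n]).m (bas_dg D ![0, m + n]).m' = kOe D m n := by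
  refine congrArg (fun b : ∀ P, GL (Fin 2) (LaurentSeries (kap D P)) =>
    (⟨Fin 2, b⟩ : MSK.Ob (kap D))) (funext fun P => Units.ext ?_)
  refine (dgI_map ![0, m + n] P).trans ?_
  show _ = Matrix.diagonal (fun i => ((![1, MSX.Dat.yP P ^ m * MSX.Dat.yP P ^ n] i :
    (LaurentSeries (MSX.kP P))ˣ) : LaurentSeries (MSX.kP P)))
  congr 1
  funext i
  fin_cases i
  · show ((MSX.Dat.yP P ^ 0 : (LaurentSeries (MSX.kP P))ˣ) : LaurentSeries (MSX.kP P)) = ((1 :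
      (LaurentSeries (MSX.kP P))ˣ) : LaurentSeries (MSX.kP P))
    rw [pow_zero]
  · show ((MSX.Dat.yP P ^ (m + n) : (LaurentSeries (MSX.kP P))ˣ) : LaurentSeries (MSX.kP P)) =
      ((MSX.Dat.yP P ^ m * MSX.Dat.yP P ^ n : (LaurentSeries (MSX.kP P))ˣ) :
        LaurentSeries (MSX.kP P))
    rw [pow_add]

variable (D m n) in
private theorem obe1 : obG (dgF D ![m, n]) (dgG D ![m, n]) (dgI D ![m, n])
    (bas_dg D ![m, n]).m (bas_dg D ![m, n]).m' = kOo D m n := by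
  refine congrArg (fun b : ∀ P, GL (Fin 2) (LaurentSeries (kap D P)) =>
    (⟨Fin 2, b⟩ : MSK.Ob (kap D))) (funext fun P => Units.ext ?_)
  refine (dgI_map ![m, n] P).trans ?_
  show _ = Matrix.diagonal (fun i => ((![MSX.Dat.yP P ^ m, MSX.Dat.yP P ^ n] i :
    (LaurentSeries (MSX.kP P))ˣ) : LaurentSeries (MSX.kP P)))
  congr 1
  funext i
  fin_cases i <;> rfl

/-- transport of isomorphisms -/
private theorem iso_tr {O : MSK.Ob (kap D)} {b b' : ∀ P, GL (Fin 2) (LaurentSeries (kap D P))}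
    {h : Matrix (Fin 2) O.ι D.X.K} {h' : Matrix O.ι (Fin 2) D.X.K}
    (i : MSK.IsoM D.X.em O (⟨Fin 2, b⟩ : MSK.Ob (kap D)) h h')
    (e : (⟨Fin 2, b⟩ : MSK.Ob (kap D)) = ⟨Fin 2, b'⟩) :
    MSK.IsoM D.X.em O (⟨Fin 2, b'⟩ : MSK.Ob (kap D)) h h' := by
  have hb : b = b' := by
    injection e with e1 e2 e3 e4
  subst hb
  exact i

variable (D m n) in
theorem kos_iso0 : ∃ (h h' : Matrix (Fin 2) (Fin 2) D.X.K),
    MSK.IsoM D.X.em (ob (dgF D ![0, m + n])) (kOe D m n) h h' ∧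
    h.map kQ = dgI D ![0, m + n] * dgOm D ![0, m + n] ∧
    h'.map kQ = dgOi D ![0, m + n] * dgG D ![0, m + n] := by
  obtain ⟨N, N', h1, h2, h3, h4⟩ := bas_unique (bas_dg D ![0, m + n])
  have h5 := obG_iso' (bas_dg D ![0, m + n]) h1 h2 h3 h4
  exact ⟨N', N, iso_tr h5 (obe0 D m n), h4, h3⟩

variable (D m n) in
theorem kos_iso1 : ∃ (h h' : Matrix (Fin 2) (Fin 2) D.X.K),
    MSK.IsoM D.X.em (ob (dgF D ![m, n])) (kOo D m n) h h' ∧
    h.map kQ = dgI D ![m, n] * dgOm D ![m, n] ∧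
    h'.map kQ = dgOi D ![m, n] * dgG D ![m, n] := by
  obtain ⟨N, N', h1, h2, h3, h4⟩ := bas_unique (bas_dg D ![m, n])
  have h5 := obG_iso' (bas_dg D ![m, n]) h1 h2 h3 h4
  exact ⟨N', N, iso_tr h5 (obe1 D m n), h4, h3⟩

variable (D m n) in
theorem kos_ty0 : (MSK.stdTy D.X.em D.X.Os).Ty (kOe D m n) (rk (dgF D ![0, m + n])) := by
  have h1 := ty_obG (bas_dg D ![0, m + n])
  rw [obe0] at h1
  exact h1

variable (D m n) in
theorem kos_ty1 : (MSK.stdTy D.X.em D.X.Os).Ty (kOo D m n) (rk (dgF D ![m, n])) := by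
  have h1 := ty_obG (bas_dg D ![m, n])
  rw [obe1] at h1
  exact h1

private theorem kos_con {K : Type*} [Field K] (Y G : K) (h : Y ≠ 0 ∨ G ≠ 0) :
    ∃ s0 s1, MSK.IsC (MSK.kD0 Y G) (MSK.kD1 Y G) s0 s1 := by
  rcases h with h | h
  · exact ⟨_, _, MSK.IsC_kS Y Y⁻¹ G (mul_inv_cancel₀ h)⟩
  · exact ⟨_, _, MSK.IsC_kT Y G G⁻¹ (mul_inv_cancel₀ h)⟩

private theorem dg2_inv {k : Type*} [Field k] (a b : kˣ) :
    (((MSK.dg ![a, b])⁻¹ : GL (Fin 2) k) : Matrix (Fin 2) (Fin 2) k) =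
      !![((a⁻¹ : kˣ) : k), 0; 0, ((b⁻¹ : kˣ) : k)] := by
  show Matrix.diagonal (fun i => (((![a, b] i)⁻¹ : kˣ) : k)) = _
  ext i j
  fin_cases i <;> fin_cases j <;> simp

private theorem dg2 {k : Type*} [Field k] (a b : kˣ) :
    ((MSK.dg ![a, b] : GL (Fin 2) k) : Matrix (Fin 2) (Fin 2) k) = !![(a : k), 0; 0, (b : k)] := by
  show Matrix.diagonal (fun i => ((![a, b] i : kˣ) : k)) = _
  ext i j
  fin_cases i <;> fin_cases j <;> simp

/-- the Koszul matrices in the bases of the lattices -/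
private theorem kD_loc {k : Type*} [Field k] {Y G y' g' : k} {a b : kˣ} (h1 : Y * a = y')
    (h2 : G * b = g') :
    MSK.kD0 Y G = ((MSK.dg ![a, b] : GL (Fin 2) k) : Matrix (Fin 2) (Fin 2) k) *
        MSK.kD0 y' g' * (((MSK.dg ![1, a * b])⁻¹ : GL (Fin 2) k) : Matrix (Fin 2) (Fin 2) k) ∧
      MSK.kD1 Y G = ((MSK.dg ![1, a * b] : GL (Fin 2) k) : Matrix (Fin 2) (Fin 2) k) *
        MSK.kD1 y' g' * (((MSK.dg ![a, b])⁻¹ : GL (Fin 2) k) : Matrix (Fin 2) (Fin 2) k) := by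
  subst h1 h2
  have ha : (a : k) * ((a⁻¹ : kˣ) : k) = 1 := a.mul_inv
  have hb : (b : k) * ((b⁻¹ : kˣ) : k) = 1 := b.mul_inv
  have hab : (((a * b)⁻¹ : kˣ) : k) = ((a⁻¹ : kˣ) : k) * ((b⁻¹ : kˣ) : k) := by
    rw [mul_inv, Units.val_mul]
  rw [dg2, dg2_inv, dg2, dg2_inv, hab]
  unfold MSK.kD0 MSK.kD1
  rw [Matrix.mul_fin_two, Matrix.mul_fin_two, Matrix.mul_fin_two, Matrix.mul_fin_two]
  constructor
  · refine mk2_eq ?_ ?_ ?_ ?_
    · ring
    · linear_combination G * ha * ((b : k) * ((b⁻¹ : kˣ) : k)) + G * hb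
    · ring
    · linear_combination (-Y) * ha * ((b : k) * ((b⁻¹ : kˣ) : k)) - Y * hb
  · refine mk2_eq ?_ ?_ ?_ ?_
    · rw [Units.val_one]
      linear_combination (-Y) * ha
    · rw [Units.val_one]
      linear_combination (-G) * hb
    · ring
    · ring

theorem kos_cx (hy : D.Iv m y) (hg : D.Iv n g)
    (hP : ∀ P : MSX.HP D.p D.L, ¬ P.gen ∣ y ∨ ¬ P.gen ∣ g) :
    ∃ c : MSK.CX D.X.em (kOe D m n) (kOo D m n),
      c.D0 = MSK.kD0 (D.X.ivK hy) (D.X.ivK hg) ∧ c.D1 = MSK.kD1 (D.X.ivK hy) (D.X.ivK hg) := by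
  have con : ∃ s0 s1, MSK.IsC (MSK.kD0 (D.X.ivK hy) (D.X.ivK hg))
      (MSK.kD1 (D.X.ivK hy) (D.X.ivK hg)) s0 s1 := by
    obtain ⟨P, -⟩ := MSX.exists_irr (L := D.L) (MvPolynomial.isHomogeneous_X D.L (0 : Fin D.p))
      (MvPolynomial.X_ne_zero _) Nat.one_pos
    apply kos_con
    rcases hP P with h | h
    · exact Or.inl (D.X.ivK_ne hy (by rintro rfl; exact h (dvd_zero _)))
    · exact Or.inr (D.X.ivK_ne hg (by rintro rfl; exact h (dvd_zero _)))
  have loc : ∀ P : MSX.HP D.p D.L, ∃ t0 t1,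
      MSK.Lo2 (MSK.dg ![1, MSX.Dat.yP P ^ m * MSX.Dat.yP P ^ n])
        (MSK.dg ![MSX.Dat.yP P ^ m, MSX.Dat.yP P ^ n])
        ((MSK.kD0 (D.X.ivK hy) (D.X.ivK hg)).map (D.X.em P))
        ((MSK.kD1 (D.X.ivK hy) (D.X.ivK hg)).map (D.X.em P)) t0 t1 := by
    intro P
    have d10 : MSK.kD1 y g * MSK.kD0 y g = (0 : Matrix (Fin 2) (Fin 2) D.S) := by
      ext i j
      fin_cases i <;> fin_cases j <;>
        simp [MSK.kD0, MSK.kD1, Matrix.mul_apply, mul_comm]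
    have d01 : MSK.kD0 y g * MSK.kD1 y g = (0 : Matrix (Fin 2) (Fin 2) D.S) := by
      ext i j
      fin_cases i <;> fin_cases j <;> simp [MSK.kD0, MSK.kD1, Matrix.mul_apply]
    obtain ⟨t0, t1, ht⟩ := exists_psi P d10 d01 (kos_ex0 P (hP P)) (kos_ex1 P (hP P))
    have e1 : D.X.em P (D.X.ivK hy) *
        ((MSX.Dat.yP P ^ m : (LaurentSeries (MSX.kP P))ˣ) : LaurentSeries (MSX.kP P)) =
        MSK.iO (MSX.kP P) (MSX.psi P y) := D.X.em_ivK P hy
    have e2 : D.X.em P (D.X.ivK hg) *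
        ((MSX.Dat.yP P ^ n : (LaurentSeries (MSX.kP P))ˣ) : LaurentSeries (MSX.kP P)) =
        MSK.iO (MSX.kP P) (MSX.psi P g) := D.X.em_ivK P hg
    obtain ⟨k0, k1⟩ := kD_loc e1 e2
    have m0 : (MSK.kD0 (D.X.ivK hy) (D.X.ivK hg)).map (D.X.em P) =
        MSK.kD0 (D.X.em P (D.X.ivK hy)) (D.X.em P (D.X.ivK hg)) := by
      unfold MSK.kD0
      rw [map2, map_zero, map_neg]
    have m1 : (MSK.kD1 (D.X.ivK hy) (D.X.ivK hg)).map (D.X.em P) =
        MSK.kD1 (D.X.em P (D.X.ivK hy)) (D.X.em P (D.X.ivK hg)) := by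
      unfold MSK.kD1
      rw [map2, map_zero]
    have n0 : MSK.kD0 (MSK.iO (MSX.kP P) (MSX.psi P y)) (MSK.iO (MSX.kP P) (MSX.psi P g)) =
        ((MSK.kD0 y g).map (MSX.psi P)).map (MSK.iO (MSX.kP P)) := by
      unfold MSK.kD0
      rw [map2, map2, map_zero, map_zero, map_neg, map_neg]
    have n1 : MSK.kD1 (MSK.iO (MSX.kP P) (MSX.psi P y)) (MSK.iO (MSX.kP P) (MSX.psi P g)) =
        ((MSK.kD1 y g).map (MSX.psi P)).map (MSK.iO (MSX.kP P)) := by
      unfold MSK.kD1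
      rw [map2, map2, map_zero, map_zero]
    rw [m0, m1, k0, k1, n0, n1]
    exact ⟨_, _, (ht.map (MSK.iO (MSX.kP P))).conj _ _ _ _ (MSK.GL_inv_mul _) (MSK.GL_mul_inv _)
      (MSK.GL_inv_mul _) (MSK.GL_mul_inv _), ⟨_, rfl⟩, ⟨_, rfl⟩, ⟨_, rfl⟩, ⟨_, rfl⟩⟩
  exact ⟨⟨MSK.kD0 (D.X.ivK hy) (D.X.ivK hg), MSK.kD1 (D.X.ivK hy) (D.X.ivK hg), con, loc⟩,
    rfl, rfl⟩

end perf

private theorem dgI2 (a b : ℕ) :
    dgI D ![a, b] = !![(iQ D MSX.Dat.y0) ^ a, 0; 0, (iQ D MSX.Dat.y0) ^ b] := by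
  unfold dgI
  ext i j
  fin_cases i <;> fin_cases j <;> simp

private theorem dgG2 (a b : ℕ) : dgG D ![a, b] =
    !![(iQ D MSX.Dat.y0) ^ (-(a : ℤ)), 0; 0, (iQ D MSX.Dat.y0) ^ (-(b : ℤ))] := by
  unfold dgG
  ext i j
  fin_cases i <;> fin_cases j <;> simp

private theorem kQ_iv {k : ℕ} {f : D.S} (hf : D.Iv k f) :
    kQ (D.X.ivK hf) = iQ D f / (iQ D MSX.Dat.y0) ^ k := rfl

theorem kos_comm0 (hy : D.Iv m y) (hg : D.Iv n g) :
    (MSK.kD0 (D.X.ivK hy) (D.X.ivK hg)).map kQ =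
      dgI D ![m, n] * (MSK.kD0 y g).map (iQ D) * dgG D ![0, m + n] := by
  have hm := pow_ne_zero m (yQ_ne D)
  have hn := pow_ne_zero n (yQ_ne D)
  unfold MSK.kD0
  rw [dgI2, dgG2, map2, map2, map_neg, map_neg, map_zero, map_zero, kQ_iv, kQ_iv,
    Matrix.mul_fin_two, Matrix.mul_fin_two, _root_.zpow_neg, _root_.zpow_neg, zpow_natCast, zpow_natCast,
    pow_add]
  generalize (iQ D) MSX.Dat.y0 ^ m = a at hm
  generalize (iQ D) MSX.Dat.y0 ^ n = b at hn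
  refine mk2_eq ?_ ?_ ?_ ?_
  · ring
  · field_simp
    ring
  · ring
  · field_simp
    ring

theorem kos_comm1 (hy : D.Iv m y) (hg : D.Iv n g) :
    (MSK.kD1 (D.X.ivK hy) (D.X.ivK hg)).map kQ =
      dgI D ![0, m + n] * (MSK.kD1 y g).map (iQ D) * dgG D ![m, n] := by
  have hm := pow_ne_zero m (yQ_ne D)
  have hn := pow_ne_zero n (yQ_ne D)
  unfold MSK.kD1
  rw [dgI2, dgG2, map2, map2, map_zero, map_zero, kQ_iv, kQ_iv,
    Matrix.mul_fin_two, Matrix.mul_fin_two, _root_.zpow_neg, _root_.zpow_neg, zpow_natCast, zpow_natCast,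
    pow_zero]
  generalize (iQ D) MSX.Dat.y0 ^ m = a at hm
  generalize (iQ D) MSX.Dat.y0 ^ n = b at hn
  refine mk2_eq ?_ ?_ ?_ ?_
  · rw [div_eq_mul_inv]
    ring
  · rw [div_eq_mul_inv]
    ring
  · ring
  · ring

end MSV
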