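import Mathlib
import Pool.Agent.MSV.Kdg
import Pool.Agent.MSA.Rkc
import Pool.Agent.MSA.PwDg

/-!
# CONV: the Koszul complex of modules of two invariants has the matrices of `kosM`

PROOFS.
* `ctr2_*`: in the exterior algebra of `F^2`: `bE ∅ = 1` (`bE_empty'`), `bE {j} = ι e_j`, `bE {0,1} = ι e_0 * ι e_1` (`ExteriorAlgebra.basis_apply`, the increasing enumeration; compare the private lemmas
  `bE_eq`, `rkc_bE_sing` in `MSA/Rkc`), and `contractLeft d (ι v * x) = d v • x - ι v * contractLeft d x` (`CliffordAlgebra.contractLeft_ι_mul`), `contractLeft d 1 = 0`.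
* `rep_kos`: `K = D.kCI hy hg`, `K.J = Fin 2`. Coordinates `x ↦ ![x ∅, x {0,1}]` on the even part and `x ↦ ![x {0}, x {1}]` on the odd part (`Sr D.ph` is `D.S`, `toSr`; the elements of `K.part Z 0` vanish on the
  sets of odd cardinality, `KS.mem_part`). `sm`: `KS.iot_smul`, `sr_iot`. `ta`, `th`: `KS.gam_smul`, `repr_mpE_diag` with `v j = D.chi (e j) g`, `e = ![m, n]` (`rhoI`), `sr_gam`: on the basis vector `A` the scalar is
  `∏_(j∈A) chi (e j)`, for `τ`: `b^(∑ e_j)`, for `θ_a`: `a^(p ∑ e_j)`. Matrices of `d`: `KS.da_apply` (`d x = ∑_j y_j • op (ctr j) x`), `KS.op_apply`, `ctr2_*`: `d e_0 = y e_∅`, `d e_1 = g e_∅`, `d e_01 = y e_1 - g e_0`: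
  `D1 = kD1 y g = !![y, g; 0, 0]`, `D0 = kD0 y g = !![0, -g; 0, y]`.
-/

set_option autoImplicit false
set_option linter.unusedSectionVars false

noncomputable section

namespace MSV

open MvPolynomial Pool.Agent Matrix MSA

universe u

section

variable {F : Type u} [Field F]

private theorem bE_one (j : Fin 2) : bE F (Fin 2) {j} =
    wdg (Pi.single j 1 : Fin 2 → F) (1 : EA F (Fin 2)) := by
  have h1 : bE F (Fin 2) {j} = ExteriorAlgebra.ιMulti F 1
      ((Pi.basisFun F (Fin 2)) ∘ (({j} : Finset (Fin 2)).orderEmbOfFin (Finset.card_singleton j))) :=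
    ExteriorAlgebra.basis_apply_ofCard (Pi.basisFun F (Fin 2)) (s := {j})
      (Finset.card_singleton j)
  rw [h1, ExteriorAlgebra.ιMulti_apply]
  show _ = ExteriorAlgebra.ι F (Pi.single j 1 : Fin 2 → F) * 1
  simp

private theorem bE_two : bE F (Fin 2) {0, 1} =
    wdg (Pi.single 0 1 : Fin 2 → F) (wdg (Pi.single 1 1 : Fin 2 → F) (1 : EA F (Fin 2))) := by
  have hc : ({0, 1} : Finset (Fin 2)).card = 2 := rfl
  have h1 : bE F (Fin 2) {0, 1} = ExteriorAlgebra.ιMulti F 2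
      ((Pi.basisFun F (Fin 2)) ∘ (({0, 1} : Finset (Fin 2)).orderEmbOfFin hc)) :=
    ExteriorAlgebra.basis_apply_ofCard (Pi.basisFun F (Fin 2)) (s := {0, 1}) hc
  have h2 : (id : Fin 2 → Fin 2) = ({0, 1} : Finset (Fin 2)).orderEmbOfFin hc :=
    Finset.orderEmbOfFin_unique hc (fun x => by fin_cases x <;> simp) strictMono_id
  rw [h1, ExteriorAlgebra.ιMulti_apply, ← h2]
  show _ = ExteriorAlgebra.ι F (Pi.single 0 1 : Fin 2 → F) *
    (ExteriorAlgebra.ι F (Pi.single 1 1 : Fin 2 → F) * 1)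
  simp [List.ofFn_succ]

private theorem ctr_wdg2 (i : Fin 2) (v : Fin 2 → F) (x : EA F (Fin 2)) :
    (ctr i : EA F (Fin 2) →ₗ[F] EA F (Fin 2)) (wdg v x) =
      v i • x - wdg v ((ctr i : EA F (Fin 2) →ₗ[F] EA F (Fin 2)) x) := by
  have h := LinearMap.congr_fun (ctr_wdg i v) x
  rw [eq_sub_iff_add_eq]
  exact h

private theorem ctr_one2 (i : Fin 2) :
    (ctr i : EA F (Fin 2) →ₗ[F] EA F (Fin 2)) (1 : EA F (Fin 2)) = 0 :=
  CliffordAlgebra.contractLeft_one (Q := (0 : QuadraticForm F (Fin 2 → F))) _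

theorem ctr2_emp (i : Fin 2) : (ctr i : EA F (Fin 2) →ₗ[F] EA F (Fin 2)) (bE F (Fin 2) ∅) = 0 := by
  rw [bE_empty']
  exact ctr_one2 i

theorem ctr2_one (i j : Fin 2) : (ctr i : EA F (Fin 2) →ₗ[F] EA F (Fin 2)) (bE F (Fin 2) {j}) =
    if i = j then bE F (Fin 2) ∅ else 0 := by
  rw [bE_one, ctr_wdg2, ctr_one2, map_zero, sub_zero, bE_empty']
  by_cases h : i = j
  · rw [h, Pi.single_eq_same, one_smul, if_pos rfl]
  · rw [Pi.single_eq_of_ne h, zero_smul, if_neg h]

theorem ctr2_zero : (ctr 0 : EA F (Fin 2) →ₗ[F] EA F (Fin 2)) (bE F (Fin 2) {0, 1}) =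
    bE F (Fin 2) {1} := by
  rw [bE_two, ctr_wdg2, ctr_wdg2, ctr_one2, map_zero, sub_zero, Pi.single_eq_same, one_smul,
    Pi.single_eq_of_ne (by decide), zero_smul, map_zero, sub_zero, bE_one]

theorem ctr2_two : (ctr 1 : EA F (Fin 2) →ₗ[F] EA F (Fin 2)) (bE F (Fin 2) {0, 1}) =
    -bE F (Fin 2) {0} := by
  rw [bE_two, ctr_wdg2, ctr_wdg2, ctr_one2, map_zero, sub_zero, Pi.single_eq_same, one_smul,
    Pi.single_eq_of_ne (by decide), zero_smul, zero_sub, bE_one]

end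


variable {D : MSA.Dat.{u}} {m n : ℕ} {y g : D.S}

section kos

variable (hy : D.Iv m y) (hg : D.Iv n g)

private theorem rho_diag (γ : Gn D.F) (j : Fin 2) :
    (D.kCI hy hg).rho γ (Pi.single j 1 : Fin 2 → D.F) =
      D.chi (![m, n] j : ℕ) γ • (Pi.single j 1 : Fin 2 → D.F) := by
  have key : ∀ x : Fin 2, D.chi (![m, n] x : ℕ) γ * (Pi.single j 1 : Fin 2 → D.F) x =
      D.chi (![m, n] j : ℕ) γ * (Pi.single j 1 : Fin 2 → D.F) x := by
    intro x
    by_cases h : x = j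
    · rw [h]
    · rw [Pi.single_eq_of_ne h, mul_zero, mul_zero]
  exact funext key

/-- values in `D.S` -/
private def xv (x : (D.kCI hy hg).Tot (Sr D.ph)) (B : Finset (Fin 2)) : D.S :=
  (toSr D.ph).symm (x B)

private theorem xv_add (x x' : (D.kCI hy hg).Tot (Sr D.ph)) (B : Finset (Fin 2)) :
    xv hy hg (x + x') B = xv hy hg x B + xv hy hg x' B := rfl

private theorem gam_val (γ : Gn D.F) (x : (D.kCI hy hg).Tot (Sr D.ph)) (B : Finset (Fin 2)) :
    xv hy hg (gam D.ph γ • x) B = algebraMap D.F D.S (∏ j ∈ B, D.chi (![m, n] j : ℕ) γ) *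
      D.ph γ (xv hy hg x B) := by
  have h1 : ∀ A : Finset (Fin 2), (bE D.F (Fin 2)).repr
      (mpE ((D.kCI hy hg).rho γ) (bE D.F (Fin 2) A)) B =
        if A = B then ∏ j ∈ B, D.chi (![m, n] j : ℕ) γ else 0 :=
    fun A => repr_mpE_diag (fun j => D.chi (![m, n] j : ℕ) γ) _ (rho_diag hy hg γ) A B
  have h2 := (D.kCI hy hg).gam_smul γ x B
  refine (congrArg (toSr D.ph).symm h2).trans ?_
  have h3 : ∀ A : Finset (Fin 2), iot D.ph (algebraMap D.F D.S ((bE D.F (Fin 2)).repr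
      (mpE ((D.kCI hy hg).rho γ) (bE D.F (Fin 2) A)) B)) • gam D.ph γ • x A =
        if A = B then toSr D.ph (algebraMap D.F D.S (∏ j ∈ B, D.chi (![m, n] j : ℕ) γ) *
          D.ph γ (xv hy hg x B)) else 0 := by
    intro A
    rw [h1]
    by_cases hA : A = B
    · subst hA
      rw [if_pos rfl, if_pos rfl]
      show iot D.ph _ • gam D.ph γ • toSr D.ph ((toSr D.ph).symm (x A)) = _
      rw [sr_gam, sr_iot]
      rfl
    · rw [if_neg hA, if_neg hA, map_zero, map_zero, zero_smul]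
  refine (congrArg (toSr D.ph).symm ((Finset.sum_congr rfl fun A _ => h3 A).trans
    (Finset.sum_ite_eq' Finset.univ B (fun _ => toSr D.ph (algebraMap D.F D.S
      (∏ j ∈ B, D.chi (![m, n] j : ℕ) γ) * D.ph γ (xv hy hg x B)))))).trans ?_
  rw [if_pos (Finset.mem_univ _), RingEquiv.symm_apply_apply]

private theorem iot_val (s : D.S) (x : (D.kCI hy hg).Tot (Sr D.ph)) (B : Finset (Fin 2)) :
    xv hy hg (iot D.ph s • x) B = s * xv hy hg x B :=
  congrArg (toSr D.ph).symm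
    (((D.kCI hy hg).iot_smul s x B).trans (sr_iot D.ph s ((toSr D.ph).symm (x B))))

private theorem kcc_eq (j : Fin 2) (x : (D.kCI hy hg).Tot (Sr D.ph)) (B : Finset (Fin 2)) :
    xv hy hg ((D.kCI hy hg).cc j x) B = ∑ A : Finset (Fin 2), algebraMap D.F D.S
      ((bE D.F (Fin 2)).repr ((ctr j : EA D.F (Fin 2) →ₗ[D.F] EA D.F (Fin 2))
        (bE D.F (Fin 2) A)) B) * xv hy hg x A := by
  have h := (D.kCI hy hg).op_apply (ctr j) x B
  refine (congrArg (toSr D.ph).symm h).trans ?_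
  rw [map_sum]
  refine Finset.sum_congr rfl fun A _ => ?_
  exact congrArg (toSr D.ph).symm (sr_iot D.ph _ ((toSr D.ph).symm (x A)))

private theorem sum4 {M : Type*} [AddCommMonoid M] (f : Finset (Fin 2) → M) :
    ∑ A : Finset (Fin 2), f A = f ∅ + (f {0} + (f {1} + f {0, 1})) := by
  have h : (Finset.univ : Finset (Finset (Fin 2))) = {∅, {0}, {1}, {0, 1}} := by decide
  rw [h, Finset.sum_insert (by decide), Finset.sum_insert (by decide),
    Finset.sum_insert (by decide), Finset.sum_singleton]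

private theorem rs {F : Type u} [Field F] {A B : Finset (Fin 2)} :
    (bE F (Fin 2)).repr (bE F (Fin 2) A) B = if A = B then 1 else 0 := by
  rw [Module.Basis.repr_self]
  by_cases h : A = B
  · subst h
    rw [if_pos rfl, Finsupp.single_eq_same]
  · rw [if_neg h, Finsupp.single_eq_of_ne (Ne.symm h)]

private theorem kcc_val0 (x : (D.kCI hy hg).Tot (Sr D.ph)) (B : Finset (Fin 2)) :
    xv hy hg ((D.kCI hy hg).cc (0 : Fin 2) x) B = (if ∅ = B then xv hy hg x {0} else 0) +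
      (if {1} = B then xv hy hg x {0, 1} else 0) := by
  rw [kcc_eq, sum4, ctr2_emp, ctr2_one, ctr2_one, ctr2_zero, if_pos rfl, if_neg (by decide), rs, rs,
    map_zero, Finsupp.zero_apply, map_zero, zero_mul, zero_mul, zero_add, zero_add]
  congr 1
  · split_ifs
    · rw [map_one, one_mul]
    · rw [map_zero, zero_mul]
  · split_ifs
    · rw [map_one, one_mul]
    · rw [map_zero, zero_mul]

private theorem kcc_val1 (x : (D.kCI hy hg).Tot (Sr D.ph)) (B : Finset (Fin 2)) :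
    xv hy hg ((D.kCI hy hg).cc (1 : Fin 2) x) B = (if ∅ = B then xv hy hg x {1} else 0) +
      (if {0} = B then - xv hy hg x {0, 1} else 0) := by
  rw [kcc_eq, sum4, ctr2_emp, ctr2_one, ctr2_one, ctr2_two, if_pos rfl, if_neg (by decide), rs,
    map_neg, Finsupp.neg_apply, rs, map_zero, Finsupp.zero_apply, map_zero, zero_mul, zero_mul,
    zero_add, zero_add]
  congr 1
  · split_ifs
    · rw [map_one, one_mul]
    · rw [map_zero, zero_mul]
  · split_ifs
    · rw [map_neg, map_one, neg_one_mul]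
    · rw [neg_zero, map_zero, zero_mul]

private theorem d_val2 (x : (D.kCI hy hg).Tot (Sr D.ph)) (B : Finset (Fin 2)) :
    xv hy hg ((D.kCI hy hg).d x) B = y * xv hy hg ((D.kCI hy hg).cc (0 : Fin 2) x) B +
      g * xv hy hg ((D.kCI hy hg).cc (1 : Fin 2) x) B := by
  have h := (D.kCI hy hg).d_val x B
  refine (congrArg (toSr D.ph).symm h).trans ?_
  rw [map_sum]
  refine (Fin.sum_univ_two (fun j : Fin 2 => (toSr D.ph).symm
    (iot D.ph ((D.kCI hy hg).y j) • (D.kCI hy hg).cc j x B))).trans ?_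
  refine congrArg₂ (· + ·) ?_ ?_
  · exact congrArg (toSr D.ph).symm (sr_iot D.ph y ((toSr D.ph).symm
      ((D.kCI hy hg).cc (0 : Fin 2) x B)))
  · exact congrArg (toSr D.ph).symm (sr_iot D.ph g ((toSr D.ph).symm
      ((D.kCI hy hg).cc (1 : Fin 2) x B)))

private theorem d_emp (x : (D.kCI hy hg).Tot (Sr D.ph)) : xv hy hg ((D.kCI hy hg).d x) ∅ =
    y * xv hy hg x {0} + g * xv hy hg x {1} := by
  rw [d_val2, kcc_val0, kcc_val1, if_pos rfl, if_pos rfl, if_neg (by decide), if_neg (by decide),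
    add_zero, add_zero]

private theorem d_0 (x : (D.kCI hy hg).Tot (Sr D.ph)) : xv hy hg ((D.kCI hy hg).d x) {0} =
    - (g * xv hy hg x {0, 1}) := by
  rw [d_val2, kcc_val0, kcc_val1, if_neg (by decide), if_neg (by decide), if_neg (by decide),
    if_pos rfl, add_zero, mul_zero, zero_add, zero_add, mul_neg]

private theorem d_1 (x : (D.kCI hy hg).Tot (Sr D.ph)) : xv hy hg ((D.kCI hy hg).d x) {1} =
    y * xv hy hg x {0, 1} := by
  rw [d_val2, kcc_val0, kcc_val1, if_neg (by decide), if_pos rfl, if_neg (by decide),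
    if_neg (by decide), add_zero, mul_zero, zero_add, add_zero]

private theorem d_01 (x : (D.kCI hy hg).Tot (Sr D.ph)) : xv hy hg ((D.kCI hy hg).d x) {0, 1} =
    0 := by
  rw [d_val2, kcc_val0, kcc_val1, if_neg (by decide), if_neg (by decide), if_neg (by decide),
    if_neg (by decide), add_zero, mul_zero, mul_zero, add_zero]

end kos

section kos2

variable (hy : D.Iv m y) (hg : D.Iv n g)

private theorem chi_prod_tau (B : Finset (Fin 2)) :
    ∏ j ∈ B, D.chi (![m, n] j : ℕ) Gn.tau = D.b ^ (∑ j ∈ B, ![m, n] j) := by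
  rw [← Finset.prod_pow_eq_pow_sum]
  refine Finset.prod_congr rfl fun j _ => ?_
  show D.b ^ ((![m, n] j : ℕ) : ℤ) = _
  rw [zpow_natCast]

private theorem chi_prod_th (c : D.Fˣ) (B : Finset (Fin 2)) :
    ∏ j ∈ B, D.chi (![m, n] j : ℕ) (Gn.th c) =
      ((c ^ ((D.p : ℤ) * ((∑ j ∈ B, ![m, n] j : ℕ) : ℤ)) : D.Fˣ) : D.F) := by
  rw [_root_.zpow_mul, zpow_natCast, zpow_natCast, ← pow_mul, Finset.mul_sum, Units.val_pow_eq_pow_val,
    ← Finset.prod_pow_eq_pow_sum]
  refine Finset.prod_congr rfl fun j _ => ?_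
  show (c : D.F) ^ ((D.p : ℤ) * ((![m, n] j : ℕ) : ℤ)) = _
  rw [← Nat.cast_mul, zpow_natCast]

/-- coordinates of a part -/
private def ecor (st : Fin 2 → Finset (Fin 2)) (i : ZMod 2)
    (h1 : ∀ A : Finset (Fin 2), (A.card : ZMod 2) = i → A = st 0 ∨ A = st 1)
    (h2 : ∀ j, ((st j).card : ZMod 2) = i) (h3 : st 0 ≠ st 1) :
    (D.kCI hy hg).part (Sr D.ph) i ≃+ (Fin 2 → D.S) where
  toFun x j := xv hy hg x.1 (st j)
  invFun v := ⟨fun A => toSr D.ph (if A = st 0 then v 0 else if A = st 1 then v 1 else 0), by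
    intro A hA
    show toSr D.ph (if A = st 0 then v 0 else if A = st 1 then v 1 else 0) = 0
    rw [if_neg (fun h => hA (by rw [h]; exact h2 0)), if_neg (fun h => hA (by rw [h]; exact h2 1)),
      map_zero]⟩
  left_inv x := by
    apply Subtype.ext
    funext A
    show toSr D.ph (if A = st 0 then xv hy hg x.1 (st 0) else
      if A = st 1 then xv hy hg x.1 (st 1) else 0) = x.1 A
    by_cases a0 : A = st 0
    · rw [if_pos a0, ← a0]
      rfl
    · rw [if_neg a0]
      by_cases a1 : A = st 1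
      · rw [if_pos a1, ← a1]
        rfl
      · rw [if_neg a1, map_zero]
        refine (x.2 A fun h => ?_).symm
        rcases h1 A h with h | h
        · exact a0 h
        · exact a1 h
  right_inv v := by
    funext j
    show (if st j = st 0 then v 0 else if st j = st 1 then v 1 else 0) = v j
    fin_cases j
    · exact if_pos rfl
    · exact (if_neg (Ne.symm h3)).trans (if_pos rfl)
  map_add' x x' := rfl

private theorem mcor_ta (st : Fin 2 → Finset (Fin 2)) (e : Fin 2 → ℕ)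
    (he : ∀ j, ∑ k ∈ st j, ![m, n] k = e j) (x : (D.kCI hy hg).Tot (Sr D.ph)) (j : Fin 2) :
    xv hy hg (gam D.ph Gn.tau • x) (st j) = ∑ k : Fin 2, C (Matrix.diagonal
      (fun i => D.X.bL ^ e i) j k) * D.tauS (xv hy hg x (st k)) := by
  rw [gam_val, chi_prod_tau, he, Finset.sum_eq_single j]
  · rw [Matrix.diagonal_apply_eq]
    show C (algebraMap D.F D.L (D.b ^ e j)) * _ = _
    rw [map_pow (algebraMap D.F D.L)]
    rfl
  · intro k _ hk
    rw [Matrix.diagonal_apply_ne _ (Ne.symm hk), map_zero, zero_mul]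
  · intro h
    exact absurd (Finset.mem_univ j) h

private theorem mcor_th (st : Fin 2 → Finset (Fin 2)) (e : Fin 2 → ℕ)
    (he : ∀ j, ∑ k ∈ st j, ![m, n] k = e j) (a : D.Fˣ) (x : (D.kCI hy hg).Tot (Sr D.ph))
    (j : Fin 2) : xv hy hg (gam D.ph (Gn.th a) • x) (st j) = C (algebraMap D.F D.L
      ((a ^ ((D.p : ℤ) * (e j : ℤ)) : D.Fˣ) : D.F)) * D.thS a (xv hy hg x (st j)) := by
  rw [gam_val, chi_prod_th, he]
  rfl

private def mcor (st : Fin 2 → Finset (Fin 2)) (i : ZMod 2)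
    (h1 : ∀ A : Finset (Fin 2), (A.card : ZMod 2) = i → A = st 0 ∨ A = st 1)
    (h2 : ∀ j, ((st j).card : ZMod 2) = i) (h3 : st 0 ≠ st 1) (e : Fin 2 → ℕ)
    (he : ∀ j, ∑ k ∈ st j, ![m, n] k = e j) :
    Cor (dgF D e) ((D.kCI hy hg).part (Sr D.ph) i) where
  e := ecor hy hg st i h1 h2 h3
  sm f x j := iot_val hy hg f x.1 (st j)
  ta x j := mcor_ta hy hg st e he x.1 j
  th a x j := mcor_th hy hg st e he a x.1 j

private theorem mat_eq {X X' : Type u} [AddCommGroup X] [Module D.R X] [AddCommGroup X']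
    [Module D.R X'] {A A' : Fr D} (c : Cor A X) (c' : Cor A' X') (f : X →ₗ[D.R] X')
    (T : Matrix A'.ι A.ι D.S) (h : ∀ x, c'.e (f x) = T *ᵥ c.e x) : c.mat c' f = T := by
  ext1 j i
  show c'.e (f (c.e.symm (Pi.single i 1))) j = T j i
  rw [h, AddEquiv.apply_symm_apply, Matrix.mulVec_single_one]
  rfl

theorem rep_kos (hy : D.Iv m y) (hg : D.Iv n g)
    (hP : ∀ P : MSX.HP D.p D.L, ¬ P.gen ∣ y ∨ ¬ P.gen ∣ g) :
    Nonempty (Rep (kosM hy hg hP) ((D.kCI hy hg).ch (Sr D.ph))) := by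
  let c0 : Cor (dgF D ![0, m + n]) ((D.kCI hy hg).part (Sr D.ph) 0) :=
    mcor hy hg ![∅, {0, 1}] 0 (by decide) (by decide) (by decide) ![0, m + n] (by
      intro j
      fin_cases j
      · rfl
      · exact (Finset.sum_pair (by decide)).trans rfl)
  let c1 : Cor (dgF D ![m, n]) ((D.kCI hy hg).part (Sr D.ph) 1) :=
    mcor hy hg ![{0}, {1}] 1 (by decide) (by decide) (by decide) ![m, n] (by
      intro j
      fin_cases j
      · exact Finset.sum_singleton _ _
      · exact Finset.sum_singleton _ _)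
  refine ⟨⟨c0, c1, mat_eq c0 c1 _ _ fun x => ?_, mat_eq c1 c0 _ _ fun x => ?_⟩⟩
  · have h0 : xv hy hg ((D.kCI hy hg).d x.1) {0} = (MSK.kD0 y g *ᵥ (c0.e x)) 0 := by
      rw [d_0]
      show _ = (MSK.kD0 y g *ᵥ ![xv hy hg x.1 ∅, xv hy hg x.1 {0, 1}]) 0
      simp [MSK.kD0, Matrix.mulVec, dotProduct]
    have h1 : xv hy hg ((D.kCI hy hg).d x.1) {1} = (MSK.kD0 y g *ᵥ (c0.e x)) 1 := by
      rw [d_1]
      show _ = (MSK.kD0 y g *ᵥ ![xv hy hg x.1 ∅, xv hy hg x.1 {0, 1}]) 1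
      simp [MSK.kD0, Matrix.mulVec, dotProduct]
    have key : ∀ j : Fin 2, c1.e (((D.kCI hy hg).ch (Sr D.ph)).d0 x) j =
        (MSK.kD0 y g *ᵥ (c0.e x)) j := by
      intro j
      fin_cases j
      · exact h0
      · exact h1
    exact funext key
  · have h0 : xv hy hg ((D.kCI hy hg).d x.1) ∅ = (MSK.kD1 y g *ᵥ (c1.e x)) 0 := by
      rw [d_emp]
      show _ = (MSK.kD1 y g *ᵥ ![xv hy hg x.1 {0}, xv hy hg x.1 {1}]) 0
      simp [MSK.kD1, Matrix.mulVec, dotProduct]
    have h1 : xv hy hg ((D.kCI hy hg).d x.1) {0, 1} = (MSK.kD1 y g *ᵥ (c1.e x)) 1 := by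
      rw [d_01]
      show _ = (MSK.kD1 y g *ᵥ ![xv hy hg x.1 {0}, xv hy hg x.1 {1}]) 1
      simp [MSK.kD1, Matrix.mulVec, dotProduct]
    have key : ∀ j : Fin 2, c0.e (((D.kCI hy hg).ch (Sr D.ph)).d1 x) j =
        (MSK.kD1 y g *ᵥ (c1.e x)) j := by
      intro j
      fin_cases j
      · exact h0
      · exact h1
    exact funext key

end kos2

end MSV
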