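import Mathlib
import Pool.Agent.MSV.Fin
import Pool.Agent.MSV.Kch

/-!
# CONV: the value of the additive function on Koszul complexes

PROOFS.
* `conv_iso`: `psiT_v`, then `MSK.cls_iso` (the types are equal by definition).
* `conv_kos`: `rep_kos`, `conv_iso` with `kos_iso0`, `kos_iso1`, `kos_ty0`, `kos_ty1`; the commutation `c.D0 * h0 = h1 * kmat D0`: apply the injective `kQ`:
  `(dgI(m,n) * D0 * dgG(0,m+n)) * (dgI(0,m+n) * Om0) = dgI(m,n) * D0 * Om0 = (dgI(m,n) * Om1) * (Oi1 * D0 * Om0)` (`kos_comm0`, `bas_dg`, `kmat_Q`, `Om_Oi`).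
-/

set_option autoImplicit false
set_option linter.unusedSectionVars false

noncomputable section

namespace MSV

open MvPolynomial Pool.Agent Matrix MSA

universe u

variable {D : MSA.Dat.{u}} [PerfectField D.L]

private theorem kfin_inj {α β : Type*} {M N : Matrix α β D.X.K} (h : M.map kQ = N.map kQ) :
    M = N :=
  Matrix.map_injective (f := kQ) (Subtype.val_injective : Function.Injective (kQ (D := D))) h

/-- change of the basis, one degree -/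
private theorem kfin_comm {A A' : Fr D} {G G' : Matrix A.ι A.ι (Qf D)}
    {H' : Matrix A'.ι A'.ι (Qf D)} (hG : G * G' = 1) {T : Matrix A'.ι A.ι D.S}
    (hT : Hm A A' T) {c : Matrix A'.ι A.ι D.X.K}
    (hc : c.map kQ = HMul.hMul (HMul.hMul H' (T.map (iQ D))) G)
    {N : Matrix A.ι A.ι D.X.K} (hN : N.map kQ = G' * A.Om) {N' : Matrix A'.ι A'.ι D.X.K}
    (hN' : N'.map kQ = H' * A'.Om) :
    HMul.hMul c N = HMul.hMul N' (kmat (A := A) (A' := A') T) := by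
  apply kfin_inj
  rw [Matrix.map_mul, Matrix.map_mul, hc, hN, hN', kmat_Q hT]
  have h1 : HMul.hMul (HMul.hMul (HMul.hMul H' (T.map (iQ D))) G) (G' * A.Om) =
      HMul.hMul (HMul.hMul H' (T.map (iQ D))) A.Om := by
    rw [Matrix.mul_assoc, ← Matrix.mul_assoc G, hG, Matrix.one_mul]
  have h2 : HMul.hMul (HMul.hMul H' A'.Om) (HMul.hMul (HMul.hMul A'.Oi (T.map (iQ D))) A.Om) =
      HMul.hMul (HMul.hMul H' (T.map (iQ D))) A.Om := by
    rw [Matrix.mul_assoc A'.Oi, Matrix.mul_assoc H' A'.Om, ← Matrix.mul_assoc A'.Om, A'.Om_Oi,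
      Matrix.one_mul, Matrix.mul_assoc]
  exact h1.trans h2.symm

theorem conv_iso {X : MSA.Ch.{u} D.R} {M : Mc D} (r : Rep M X) {O0 O1 : MSK.Ob (kap D)}
    (ty0 : (tyD D).Ty O0 (rk M.A0)) (ty1 : (tyD D).Ty O1 (rk M.A1)) (c : MSK.CX D.X.em O0 O1)
    {h0 : Matrix O0.ι M.A0.ι D.X.K} {h0' : Matrix M.A0.ι O0.ι D.X.K} {h1 : Matrix O1.ι M.A1.ι D.X.K}
    {h1' : Matrix M.A1.ι O1.ι D.X.K} (i0 : MSK.IsoM D.X.em (ob M.A0) O0 h0 h0')
    (i1 : MSK.IsoM D.X.em (ob M.A1) O1 h1 h1')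
    (e0 : c.D0 * h0 = h1 * kmat (A := M.A0) (A' := M.A1) M.D0)
    (e1 : c.D1 * h1 = h0 * kmat (A := M.A1) (A' := M.A0) M.D1) :
    (conv D).v X = MSK.cls ⟨O0, O1, rk M.A0, rk M.A1, ty0, ty1, c⟩ := by
  have h2 : (conv D).v X = MSK.cls (toCC M) := psiT_v _ _ cls_inv r
  rw [h2]
  exact MSK.cls_iso ⟨rfl, rfl, h0, h0', h1, h1', i0, i1, e0, e1⟩

theorem conv_kos {m n : ℕ} {y g : D.S} (hy : D.Iv m y) (hg : D.Iv n g)
    (hP : ∀ P : MSX.HP D.p D.L, ¬ P.gen ∣ y ∨ ¬ P.gen ∣ g)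
    (c : MSK.CX D.X.em (kOe D m n) (kOo D m n))
    (hc0 : c.D0 = MSK.kD0 (D.X.ivK hy) (D.X.ivK hg))
    (hc1 : c.D1 = MSK.kD1 (D.X.ivK hy) (D.X.ivK hg)) :
    (conv D).v ((D.kCI hy hg).ch (Sr D.ph)) =
      MSK.cls ⟨kOe D m n, kOo D m n, rk (dgF D ![0, m + n]), rk (dgF D ![m, n]), kos_ty0 D m n,
        kos_ty1 D m n, c⟩ := by
  obtain ⟨r⟩ := rep_kos hy hg hP
  obtain ⟨h0, h0', i0, a0, -⟩ := kos_iso0 D m n
  obtain ⟨h1, h1', i1, b1, -⟩ := kos_iso1 D m n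
  have k0 := kos_comm0 hy hg
  have k1 := kos_comm1 hy hg
  rw [← hc0] at k0
  rw [← hc1] at k1
  exact conv_iso (M := kosM hy hg hP) r (kos_ty0 D m n) (kos_ty1 D m n) c i0 i1
    (kfin_comm (A := dgF D ![0, m + n]) (A' := dgF D ![m, n]) (bas_dg D ![0, m + n]).m
      (kos_hm0 hy hg) k0 a0 b1)
    (kfin_comm (A := dgF D ![m, n]) (A' := dgF D ![0, m + n]) (bas_dg D ![m, n]).m
      (kos_hm1 hy hg) k1 b1 a0)

end MSV
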